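import Pool.Agent.Helper83_ABA.Moves

/-!
# Coarse graining and the linear count: definitions and statements (ABA_part1.md, sections 2, 3)
-/

open Equiv Equiv.Perm H17ABA

namespace Pool.Agent.ABA

/-- Number of good cycles of φ: cycles carrying a potential f with f (φ η) = f η * r η. -/
noncomputable def good {S Γ : Type} [Group Γ] (φ : Perm S) (r : S → Γ) : ℕ :=
  Nat.card {q : Quotient (cs φ) // ∃ f : S → Γ, ∀ η, Quotient.mk (cs φ) η = q →
    f (φ η) = f η * r η}

/-- n is the first return time of w to Sel under π. -/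
def Ret {Ω : Type} (π : Perm Ω) (Sel : Set Ω) (w : Ω) (n : ℕ) : Prop :=
  0 < n ∧ (π ^ n) w ∈ Sel ∧ ∀ j, 0 < j → j < n → (π ^ j) w ∉ Sel

/-- The word read strictly between w and π ^ n w. -/
def btw {Ω L : Type} (π : Perm Ω) (lab : Ω → Bool × L) (w : Ω) (n : ℕ) : Wd L :=
  (List.range (n - 1)).map (fun j => lab ((π ^ (j + 1)) w))

/-- Region step: from η (start of the syllable η) to φ η = σ (l⁻¹ η). -/
def rstep {S L Γ : Type} [AddCommGroup L] [Group Γ] (α : Bool → Multiplicative L →* Γ)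
    (ty : S → Bool) (l : Perm S) (p : S → L) (k : S → Γ) (η : S) : Γ :=
  pw α (ty η) (-(p (l⁻¹ η))) * k (l⁻¹ η)

/-- LEMMA CP: the number of good cycles drops by at most one. -/
def CPStmt : Prop :=
  ∀ (S Γ : Type) [Finite S] [DecidableEq S] [Group Γ] (φ : Perm S) (r r' : S → Γ) (x y : S) (e : Γ),
    x ≠ y → r' (φ⁻¹ x) = r (φ⁻¹ x) * e → r' (φ⁻¹ y) = r (φ⁻¹ y) * e⁻¹ →
    (∀ z, z ≠ φ⁻¹ x → z ≠ φ⁻¹ y → r' z = r z) →
    good φ r ≤ good (swap x y * φ) r' + 1

/-- LEMMA CG (coarse graining). -/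
def CGStmt : Prop :=
  ∀ (L Γ Ω : Type) [AddCommGroup L] [Group Γ] [Fintype Ω] [DecidableEq Ω]
    (α : Bool → Multiplicative L →* Γ) (fs : List (List Ω)) (D : FC L Ω fs) (Sel : Set Ω),
    (∃ w, w ∈ Sel) → (∀ w ∈ Sel, w ∈ fs.flatten) →
    (∀ w ∈ fs.flatten, ∃ s ∈ Sel, (orb2 (facePerm fs) D.l⁻¹) w s) →
    (∀ d ∈ fs, (∀ w ∈ d, w ∉ Sel) → ev α (d.map D.lab) = 1) →
    ∃ (σS lS : Perm Sel) (p : Sel → L) (k : Sel → Γ),
      (∀ w : Sel, ∃ n, Ret (facePerm fs) Sel w n ∧ (σS w : Ω) = ((facePerm fs) ^ n) w ∧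
        k w = ev α (btw (facePerm fs) D.lab w n)) ∧
      (∀ w : Sel, ∃ n, Ret D.l Sel w n ∧ (lS w : Ω) = (D.l ^ n) w ∧
        p w = ((btw D.l D.lab w n).map Prod.snd).sum) ∧
      Nat.card Sel + 2 ≤ cyc σS + cyc lS +
        good (σS * lS⁻¹) (rstep α (fun w => (D.lab w).1) lS p k)

/-- kinds of sides: T-faces have sides al, be, ga (labels x, y, z), inverse T-faces have sides
al', be', ga' (labels -x, -y, -z), out t: syllables of type t of the outer words -/
inductive Kind
  | al | be | ga | al' | be' | ga' | out (t : Bool)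
  deriving DecidableEq

namespace Kind

def ty : Kind → Bool
  | al => true | be => false | ga => true | al' => true | be' => false | ga' => true | out t => t

def inv : Kind → Kind
  | al => al' | be => be' | ga => ga' | al' => al | be' => be | ga' => ga | out t => out t

/-- successor in the face (for sides of T-faces) -/
def nxt : Kind → Kind
  | al => be | be => ga | ga => al | ga' => be' | be' => al' | al' => ga' | out t => out t

def isOut : Kind → Bool
  | out _ => true | _ => false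

/-- cost (times 200) of the corner between w and σ w -/
def cor : Kind → ℕ
  | al => 201 | be => 201 | ga => 198 | ga' => 201 | be' => 201 | al' => 198 | out _ => 0

/-- cost (times 200) of the pass between w (kind a) and l w (kind b) -/
def pas (a b : Kind) : ℕ :=
  if a.isOut || b.isOut then 0 else if b = a.inv then 0 else if a.ty then 230 else 600

/-- label of the corner between w and σ w -/
def crn {Γ : Type} [Group Γ] (g : Γ) : Kind → Γ
  | ga => g⁻¹ | al' => g | _ => 1

end Kind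

/-- A coarse diagram without a zero fold. -/
structure CD {Γ : Type} [Group Γ] (α : Bool → Multiplicative ℤ →* Γ) (g : Γ) (S : Type) where
  σ : Perm S
  l : Perm S
  kind : S → Kind
  p : S → ℤ
  k : S → Γ
  face : ∀ w, (kind w).isOut = false → kind (σ w) = (kind w).nxt ∧ (σ ^ 3) w = w
  faceOut : ∀ w, (kind w).isOut = true → (kind (σ w)).isOut = true
  corner : ∀ w, (kind w).isOut = false → k w = (kind w).crn g
  line : ∀ w, (kind (l w)).ty = (kind w).ty
  fold : ∀ w, (kind w).isOut = false → kind (l w) = (kind w).inv → p w ≠ 0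

/-- the region step of a coarse diagram -/
def CD.r {Γ : Type} [Group Γ] {α : Bool → Multiplicative ℤ →* Γ} {g : Γ} {S : Type}
    (C : CD α g S) : S → Γ := rstep α (fun w => (C.kind w).ty) C.l C.p C.k

/-- cost (times 200) carried by η: corner and pass of l⁻¹ η -/
def CD.cost {Γ : Type} [Group Γ] {α : Bool → Multiplicative ℤ →* Γ} {g : Γ} {S : Type}
    (C : CD α g S) (η : S) : ℕ :=
  (C.kind (C.l⁻¹ η)).cor + Kind.pas (C.kind (C.l⁻¹ η)) (C.kind η)

/-- w lies on a bad line: an A-line without outer syllables with at most three sides which is not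
a pair of inverse sides, or a B-line without outer syllables all of whose sides are of the same
kind. -/
def CD.bad {Γ : Type} [Group Γ] {α : Bool → Multiplicative ℤ →* Γ} {g : Γ} {S : Type}
    (C : CD α g S) (w : S) : Prop :=
  (∀ v, (cs C.l) w v → (C.kind v).isOut = false) ∧
  (((C.kind w).ty = true ∧ Nat.card {v // (cs C.l) w v} ≤ 3 ∧
      ¬ (Nat.card {v // (cs C.l) w v} = 2 ∧ C.kind (C.l w) = (C.kind w).inv)) ∨
   ((C.kind w).ty = false ∧ ∀ v, (cs C.l) w v → C.kind v = C.kind w))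

/-- number of bad lines -/
noncomputable def CD.nbad {Γ : Type} [Group Γ] {α : Bool → Multiplicative ℤ →* Γ} {g : Γ}
    {S : Type} (C : CD α g S) : ℕ :=
  Nat.card {q : Quotient (cs C.l) // ∃ w, Quotient.mk (cs C.l) w = q ∧ C.bad w}

/-- REG: a good pure curve costs at least 1206. -/
def RegStmt : Prop :=
  ∀ (Γ : Type) [Group Γ] (α : Bool → Multiplicative ℤ →* Γ) (g : Γ) (S : Type) [Fintype S]
    (C : CD α g S), (∀ t, Function.Injective (α t)) → Geo (α true).range (α false).range →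
    ¬ IsABA (α true).range (α false).range g → ∀ η₀ : S,
    (∀ η, (cs (C.σ * C.l⁻¹)) η₀ η → (C.kind (C.l⁻¹ η)).isOut = false) →
    (∃ f : S → Γ, ∀ η, (cs (C.σ * C.l⁻¹)) η₀ η → f ((C.σ * C.l⁻¹) η) = f η * C.r η) →
    1206 ≤ cycSum (L := ℤ) (C.σ * C.l⁻¹) (fun η => (C.cost η : ℤ)) η₀

/-- SUM: the linear count (uses the conclusion of REG as a hypothesis). -/
def SumStmt : Prop :=
  ∀ (Γ : Type) [Group Γ] (α : Bool → Multiplicative ℤ →* Γ) (g : Γ) (S : Type) [Fintype S]
    (C : CD α g S),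
    (∀ η₀ : S, (∀ η, (cs (C.σ * C.l⁻¹)) η₀ η → (C.kind (C.l⁻¹ η)).isOut = false) →
      (∃ f : S → Γ, ∀ η, (cs (C.σ * C.l⁻¹)) η₀ η → f ((C.σ * C.l⁻¹) η) = f η * C.r η) →
      1206 ≤ cycSum (L := ℤ) (C.σ * C.l⁻¹) (fun η => (C.cost η : ℤ)) η₀) →
    Nat.card S + 2 ≤ cyc C.σ + cyc C.l + good (C.σ * C.l⁻¹) C.r →
    Nat.card {w // (C.kind w).isOut = false} ≤
      3 * (804 * Nat.card {w // (C.kind w).isOut = true} + 401 * C.nbad)

end Pool.Agent.ABA
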