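import Pool.Agent.Helper83_ABA.Snd

open Equiv Equiv.Perm H17ABA

namespace Pool.Agent.ABA

variable {L : Type} [AddCommGroup L]

section conj

variable {Γ : Type} [Group Γ] (α : Bool → Multiplicative L →* Γ) {Ω : Type} [Fintype Ω]
    [DecidableEq Ω]

/-- CONJ: two faces joined by a diagram of relators are conjugate by a short element. -/
theorem FC.conj_bound (N : ℕ) : ∀ (d e : List Ω) (fs : List (List Ω))
    (D : FC L Ω (d :: e :: fs)), fs.length ≤ N → (∀ q ∈ fs, ev α (q.map D.lab) = 1) →
    ev α (e.map D.lab) ≠ 1 → ∃ y : Wd L, y.length ≤ (d :: e :: fs).flatten.length ∧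
      ev α (d.map D.lab) = ev α y * (ev α (e.map D.lab))⁻¹ * (ev α y)⁻¹ := by
  induction N with
  | zero =>
    intro d e fs D hfs hrel he
    have hfs : fs = [] := List.length_eq_zero_iff.1 (by omega)
    subst hfs
    by_cases hw : ∃ w ∈ d, D.l w ∉ d
    · obtain ⟨w, hwd, hlw⟩ := hw
      obtain ⟨w', hww'⟩ : ∃ w', D.l w = w' := ⟨_, rfl⟩
      have h1 : D.l w ∈ (d :: [e]).flatten := D.live_l (by
        rw [List.flatten_cons]; exact List.mem_append_left _ hwd)
      rw [List.flatten_cons, List.mem_append] at h1
      rw [hww'] at h1 hlw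
      have hwe : w' ∈ e := by simpa using h1.resolve_left hlw
      obtain ⟨c1, c2, rfl⟩ := List.append_of_mem hwd
      obtain ⟨d1, d2, rfl⟩ := List.append_of_mem hwe
      obtain ⟨D', hlab, -⟩ := D.absorb hww'
      have h2 := D'.sound α (by simp)
      rw [hlab] at h2
      refine ⟨(c1 ++ [w]).map D.lab ++ winv (d1.map D.lab), ?_, ?_⟩
      · simp only [List.length_append, List.length_map, winv_length, List.length_cons,
          List.flatten_cons, List.flatten_nil, List.length_nil]
        omega
      · simp only [List.map_append, List.map_cons, ev_append, ev_cons, ev_winv, List.map_nil,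
          ev_nil, mul_one] at h2 ⊢
        generalize ev α (List.map D.lab c1) = a1 at *
        generalize pw α (D.lab w).1 (D.lab w).2 = a2 at *
        generalize pw α (D.lab w').1 (D.lab w').2 = a3 at *
        generalize ev α (List.map D.lab c2) = a4 at *
        generalize ev α (List.map D.lab d1) = a5 at *
        generalize ev α (List.map D.lab d2) = a6 at *
        have h3 : a4 = (a1 * a2 * (a3 * a6 * a5))⁻¹ := by
          rw [eq_comm, inv_eq_iff_mul_eq_one, ← h2]
          group
        rw [h3]
        group
    · exfalso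
      push Not at hw
      obtain ⟨D', hD'⟩ := FC.removeClosed (es := [d]) (gs := [e]) D (by
        intro w hw'
        simp only [List.flatten_cons, List.flatten_nil, List.append_nil] at hw' ⊢
        exact hw w hw')
      have h1 := D'.sound α (by simp)
      apply he
      rw [← h1]
      congr 1
      exact List.map_congr_left (fun x hx => (hD' x (by simpa using hx)).symm)
  | succ N ih =>
    intro d e fs D hfs hrel he
    by_cases hw : ∃ w ∈ d, D.l w ∉ d
    · obtain ⟨w, hwd, hlw⟩ := hw
      obtain ⟨w', hww'⟩ : ∃ w', D.l w = w' := ⟨_, rfl⟩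
      have h1 : D.l w ∈ (d :: e :: fs).flatten := D.live_l (by
        rw [List.flatten_cons]; exact List.mem_append_left _ hwd)
      rw [List.flatten_cons, List.mem_append] at h1
      rw [hww'] at h1 hlw
      have h2 := h1.resolve_left hlw
      rw [List.flatten_cons, List.mem_append] at h2
      rcases h2 with hwe | h2
      · obtain ⟨c1, c2, rfl⟩ := List.append_of_mem hwd
        obtain ⟨d1, d2, rfl⟩ := List.append_of_mem hwe
        obtain ⟨D', hlab, -⟩ := D.absorb hww'
        have h2 := D'.sound α (by rw [hlab]; exact hrel)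
        rw [hlab] at h2
        refine ⟨(c1 ++ [w]).map D.lab ++ winv (d1.map D.lab), ?_, ?_⟩
        · simp only [List.length_append, List.length_map, winv_length, List.length_cons,
            List.flatten_cons, List.length_nil]
          omega
        · simp only [List.map_append, List.map_cons, ev_append, ev_cons, ev_winv, List.map_nil,
            ev_nil, mul_one] at h2 ⊢
          generalize ev α (List.map D.lab c1) = a1 at *
          generalize pw α (D.lab w).1 (D.lab w).2 = a2 at *
          generalize pw α (D.lab w').1 (D.lab w').2 = a3 at *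
          generalize ev α (List.map D.lab c2) = a4 at *
          generalize ev α (List.map D.lab d1) = a5 at *
          generalize ev α (List.map D.lab d2) = a6 at *
          have h3 : a4 = (a1 * a2 * (a3 * a6 * a5))⁻¹ := by
            rw [eq_comm, inv_eq_iff_mul_eq_one, ← h2]
            group
          rw [h3]
          group
      · obtain ⟨q, hq, hwq⟩ := List.mem_flatten.1 h2
        obtain ⟨fs1, fs2, rfl⟩ := List.append_of_mem hq
        obtain ⟨c1, c2, rfl⟩ := List.append_of_mem hwd
        obtain ⟨d1, d2, rfl⟩ := List.append_of_mem hwq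
        have hp : ((c1 ++ w :: c2) :: e :: (fs1 ++ (d1 ++ w' :: d2) :: fs2)).Perm
            ((c1 ++ w :: c2) :: (d1 ++ w' :: d2) :: (e :: (fs1 ++ fs2))) := by
          refine List.Perm.cons _ ?_
          refine (List.Perm.cons e List.perm_middle).trans ?_
          exact List.Perm.swap _ _ _
        obtain ⟨D', hlab, -⟩ := (D.ofPerm hp).absorb hww'
        have hlab' : D'.lab = D.lab := hlab
        obtain ⟨y, hy, hy'⟩ := ih _ e (fs1 ++ fs2) D' (by
          simp only [List.length_append, List.length_cons] at hfs ⊢
          omega) (by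
          intro q' hq'
          rw [hlab']
          refine hrel q' ?_
          rcases List.mem_append.1 hq' with h | h
          · simp [h]
          · simp [h]) (by rw [hlab']; exact he)
        refine ⟨y, ?_, ?_⟩
        · simp only [List.length_append, List.length_cons, List.flatten_cons,
            List.flatten_append] at hy ⊢
          omega
        · rw [hlab'] at hy'
          rw [← hy']
          have h3 : ev α ((w' :: (d2 ++ d1)).map D.lab) = 1 := by
            refine ev_isRotated α ?_ (hrel _ hq)
            refine ⟨d1.length, ?_⟩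
            rw [← List.map_rotate, List.rotate_append_length_eq]
            rfl
          have e1 : (c1 ++ w :: (w' :: (d2 ++ d1) ++ c2)).map D.lab =
            (c1 ++ [w]).map D.lab ++ ((w' :: (d2 ++ d1)).map D.lab ++ c2.map D.lab) := by
            simp
          have e2 : (c1 ++ w :: c2).map D.lab = (c1 ++ [w]).map D.lab ++ c2.map D.lab := by simp
          rw [e1, e2, ev_append, ev_append, ev_append, h3, one_mul]
    · exfalso
      push Not at hw
      obtain ⟨D', hD'⟩ := FC.removeClosed (es := [d]) (gs := e :: fs) D (by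
        intro w hw'
        simp only [List.flatten_cons, List.flatten_nil, List.append_nil] at hw' ⊢
        exact hw w hw')
      have hmap : ∀ q ∈ e :: fs, q.map D'.lab = q.map D.lab := by
        intro q hq
        exact List.map_congr_left (fun x hx => hD' x (List.mem_flatten.2 ⟨q, hq, hx⟩))
      have h1 := D'.sound α (fun q hq => by
        rw [hmap q (by simp [hq])]
        exact hrel q hq)
      apply he
      rw [← h1, hmap e (by simp)]

theorem Cert.conj_bound {w v : Wd L} {Q : List (Wd L)} (hC : Cert (w :: v :: Q))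
    (hQ : ∀ q ∈ Q, ev α q = 1) (hv : ev α v ≠ 1) :
    ∃ y : Wd L, y.length ≤ w.length + v.length + (Q.map List.length).sum ∧
      ev α w = ev α y * (ev α v)⁻¹ * (ev α y)⁻¹ := by
  obtain ⟨Ω, i1, i2, fs, D, hF⟩ := hC
  obtain ⟨d, fs', rfl, rfl, h1⟩ := List.map_eq_cons_iff.1 hF.symm
  obtain ⟨e, fs'', rfl, rfl, rfl⟩ := List.map_eq_cons_iff.1 h1
  obtain ⟨y, hy, hy'⟩ := FC.conj_bound α fs''.length d e fs'' D le_rfl
    (fun q hq => hQ _ (List.mem_map_of_mem hq)) hv
  refine ⟨y, ?_, hy'⟩
  simp only [List.flatten_cons, List.length_append, List.length_map, List.map_map,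
    List.length_flatten] at hy ⊢
  have : (List.length ∘ fun c => List.map D.lab c) = List.length := by
    funext c
    simp
  rw [this]
  omega

end conj

section pres

variable {Γ : Type} [Group Γ] {α : Bool → Multiplicative L →* Γ} {R : Set (Wd L)}

theorem Pres.rel (hP : Pres α R) {q : Wd L} (hq : Rel R q) : ev α q = 1 := by
  have key : ∀ r ∈ R, ev α r = 1 := by
    intro r hr
    refine (hP.2 r).2 ⟨[winv r], ?_, Cert.mirror r⟩
    intro q hq
    rw [List.mem_singleton.1 hq]
    right
    rw [winv_winv]
    exact hr
  rcases hq with hq | hq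
  · exact key q hq
  · have := key _ hq
    rw [ev_winv, inv_eq_one] at this
    exact this

theorem evF_surj (y : FP L) : ∃ v : Wd L, ev (αF L) v = y := by
  induction y using Monoid.CoprodI.induction_on with
  | one => exact ⟨[], rfl⟩
  | of i m =>
    refine ⟨[(i, Multiplicative.toAdd m)], ?_⟩
    rw [ev_cons, ev_nil, mul_one]
    rfl
  | mul a b ha hb =>
    obtain ⟨u, rfl⟩ := ha
    obtain ⟨v, rfl⟩ := hb
    exact ⟨u ++ v, ev_append _ _ _⟩

/-- presentations of quotients of the free product -/
theorem pres_of_ker (hs : Function.Surjective (Monoid.CoprodI.lift α))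
    (hk : (Monoid.CoprodI.lift α).ker = Subgroup.normalClosure (ev (αF L) '' R)) :
    Pres α R := by
  constructor
  · intro x
    obtain ⟨y, rfl⟩ := hs x
    obtain ⟨v, rfl⟩ := evF_surj y
    exact ⟨v, ev_factor α v⟩
  · intro w
    constructor
    · intro hw
      refine complete R w ?_
      rw [← hk, MonoidHom.mem_ker, ← ev_factor]
      exact hw
    · rintro ⟨Q, hQ, hC⟩
      refine hC.sound α (fun q hq => ?_)
      have key : ∀ r ∈ R, ev α r = 1 := by
        intro r hr
        rw [ev_factor, ← MonoidHom.mem_ker, hk]
        exact Subgroup.subset_normalClosure ⟨r, hr, rfl⟩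
      rcases hQ q hq with h | h
      · exact key q h
      · have := key _ h
        rw [ev_winv, inv_eq_one] at this
        exact this

theorem Pres.surj (hP : Pres α R) : Function.Surjective (Monoid.CoprodI.lift α) := by
  intro x
  obtain ⟨w, rfl⟩ := hP.1 x
  exact ⟨ev (αF L) w, (ev_factor α w).symm⟩

theorem Pres.ker (hP : Pres α R) :
    (Monoid.CoprodI.lift α).ker = Subgroup.normalClosure (ev (αF L) '' R) := by
  apply le_antisymm
  · intro x hx
    obtain ⟨w, rfl⟩ := evF_surj x
    rw [MonoidHom.mem_ker, ← ev_factor] at hx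
    obtain ⟨Q, hQ, hC⟩ := (hP.2 w).1 hx
    let φ := QuotientGroup.mk' (Subgroup.normalClosure (ev (αF L) '' R))
    have hφ : ∀ u : Wd L, ev (fun t => φ.comp (αF L t)) u = φ (ev (αF L) u) := by
      intro u
      induction u with
      | nil => simp
      | cons s u ih =>
        rw [ev_cons, ev_cons, map_mul, ih]
        rfl
    have h1 := hC.sound (fun t => φ.comp (αF L t)) (fun q hq => by
      have key : ∀ r ∈ R, ev (fun t => φ.comp (αF L t)) r = 1 := by
        intro r hr
        rw [hφ]
        exact (QuotientGroup.eq_one_iff _).2 (Subgroup.subset_normalClosure ⟨r, hr, rfl⟩)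
      rcases hQ q hq with h | h
      · exact key q h
      · have := key _ h
        rw [ev_winv, inv_eq_one] at this
        exact this)
    rw [hφ] at h1
    exact (QuotientGroup.eq_one_iff _).1 h1
  · refine Subgroup.normalClosure_le_normal ?_
    rintro _ ⟨r, hr, rfl⟩
    rw [SetLike.mem_coe, MonoidHom.mem_ker, ← ev_factor]
    exact hP.rel (Or.inl hr)

theorem pres_iff : Pres α R ↔ Function.Surjective (Monoid.CoprodI.lift α) ∧
    (Monoid.CoprodI.lift α).ker = Subgroup.normalClosure (ev (αF L) '' R) :=
  ⟨fun h => ⟨h.surj, h.ker⟩, fun h => pres_of_ker h.1 h.2⟩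

/-- two words conjugate up to inversion in Γ: a certificate with both. -/
theorem Pres.pair (hP : Pres α R) {w v y : Wd L}
    (h : ev α w = ev α y * (ev α v)⁻¹ * (ev α y)⁻¹) :
    ∃ Q : List (Wd L), (∀ q ∈ Q, Rel R q) ∧ Cert (w :: v :: Q) := by
  obtain ⟨Q, hQ, hC⟩ := (hP.2 (w ++ (y ++ v ++ winv y))).1 (by
    rw [ev_append, ev_append, ev_append, ev_winv, h]
    group)
  exact ⟨Q, hQ, hC.conj_pair⟩

/-- CONJ': conjugators of linear length. -/
theorem Pres.conj_linear (hP : Pres α R) {K ρ : ℕ} (hK : LFwith K R)
    (hρ : ∀ q ∈ R, q.length ≤ ρ) {w v : Wd L} (hw : w ≠ []) (hv : v ≠ []) {x : Γ}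
    (h : ev α w = x * ev α v * x⁻¹) (hv1 : ev α v ≠ 1) :
    ∃ y : Wd L, y.length ≤ (1 + K * ρ) * (w.length + v.length) ∧
      ev α w = ev α y * ev α v * (ev α y)⁻¹ := by
  obtain ⟨y0, rfl⟩ := hP.1 x
  have hv' : winv v ≠ [] := by
    intro hh
    apply hv
    have := congrArg List.length hh
    rw [winv_length] at this
    exact List.length_eq_zero_iff.1 this
  obtain ⟨Q, hQ, hC⟩ := hP.pair (w := w) (v := winv v) (y := y0) (by
    rw [ev_winv, inv_inv]; exact h)
  obtain ⟨Q', hQ', hlen, hC'⟩ := hK [w, winv v] (by
    intro u hu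
    rcases List.mem_pair.1 hu with rfl | rfl
    · exact hw
    · exact hv') Q hQ hC
  have hC'' : Cert (w :: winv v :: Q') := hC'
  obtain ⟨y, hy, hy'⟩ := Cert.conj_bound α (w := w) (v := winv v) hC''
    (fun q hq => hP.rel (hQ' q hq)) (by
      rw [ev_winv, ne_eq, inv_eq_one]
      exact hv1)
  refine ⟨y, ?_, by rw [hy', ev_winv, inv_inv]⟩
  have h1 : (Q'.map List.length).sum ≤ Q'.length * ρ := by
    have : (Q'.map List.length).sum ≤ (Q'.map List.length).length • ρ := by
      refine List.sum_le_card_nsmul _ _ ?_
      intro n hn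
      obtain ⟨q, hq, rfl⟩ := List.mem_map.1 hn
      rcases hQ' q hq with h | h
      · exact hρ q h
      · have := hρ _ h
        rwa [winv_length] at this
    rw [List.length_map, smul_eq_mul] at this
    exact this
  simp only [List.map_cons, List.map_nil, List.sum_cons, List.sum_nil, winv_length,
    add_zero] at hlen hy
  calc y.length ≤ w.length + v.length + Q'.length * ρ := by omega
    _ ≤ w.length + v.length + (K * (w.length + v.length)) * ρ := by gcongr
    _ = _ := by ring

end pres

end Pool.Agent.ABA
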