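import Pool.Agent.Helper83_ABA.Moves

open Equiv Equiv.Perm H17ABA

namespace Pool.Agent.ABA

/-- the free product of two copies of L -/
abbrev FP (L : Type) [AddCommGroup L] : Type := Monoid.CoprodI (fun _ : Bool => Multiplicative L)

/-- the canonical homomorphisms into the free product -/
def αF (L : Type) [AddCommGroup L] (t : Bool) : Multiplicative L →* FP L :=
  Monoid.CoprodI.of (M := fun _ : Bool => Multiplicative L) (i := t)

section evs

variable {L : Type} [AddCommGroup L] {Γ : Type} [Group Γ] (α : Bool → Multiplicative L →* Γ)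

@[simp] theorem ev_nil : ev α ([] : Wd L) = 1 := rfl

theorem ev_cons (s : Bool × L) (w : Wd L) : ev α (s :: w) = pw α s.1 s.2 * ev α w := by
  simp [ev, pw]

theorem ev_append (u v : Wd L) : ev α (u ++ v) = ev α u * ev α v := by
  simp [ev]

theorem pw_add (t : Bool) (x y : L) : pw α t (x + y) = pw α t x * pw α t y := by
  simp [pw, ofAdd_add]

@[simp] theorem pw_zero (t : Bool) : pw α t 0 = 1 := by simp [pw]

theorem pw_neg (t : Bool) (x : L) : pw α t (-x) = (pw α t x)⁻¹ := by simp [pw]

theorem winv_append (u v : Wd L) : winv (u ++ v) = winv v ++ winv u := by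
  simp [winv]

theorem winv_cons (s : Bool × L) (w : Wd L) : winv (s :: w) = winv w ++ [(s.1, -s.2)] := by
  simp [winv]

theorem winv_winv (w : Wd L) : winv (winv w) = w := by
  simp [winv, Function.comp_def]

@[simp] theorem winv_length (w : Wd L) : (winv w).length = w.length := by simp [winv]

theorem ev_winv (w : Wd L) : ev α (winv w) = (ev α w)⁻¹ := by
  induction w with
  | nil => simp [winv]
  | cons s w ih =>
    rw [winv_cons, ev_append, ih, ev_cons, ev_cons, ev_nil, mul_one, mul_inv_rev, pw_neg]

theorem ev_rot {u v : Wd L} (h : ev α (u ++ v) = 1) : ev α (v ++ u) = 1 := by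
  rw [ev_append] at h ⊢
  rw [eq_inv_of_mul_eq_one_right h, inv_mul_cancel]

theorem ev_isRotated {u v : Wd L} (h : u ~r v) (hu : ev α u = 1) : ev α v = 1 := by
  obtain ⟨n, rfl⟩ := h
  rw [List.rotate_eq_drop_append_take_mod]
  apply ev_rot
  rw [List.take_append_drop]
  exact hu

/-- evaluation factors through the free product -/
theorem ev_factor (w : Wd L) : ev α w = Monoid.CoprodI.lift α (ev (αF L) w) := by
  induction w with
  | nil => simp
  | cons s w ih =>
    rw [ev_cons, ev_cons, map_mul, ih]
    congr 1

end evs

/-- normal form: a nonempty word which is 1 in the free product is reducible -/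
theorem red_of_one {L : Type} [AddCommGroup L] (w : Wd L) (hw : w ≠ [])
    (h : ev (αF L) w = 1) :
    (∃ u t v, w = u ++ (t, 0) :: v) ∨ ∃ u t x y v, w = u ++ (t, x) :: (t, y) :: v := by
  classical
  by_contra hcon
  push Not at hcon
  obtain ⟨h1, h2⟩ := hcon
  let W : Monoid.CoprodI.Word (fun _ : Bool => Multiplicative L) :=
    { toList := w.map (fun s => (⟨s.1, Multiplicative.ofAdd s.2⟩ : Σ _ : Bool, Multiplicative L))
      ne_one := by
        intro l hl hone
        obtain ⟨s, hs, rfl⟩ := List.mem_map.1 hl
        have h0 : s.2 = 0 := by simpa using hone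
        obtain ⟨u, v, huv⟩ := List.append_of_mem hs
        refine h1 u s.1 v ?_
        rw [huv]
        congr 2
        ext
        · rfl
        · exact h0
      chain_ne := by
        rw [List.isChain_map]
        rw [List.isChain_iff_getElem]
        intro i hi hh
        simp only at hh
        have e : w = w.take i ++ w[i] :: w[i + 1] :: w.drop (i + 2) := by
          conv_lhs => rw [← List.take_append_drop i w]
          congr 1
          rw [List.drop_eq_getElem_cons (by omega), List.drop_eq_getElem_cons (by omega)]
        refine h2 (w.take i) w[i].1 w[i].2 w[i + 1].2 (w.drop (i + 2)) ?_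
        conv_lhs => rw [e]
        congr 2
        congr 1
        ext
        · exact hh.symm
        · rfl }
  have hp : W.prod = 1 := by
    rw [← h]
    change (List.map _ (List.map _ w)).prod = _
    rw [List.map_map]
    rfl
  have hW : W = Monoid.CoprodI.Word.empty := by
    apply (Monoid.CoprodI.Word.equiv (M := fun _ : Bool => Multiplicative L)).symm.injective
    change W.prod = Monoid.CoprodI.Word.empty.prod
    rw [hp, Monoid.CoprodI.Word.prod_empty]
  have : W.toList = [] := by rw [hW]; rfl
  have h3 : w.map (fun s => (⟨s.1, Multiplicative.ofAdd s.2⟩ : Σ _ : Bool, Multiplicative L)) = [] :=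
    this
  exact hw (List.map_eq_nil_iff.1 h3)

namespace FC

variable {L : Type} [AddCommGroup L] {Ω : Type} [Fintype Ω] [DecidableEq Ω]
  {fs gs : List (List Ω)}

/-- JUNK LEMMA: a face which is trivial in the free product can be removed. -/
theorem junk {d : List Ω} (D : FC L Ω (d :: fs)) (h : ev (αF L) (d.map D.lab) = 1) :
    ∃ D' : FC L Ω fs, ∀ x ∈ fs.flatten, D'.lab x = D.lab x := by
  obtain ⟨n, hn⟩ : ∃ n, n = d.length := ⟨_, rfl⟩
  induction n using Nat.strong_induction_on generalizing d with
  | _ n ih =>
  by_cases hd : d = []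
  · subst hd
    exact ⟨D.dropNil, fun x _ => rfl⟩
  · have hne : d.map D.lab ≠ [] := by simpa using hd
    rcases red_of_one _ hne h with ⟨u, t, v, huv⟩ | ⟨u, t, x, y, v, huv⟩
    · -- zero syllable
      obtain ⟨d1, d2', rfl, hu, hv'⟩ := List.map_eq_append_iff.1 huv
      obtain ⟨w, d2, rfl, hw, hv⟩ := List.map_eq_cons_iff.1 hv'
      let D1 := D.rot (e := w :: (d2 ++ d1)) (by
        refine ⟨d1.length, ?_⟩
        rw [List.rotate_append_length_eq]
        rfl)
      have h0 : (D1.lab w).2 = 0 := by
        change (D.lab w).2 = 0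
        rw [hw]
      let D2 := D1.deleteHead h0
      have h3 : ev (αF L) ((d2 ++ d1).map D2.lab) = 1 := by
        change ev (αF L) ((d2 ++ d1).map D.lab) = 1
        rw [List.map_append]
        apply ev_rot
        rw [huv, ev_append, ev_cons] at h
        simp only [pw_zero, one_mul] at h
        rw [ev_append, hu, hv]
        exact h
      obtain ⟨D', hD'⟩ := ih (d2 ++ d1).length (by
        rw [hn]; simp only [List.length_append, List.length_cons]; omega) D2 h3 rfl
      exact ⟨D', hD'⟩
    · obtain ⟨d1, d2', rfl, hu, hv'⟩ := List.map_eq_append_iff.1 huv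
      obtain ⟨w, d2'', rfl, hw, hv''⟩ := List.map_eq_cons_iff.1 hv'
      obtain ⟨w', d2, rfl, hw', hv⟩ := List.map_eq_cons_iff.1 hv''
      let D1 := D.rot (e := w :: w' :: (d2 ++ d1)) (by
        refine ⟨d1.length, ?_⟩
        rw [List.rotate_append_length_eq]
        rfl)
      have ht : (D1.lab w).1 = (D1.lab w').1 := by
        change (D.lab w).1 = (D.lab w').1
        rw [hw, hw']
      obtain ⟨D2, hD2, hD2'⟩ := D1.fold ht
      have hnod : ((w :: w' :: (d2 ++ d1)) :: fs).flatten.Nodup := D1.nodup
      simp only [List.flatten_cons, List.cons_append, List.nodup_cons, List.mem_cons,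
        List.mem_append, not_or] at hnod
      have hmem : ∀ z ∈ d2 ++ d1, z ≠ w ∧ z ≠ w' := by
        intro z hz
        have hz' : z ∈ d2 ∨ z ∈ d1 := by simpa using hz
        constructor
        · rintro rfl
          rcases hz' with hz' | hz'
          · exact hnod.1.2.1.1 hz'
          · exact hnod.1.2.1.2 hz'
        · rintro rfl
          rcases hz' with hz' | hz'
          · exact hnod.2.1.1.1 hz'
          · exact hnod.2.1.1.2 hz'
      have hmap : (d2 ++ d1).map D2.lab = (d2 ++ d1).map D.lab :=
        List.map_congr_left (fun z hz => hD2' z (hmem z hz).1 (hmem z hz).2)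
      have h3 : ev (αF L) ((w :: (d2 ++ d1)).map D2.lab) = 1 := by
        rw [List.map_cons, hmap, hD2]
        change ev (αF L) (((D.lab w).1, (D.lab w).2 + (D.lab w').2) :: (d2 ++ d1).map D.lab) = 1
        rw [hw, hw', List.map_append, ← List.cons_append]
        apply ev_rot
        rw [huv, ev_append, ev_cons, ev_cons, ← mul_assoc, ← mul_assoc] at h
        rw [ev_append, ev_cons, hu, hv, pw_add, ← mul_assoc, ← mul_assoc]
        exact h
      obtain ⟨D', hD'⟩ := ih (w :: (d2 ++ d1)).length (by
        rw [hn]; simp only [List.length_append, List.length_cons]; omega) D2 h3 rfl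
      refine ⟨D', fun z hz => ?_⟩
      rw [hD' z hz]
      refine hD2' z ?_ ?_
      · rintro rfl
        exact hnod.1.2.2 hz
      · rintro rfl
        exact hnod.2.1.2 hz

end FC

end Pool.Agent.ABA
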