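import Pool.Agent.Helper17_ABA.Mask

/-!
Surgeries at several boundary vertices of a minimal disc at the same time (MP_d857f1_al, part B,
module PUSH).
-/

set_option autoImplicit false

namespace Pool.Agent.ABA.B.H83

open Pool.Agent.ABA.B Pool.Agent.ABA.B.TG Pool.Agent.ABA.B.H17

variable {V E : Type} {S : TG V E}

theorem rp_congr (F : ℕ → E × E) {μ ν : ℕ → Bool} : ∀ {w : List E} {k : ℕ},
    (∀ i < w.length, μ (k + i) = ν (k + i)) →
      rp F μ k w = rp F ν k w ∧ ct μ k w.length = ct ν k w.length := by
  intro w
  induction w with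
  | nil => intro k _; exact ⟨rfl, rfl⟩
  | cons a w ih =>
    intro k h
    have h0 : μ k = ν k := h 0 (by simp)
    have h1 := ih (k := k + 1) (fun i hi => by
      have := h (i + 1) (by simpa using hi)
      rwa [show k + 1 + i = k + (i + 1) by omega])
    constructor
    · simp only [rp, h0, h1.1]
    · simp only [List.length_cons, ct, h0, h1.2]

theorem Cl_back {u v : List E} {e : E} (h : S.Cl (u ++ e :: S.inv e :: v)) : S.Cl (u ++ v) := by
  obtain ⟨x, h⟩ := h
  obtain ⟨y, h1, h2⟩ := isP_append.1 h
  refine ⟨x, isP_append.2 ⟨y, h1, ?_⟩⟩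
  have h3 := h2.2.2
  rw [tgt_inv, h2.1] at h3
  exact h3

theorem tri_uniq1 {e f g g' : E} (h : S.Tri e g f) (h' : S.Tri e g' f) : g = g' := by
  have h1 := H56.tri1 h
  have h2 := H56.tri1 h'
  have h3 := S.tri_uniq h1 h2
  have := congrArg S.inv h3
  simpa using this

/-- The data of the triangles of the disc at the boundary letters. -/
def FD (S : TG V E) (a : ℕ → E) (W : ℕ → List E) (F : ℕ → E × E) : Prop :=
  ∀ i, S.Tri (a i) (F i).1 (F i).2 ∧ (∃ l, W i = l ++ [(F i).1, a i]) ∧
    ∃ r, W (i + 1) = S.inv (a i) :: S.inv (F i).2 :: r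

theorem exists_FD {N : ℕ} {a : ℕ → E} {W : ℕ → List E} {I : List (List E)} (B : Bd S N a W I) :
    ∃ F, FD S a W F := by
  have h : ∀ i, ∃ f : E × E, S.Tri (a i) f.1 f.2 ∧ (∃ l, W i = l ++ [f.1, a i]) ∧
      ∃ r, W (i + 1) = S.inv (a i) :: S.inv f.2 :: r := by
    intro i
    obtain ⟨f1, f2, l, r, hT, h1, h2⟩ := B.edg i
    exact ⟨(f1, f2), hT, ⟨l, h1⟩, ⟨r, h2⟩⟩
  choose F hF using h
  exact ⟨F, hF⟩

/-- Surgeries: `Sur S W p k w R n q` : `w` is a list of letters with the numbers `k, k + 1, …`,
`R` is the new list, `n` the number of the removed triangles; `p`, `q` tell whether the triangle of the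
letter before the list (of the last letter) is removed. -/
inductive Sur (S : TG V E) (W : ℕ → List E) : Bool → ℕ → List E → List E → ℕ → Bool → Prop
  | nil (p : Bool) (k : ℕ) : Sur S W p k [] [] 0 p
  | keep {p q : Bool} {k : ℕ} {a : E} {w R : List E} {n : ℕ} :
      Sur S W false (k + 1) w R n q → Sur S W p k (a :: w) (a :: R) n q
  | one {p q : Bool} {k : ℕ} {a b h : E} {w R : List E} {n : ℕ} :
      W (k + 1) = [S.inv a, b] → S.Tri b (S.inv a) h → Sur S W true (k + 2) w R n q →
        Sur S W p k (a :: b :: w) (h :: R) (n + 1) q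
  | two {p q : Bool} {k : ℕ} {a b g m f : E} {w R : List E} {n : ℕ} :
      (p = false ∨ (W k).length ≠ 2) → W (k + 1) = [S.inv a, m, b] → S.Tri a g (S.inv m) →
        S.Tri b m f → Sur S W true (k + 2) w R n q → Sur S W p k (a :: b :: w) (g :: f :: R) (n + 2) q

theorem sur_mask (M : Mods) (hSC : S.SC) {a : ℕ → E} {W : ℕ → List E} {F : ℕ → E × E}
    (hF : FD S a W F) {p q : Bool} {k : ℕ} {w R : List E} {n : ℕ} (h : Sur S W p k w R n q) :
    (∀ i (hi : i < w.length), a (k + i) = w[i]) →
    ∃ μ : ℕ → Bool, ct μ k w.length = n ∧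
      (w ≠ [] → μ k = true → p = false ∨ (W k).length ≠ 2) ∧
      (∀ i, i + 1 < w.length → μ (k + i) = true → μ (k + i + 1) = true →
        (W (k + i + 1)).length ≠ 2) ∧
      (w ≠ [] → μ (k + (w.length - 1)) = true → q = true) ∧ (w = [] → q = p) ∧
      (∀ l, S.Cl (l ++ rp F μ k w) → S.ar (l ++ R) ≤ S.ar (l ++ rp F μ k w) ∧ S.Cl (l ++ R)) := by
  have hback := fun (u v : List E) (e : E) => (M.area V E S hSC).2.2.2.2.2.1 u v e
  induction h with
  | nil p k =>
    intro _
    exact ⟨fun _ => false, rfl, fun h => absurd rfl h, by simp, fun h => absurd rfl h, fun _ => rfl,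
      fun l h => by simpa [rp] using h⟩
  | @keep p q k b w R n h ih =>
    intro ha
    obtain ⟨μ, h1, h2, h3, h4, h5, h6⟩ := ih (fun i hi => by
      have := ha (i + 1) (by simpa using hi)
      rw [List.getElem_cons_succ] at this
      rw [← this]; congr 1; omega)
    obtain ⟨ν, hν⟩ : ∃ ν : ℕ → Bool, ν = fun j => if j = k then false else μ j := ⟨_, rfl⟩
    have hν0 : ν k = false := by simp [hν]
    have hν1 : ∀ i < w.length, ν (k + 1 + i) = μ (k + 1 + i) := by
      intro i _
      rw [hν]; simp only; rw [if_neg (by omega)]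
    have hc := rp_congr F hν1
    refine ⟨ν, ?_, ?_, ?_, ?_, ?_, ?_⟩
    · simp [ct, hν0, hc.2, h1]
    · intro _ h; rw [hν0] at h; exact absurd h (by decide)
    · intro i hi m1 m2
      cases i with
      | zero => rw [Nat.add_zero, hν0] at m1; exact absurd m1 (by decide)
      | succ i =>
        have e1 : k + (i + 1) = k + 1 + i := by omega
        have hi' : i + 1 < w.length := by simpa using hi
        rw [e1] at m1 m2 ⊢
        refine h3 i hi' ?_ ?_
        · rw [← hν1 i (by omega)]; exact m1
        · rw [show k + 1 + i + 1 = k + 1 + (i + 1) by omega] at m2 ⊢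
          rw [← hν1 (i + 1) (by omega)]; exact m2
    · intro _ m1
      by_cases hw : w = []
      · subst hw
        simp only [List.length_cons, List.length_nil] at m1
        rw [show k + (0 + 1 - 1) = k by omega, hν0] at m1
        exact absurd m1 (by decide)
      · have hl : 1 ≤ w.length := List.length_pos_iff.2 hw
        apply h4 hw
        rw [← hν1 (w.length - 1) (by omega)]
        rw [List.length_cons] at m1
        rw [show k + 1 + (w.length - 1) = k + (w.length + 1 - 1) by omega]
        exact m1
    · intro h; exact absurd h (by simp)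
    · intro l hl
      have e1 : rp F ν k (b :: w) = b :: rp F μ (k + 1) w := by
        simp [rp, hν0, hc.1]
      rw [e1] at hl ⊢
      have := h6 (l ++ [b]) (by simpa using hl)
      simpa using this
  | @one p q k b c h w R n hW hT hs ih =>
    intro ha
    obtain ⟨μ, h1, h2, h3, h4, h5, h6⟩ := ih (fun i hi => by
      have := ha (i + 2) (by simpa using hi)
      rw [List.getElem_cons_succ, List.getElem_cons_succ] at this
      rw [← this]; congr 1; omega)
    have ha1 : a (k + 1) = c := by
      have := ha 1 (by simp)
      simpa using this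
    obtain ⟨ν, hν⟩ : ∃ ν : ℕ → Bool, ν = fun j => if j = k then false else if j = k + 1 then true
      else μ j := ⟨_, rfl⟩
    have hν0 : ν k = false := by simp [hν]
    have hν00 : ν (k + 1) = true := by simp [hν]
    have hν1 : ∀ i < w.length, ν (k + 2 + i) = μ (k + 2 + i) := by
      intro i _
      rw [hν]; simp only; rw [if_neg (by omega), if_neg (by omega)]
    have hc := rp_congr F hν1
    have hF1 : F (k + 1) = (S.inv b, h) := by
      obtain ⟨t1, ⟨l, t2⟩, -⟩ := hF (k + 1)
      rw [hW, ha1] at t2
      have t3 : (F (k + 1)).1 = S.inv b := by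
        have : ([] : List E) ++ [S.inv b, c] = l ++ [(F (k + 1)).1, c] := by simpa using t2
        exact (last_two this).1.symm
      rw [ha1, t3] at t1
      exact Prod.ext t3 (S.tri_uniq t1 hT)
    refine ⟨ν, ?_, ?_, ?_, ?_, ?_, ?_⟩
    · simp only [List.length_cons, ct, hν0, hν00]
      rw [show k + 1 + 1 = k + 2 by omega, hc.2, h1]
      simp; omega
    · intro _ h; rw [hν0] at h; exact absurd h (by decide)
    · intro i hi m1 m2
      rcases i with _ | _ | i
      · rw [Nat.add_zero, hν0] at m1; exact absurd m1 (by decide)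
      · -- positions k + 1, k + 2
        have hw : w ≠ [] := by
          rintro rfl
          simp at hi
        have e1 : k + (0 + 1) + 1 = k + 2 := by omega
        rw [e1] at m2 ⊢
        have m3 : μ (k + 2) = true := by
          have := hν1 0 (List.length_pos_iff.2 hw)
          rw [Nat.add_zero] at this
          rw [← this]; exact m2
        rcases h2 hw m3 with h | h
        · exact absurd h (by decide)
        · exact h
      · have e1 : k + (i + 1 + 1) = k + 2 + i := by omega
        have hi' : i + 1 < w.length := by simpa using hi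
        rw [e1] at m1 m2 ⊢
        refine h3 i hi' ?_ ?_
        · rw [← hν1 i (by omega)]; exact m1
        · rw [show k + 2 + i + 1 = k + 2 + (i + 1) by omega] at m2 ⊢
          rw [← hν1 (i + 1) (by omega)]; exact m2
    · intro _ m1
      by_cases hw : w = []
      · exact h5 hw
      · have hl : 1 ≤ w.length := List.length_pos_iff.2 hw
        apply h4 hw
        rw [← hν1 (w.length - 1) (by omega)]
        rw [List.length_cons, List.length_cons] at m1
        rw [show k + 2 + (w.length - 1) = k + (w.length + 1 + 1 - 1) by omega]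
        exact m1
    · intro h; exact absurd h (by simp)
    · intro l hl
      have e1 : rp F ν k (b :: c :: w) = b :: S.inv b :: h :: rp F μ (k + 2) w := by
        simp only [rp, hν0, hν00, hF1]
        rw [show k + 1 + 1 = k + 2 by omega, hc.1]
        simp
      rw [e1] at hl ⊢
      have h7 := hback l (h :: rp F μ (k + 2) w) b hl
      have h8 := Cl_back hl
      have h9 := h6 (l ++ [h]) (by simpa using h8)
      simp only [List.append_assoc, List.singleton_append] at h9
      exact ⟨h9.1.trans h7, h9.2⟩
  | @two p q k b c g m f w R n hp hW hT hT' hs ih =>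
    intro ha
    obtain ⟨μ, h1, h2, h3, h4, h5, h6⟩ := ih (fun i hi => by
      have := ha (i + 2) (by simpa using hi)
      rw [List.getElem_cons_succ, List.getElem_cons_succ] at this
      rw [← this]; congr 1; omega)
    have ha0 : a k = b := by
      have := ha 0 (by simp)
      simpa using this
    have ha1 : a (k + 1) = c := by
      have := ha 1 (by simp)
      simpa using this
    obtain ⟨ν, hν⟩ : ∃ ν : ℕ → Bool, ν = fun j => if j = k then true else if j = k + 1 then true
      else μ j := ⟨_, rfl⟩
    have hν0 : ν k = true := by simp [hν]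
    have hν00 : ν (k + 1) = true := by simp [hν]
    have hν1 : ∀ i < w.length, ν (k + 2 + i) = μ (k + 2 + i) := by
      intro i _
      rw [hν]; simp only; rw [if_neg (by omega), if_neg (by omega)]
    have hc := rp_congr F hν1
    have hF1 : F (k + 1) = (m, f) := by
      obtain ⟨t1, ⟨l, t2⟩, -⟩ := hF (k + 1)
      rw [hW, ha1] at t2
      have t3 : (F (k + 1)).1 = m := by
        have : [S.inv b] ++ [m, c] = l ++ [(F (k + 1)).1, c] := by simpa using t2
        exact (last_two this).1.symm
      rw [ha1, t3] at t1
      exact Prod.ext t3 (S.tri_uniq t1 hT')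
    have hF0 : F k = (g, S.inv m) := by
      obtain ⟨t1, -, ⟨r, t2⟩⟩ := hF k
      rw [hW, ha0] at t2
      have t3 : (F k).2 = S.inv m := by
        have h3 : m = S.inv (F k).2 := by
          simp only [List.cons.injEq, true_and] at t2
          exact t2.1
        rw [h3, S.inv_inv]
      rw [ha0, t3] at t1
      exact Prod.ext (tri_uniq1 t1 hT) t3
    refine ⟨ν, ?_, ?_, ?_, ?_, ?_, ?_⟩
    · simp only [List.length_cons, ct, hν0, hν00]
      rw [show k + 1 + 1 = k + 2 by omega, hc.2, h1]
      simp; omega
    · intro _ _; exact hp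
    · intro i hi m1 m2
      rcases i with _ | _ | i
      · rw [Nat.add_zero, hW]; simp
      · -- positions k + 1, k + 2
        have hw : w ≠ [] := by
          rintro rfl
          simp at hi
        have e1 : k + (0 + 1) + 1 = k + 2 := by omega
        rw [e1] at m2 ⊢
        have m3 : μ (k + 2) = true := by
          have := hν1 0 (List.length_pos_iff.2 hw)
          rw [Nat.add_zero] at this
          rw [← this]; exact m2
        rcases h2 hw m3 with h | h
        · exact absurd h (by decide)
        · exact h
      · have e1 : k + (i + 1 + 1) = k + 2 + i := by omega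
        have hi' : i + 1 < w.length := by simpa using hi
        rw [e1] at m1 m2 ⊢
        refine h3 i hi' ?_ ?_
        · rw [← hν1 i (by omega)]; exact m1
        · rw [show k + 2 + i + 1 = k + 2 + (i + 1) by omega] at m2 ⊢
          rw [← hν1 (i + 1) (by omega)]; exact m2
    · intro _ m1
      by_cases hw : w = []
      · exact h5 hw
      · have hl : 1 ≤ w.length := List.length_pos_iff.2 hw
        apply h4 hw
        rw [← hν1 (w.length - 1) (by omega)]
        rw [List.length_cons, List.length_cons] at m1
        rw [show k + 2 + (w.length - 1) = k + (w.length + 1 + 1 - 1) by omega]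
        exact m1
    · intro h; exact absurd h (by simp)
    · intro l hl
      have e1 : rp F ν k (b :: c :: w) = g :: S.inv m :: m :: f :: rp F μ (k + 2) w := by
        simp only [rp, hν0, hν00, hF1, hF0]
        rw [show k + 1 + 1 = k + 2 by omega, hc.1]
        simp
      rw [e1] at hl ⊢
      have hl' : S.Cl ((l ++ [g]) ++ S.inv m :: S.inv (S.inv m) :: (f :: rp F μ (k + 2) w)) := by
        simpa using hl
      have h7 := hback (l ++ [g]) (f :: rp F μ (k + 2) w) (S.inv m) hl'
      have h8 := Cl_back hl'
      have h9 := h6 (l ++ [g, f]) (by simpa using h8)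
      simp only [List.append_assoc, List.cons_append, List.nil_append, S.inv_inv] at h9 h7
      exact ⟨h9.1.trans h7, h9.2⟩

/-- Several surgeries at the same time. -/
theorem push_sur (M : Mods) (hSC : S.SC) {w : List E} {a : ℕ → E} {W : ℕ → List E}
    {I : List (List E)} (hB : Bd S w.length a W I) (ha : ∀ i (h : i < w.length), a i = w[i])
    (hM : MaskRed S w W) (hcl : S.Cl w) {p q : Bool} {R : List E} {n : ℕ}
    (h : Sur S W p 0 w R n q) (hpq : q = true → p = true) :
    S.ar R + n ≤ S.ar w ∧ S.Cl R := by
  by_cases hw : w = []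
  · subst hw
    cases h
    exact ⟨by simp, hcl⟩
  obtain ⟨F, hF⟩ := exists_FD hB
  obtain ⟨μ, h1, h2, h3, h4, h5, h6⟩ := sur_mask M hSC hF h (fun i hi => by rw [Nat.zero_add]; exact ha i hi)
  have hl : 1 ≤ w.length := List.length_pos_iff.2 hw
  have h7 := hM F μ (fun i hi _ => by
      rw [← ha i hi]
      exact ⟨(hF i).1, (hF i).2.1⟩)
    (fun i hi m1 m2 => by
      have := h3 i hi (by rwa [Nat.zero_add]) (by rwa [Nat.zero_add])
      rwa [Nat.zero_add] at this)
    (fun m1 m2 => by
      have h8 := h4 hw (by rwa [Nat.zero_add])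
      rcases h2 hw m2 with h9 | h9
      · rw [hpq h8] at h9
        exact absurd h9 (by decide)
      · exact h9)
  rw [h1] at h7
  -- the pushed word is closed
  have hclr : ∀ (v : List E) (k : ℕ) (x y : V), (∀ i (hi : i < v.length), a (k + i) = v[i]) →
      S.IsP x v y → S.IsP x (rp F μ k v) y := by
    intro v
    induction v with
    | nil => intro k x y _ h; exact h
    | cons b v ihv =>
      intro k x y hav hp
      have hb : a k = b := by
        have := hav 0 (by simp)
        simpa using this
      have hv := ihv (k + 1) (S.tgt b) y (fun i hi => by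
        have := hav (i + 1) (by simpa using hi)
        rw [List.getElem_cons_succ] at this
        rw [← this]; congr 1; omega) hp.2
      have hT := (hF k).1
      rw [hb] at hT
      by_cases hm : μ k = true
      · simp only [rp, hm, if_true, List.cons_append, List.nil_append]
        refine ⟨?_, ?_, ?_⟩
        · rw [Tri.src' hT]; exact hp.1
        · exact Tri.mid' hT
        · rw [Tri.tgt' hT]; exact hv
      · simp only [rp, hm, if_false, List.cons_append, List.nil_append]
        exact ⟨hp.1, hv⟩
  obtain ⟨x, hx⟩ := hcl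
  have h8 := hclr w 0 x x (fun i hi => by rw [Nat.zero_add]; exact ha i hi) hx
  have h9 := h6 [] ⟨x, by simpa using h8⟩
  simp only [List.nil_append] at h9
  exact ⟨by omega, h9.2⟩

theorem Sur.keepL {W : ℕ → List E} {q : Bool} {m w R : List E} {n : ℕ} : ∀ {k : ℕ},
    Sur S W false (k + m.length) w R n q → Sur S W false k (m ++ w) (m ++ R) n q := by
  induction m with
  | nil => intro k h; simpa using h
  | cons b m ih =>
    intro k h
    refine Sur.keep (ih ?_)
    rwa [List.length_cons, show k + (m.length + 1) = k + 1 + m.length by omega] at h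

theorem Sur.keepP {W : ℕ → List E} {p q : Bool} {m w R : List E} {n : ℕ} {k : ℕ} (hm : m ≠ [])
    (h : Sur S W false (k + m.length) w R n q) : Sur S W p k (m ++ w) (m ++ R) n q := by
  cases m with
  | nil => exact absurd rfl hm
  | cons b m =>
    refine Sur.keep (Sur.keepL ?_)
    rwa [List.length_cons, show k + (m.length + 1) = k + 1 + m.length by omega] at h

theorem Sur.rest {W : ℕ → List E} (p : Bool) (k : ℕ) (r : List E) :
    Sur S W p k r r 0 (if r = [] then p else false) := by
  cases r with
  | nil => simpa using Sur.nil p k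
  | cons b r =>
    have h := Sur.keepP (S := S) (W := W) (p := p) (m := b :: r) (k := k) (by simp)
      (Sur.nil false _)
    simpa using h

/-- The new letters at a site: the corner between `a` and `b` is `W'`. -/
inductive Rep (S : TG V E) (a b : E) (W' : List E) : List E → Prop
  | one {h : E} : W' = [S.inv a, b] → S.Tri b (S.inv a) h → Rep S a b W' [h]
  | two {g m f : E} : W' = [S.inv a, m, b] → S.Tri a g (S.inv m) → S.Tri b m f → Rep S a b W' [g, f]

theorem Rep.sur {W : ℕ → List E} {a b : E} {R w R' : List E} {k n : ℕ} {p q : Bool}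
    (h : Rep S a b (W (k + 1)) R) (hp : p = false ∨ (W k).length ≠ 2)
    (hs : Sur S W true (k + 2) w R' n q) :
    Sur S W p k (a :: b :: w) (R ++ R') (n + R.length) q := by
  cases h with
  | one h1 h2 => exact Sur.one h1 h2 hs
  | two h1 h2 h3 => exact Sur.two hp h1 h2 h3 hs

/-- Every corner with one or two corners of triangles gives a site. -/
theorem exists_rep {N : ℕ} {a : ℕ → E} {W : ℕ → List E} {I : List (List E)} (B : Bd S N a W I)
    (i : ℕ) (h : (W (i + 1)).length ≤ 3) :
    ∃ R, Rep S (a i) (a (i + 1)) (W (i + 1)) R ∧ R.length + 1 = (W (i + 1)).length := by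
  obtain ⟨f1, f2, l, r, hT, h1, h2⟩ := B.edg i
  obtain ⟨g1, g2, l', r', hT', h1', h2'⟩ := B.edg (i + 1)
  rw [h2] at h h1'
  rcases r with _ | ⟨x, _ | ⟨y, r⟩⟩
  · -- one corner
    have h3 : ([] : List E) ++ [S.inv (a i), S.inv f2] = l' ++ [g1, a (i + 1)] := by simpa using h1'
    obtain ⟨e1, e2⟩ := last_two h3
    refine ⟨[g2], ?_, by rw [h2]; rfl⟩
    refine Rep.one (by rw [h2, e2]) ?_
    rw [e1]; exact hT'
  · have h3 : [S.inv (a i)] ++ [S.inv f2, x] = l' ++ [g1, a (i + 1)] := by simpa using h1'
    obtain ⟨e1, e2⟩ := last_two h3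
    refine ⟨[f1, g2], ?_, by rw [h2]; rfl⟩
    refine Rep.two (m := g1) (by rw [h2, e1, e2]) ?_ hT'
    rw [← e1, S.inv_inv]; exact hT
  · simp only [List.length_cons] at h
    omega

section sites

variable (M : Mods) (hSC : S.SC) {w : List E} {a : ℕ → E} {W : ℕ → List E}
  {I : List (List E)} (hB : Bd S w.length a W I) (ha : ∀ i (h : i < w.length), a i = w[i])
  (hM : MaskRed S w W) (hcl : S.Cl w)

include M hSC hB ha hM hcl

/-- one site -/
theorem site1 {l r R : List E} {b c : E} (hw : w = l ++ b :: c :: r)
    (h : Rep S b c (W (l.length + 1)) R) (hlr : l ++ r ≠ [] ∨ (W 0).length ≠ 2) :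
    S.ar (l ++ R ++ r) + R.length ≤ S.ar w ∧ S.Cl (l ++ R ++ r) := by
  have hs := Sur.rest (S := S) (W := W) true (l.length + 2) r
  by_cases hl : l = []
  · subst hl
    have h1 : Sur S W (if r = [] then true else false) 0 w (R ++ r) (0 + R.length)
        (if r = [] then true else false) := by
      rw [hw]
      refine Rep.sur h ?_ hs
      by_cases hr : r = []
      · right
        rcases hlr with h | h
        · exact absurd (by simp [hr]) h
        · exact h
      · left; simp [hr]
    have h2 := push_sur M hSC hB ha hM hcl h1 id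
    simpa using h2
  · have h1 : Sur S W true 0 w (l ++ (R ++ r)) (0 + R.length)
        (if r = [] then true else false) := by
      rw [hw]
      refine Sur.keepP hl ?_
      rw [Nat.zero_add]
      exact Rep.sur h (Or.inl rfl) hs
    have h2 := push_sur M hSC hB ha hM hcl h1 (fun _ => rfl)
    simpa using h2

/-- two sites -/
theorem site2 {l m r R R' : List E} {b c b' c' : E} (hw : w = l ++ b :: c :: (m ++ b' :: c' :: r))
    (h : Rep S b c (W (l.length + 1)) R) (h' : Rep S b' c' (W (l.length + 2 + m.length + 1)) R')
    (hm : m ≠ [] ∨ (W (l.length + 2)).length ≠ 2)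
    (hlr : l ++ r ≠ [] ∨ (W 0).length ≠ 2) :
    S.ar (l ++ R ++ m ++ R' ++ r) + (R.length + R'.length) ≤ S.ar w ∧
      S.Cl (l ++ R ++ m ++ R' ++ r) := by
  have hs0 := Sur.rest (S := S) (W := W) true (l.length + 2 + m.length + 2) r
  have hs : Sur S W true (l.length + 2) (m ++ b' :: c' :: r) (m ++ (R' ++ r)) (0 + R'.length)
      (if r = [] then true else false) := by
    by_cases hm0 : m = []
    · subst hm0
      have h1 := Rep.sur (p := true) h' (by
        right
        rcases hm with h | h
        · exact absurd rfl h
        · simpa using h) hs0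
      simpa using h1
    · refine Sur.keepP hm0 ?_
      exact Rep.sur h' (Or.inl rfl) hs0
  by_cases hl : l = []
  · subst hl
    have h1 : Sur S W (if r = [] then true else false) 0 w (R ++ (m ++ (R' ++ r)))
        (0 + R'.length + R.length) (if r = [] then true else false) := by
      rw [hw]
      refine Rep.sur h ?_ hs
      by_cases hr : r = []
      · right
        rcases hlr with h | h
        · exact absurd (by simp [hr]) h
        · exact h
      · left; simp [hr]
    have h2 := push_sur M hSC hB ha hM hcl h1 id
    simp only [List.nil_append, List.append_assoc, Nat.zero_add] at h2 ⊢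
    rw [Nat.add_comm R.length]
    exact h2
  · have h1 : Sur S W true 0 w (l ++ (R ++ (m ++ (R' ++ r)))) (0 + R'.length + R.length)
        (if r = [] then true else false) := by
      rw [hw]
      refine Sur.keepP hl ?_
      rw [Nat.zero_add]
      exact Rep.sur h (Or.inl rfl) hs
    have h2 := push_sur M hSC hB ha hM hcl h1 (fun _ => rfl)
    simp only [List.append_assoc, Nat.zero_add] at h2 ⊢
    rw [Nat.add_comm R.length]
    exact h2

end sites

end Pool.Agent.ABA.B.H83
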