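import Pool.Agent.Helper83_ABA.PXAct

/-! # The triangle graph of P is simply connected -/

namespace Pool.Agent.ABA

open _root_.Pool.Agent.ABA.B Equiv

section general

variable {V E : Type} {S : TG V E}

theorem D_self {x y : V} {w : List E} (h : S.IsP x w y) : S.D x (w ++ S.rv w) 0 := by
  induction w generalizing x with
  | nil => exact TG.D.nil _
  | cons e w ih =>
    have h1 := ih h.2
    have hx : x = S.src e := h.1.symm
    subst hx
    have := TG.D.br h1 (TG.D.nil (S.src e))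
    simpa using this

theorem close_many (hClose : CloseStmt) {x : V} (β : List E) : ∀ (α γ : List E) (n : ℕ),
    S.D x (α ++ S.rv β ++ β ++ γ) n → ∃ m, S.D x (α ++ γ) m := by
  induction β with
  | nil => intro α γ n h; exact ⟨n, by simpa using h⟩
  | cons e β ih =>
    intro α γ n h
    have h1 : S.D x ((α ++ S.rv β) ++ S.inv e :: S.inv (S.inv e) :: (β ++ γ)) n := by
      simpa using h
    obtain ⟨m, -, hm⟩ := hClose V E S x _ _ _ n h1
    exact ih α γ m (by simpa using hm)

theorem D_pre {x y : V} {η δ : List E} (hη : S.IsP x η y) {n : ℕ}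
    (h : S.D y δ n) : S.D x (η ++ δ ++ S.rv η) n := by
  induction η generalizing x with
  | nil =>
    have hx : x = y := hη
    subst hx
    simpa using h
  | cons e η ih =>
    have h1 := ih hη.2
    have hx : x = S.src e := hη.1.symm
    subst hx
    have := TG.D.br h1 (TG.D.nil (S.src e))
    simpa using this

/-- homotopy of paths with a fixed starting point -/
def Hom (S : TG V E) (x : V) (γ γ' : List E) : Prop := ∃ n, S.D x (γ ++ S.rv γ') n

theorem Hom.refl' {x y : V} {γ : List E} (h : S.IsP x γ y) : Hom S x γ γ := ⟨0, D_self h⟩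

theorem Hom.symm' (hRev : RevStmt) {x : V} {γ γ' : List E} (h : Hom S x γ γ') : Hom S x γ' γ := by
  obtain ⟨n, h⟩ := h
  refine ⟨n, ?_⟩
  have := hRev V E S x _ n h
  simpa using this

theorem Hom.trans' (hClose : CloseStmt) {x : V} {γ γ' γ'' : List E} (h : Hom S x γ γ')
    (h' : Hom S x γ' γ'') : Hom S x γ γ'' := by
  obtain ⟨n, h⟩ := h
  obtain ⟨m, h'⟩ := h'
  have h1 := h.append h'
  have h2 : S.D x (γ ++ S.rv γ' ++ γ' ++ S.rv γ'') (n + m) := by simpa using h1
  exact close_many hClose γ' γ _ _ h2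

theorem Hom.pre {x y : V} {α β β' : List E} (hα : S.IsP x α y) (h : Hom S y β β') :
    Hom S x (α ++ β) (α ++ β') := by
  obtain ⟨n, h⟩ := h
  refine ⟨n, ?_⟩
  have := D_pre hα h
  simpa using this

theorem Hom.suf (hIns : InsStmt) {x y z : V} {β β' γ : List E} (hβ : S.IsP x β y)
    (hγ : S.IsP y γ z) (h : Hom S x β β') : Hom S x (β ++ γ) (β' ++ γ) := by
  obtain ⟨n, h⟩ := h
  refine ⟨n + 0, ?_⟩
  have := hIns V E S _ _ _ _ _ n 0 h hβ (D_self hγ)
  simpa using this

theorem Hom.tri {e e' e'' : E} (h : S.Tri e e' e'') : Hom S (S.src e) [e] [e', e''] := by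
  refine ⟨0 + 1, ?_⟩
  have h1 : S.IsP (S.src e) [e', e''] (S.tgt e'') := ⟨h.src', h.mid', rfl⟩
  have h2 := TG.D.tri h (by simpa using D_self h1)
  simpa using h2

end general

section

variable {G : Type} [Group G] {A B : Subgroup G} {g : G}
variable (hg : ¬ IsABA A B g) (hgeo : Geo A B) (hι : Function.Injective (Pι A B g))
  (hRev : RevStmt) (hClose : CloseStmt)

/-- paths from the base point -/
abbrev Pth : Type := {γ : List (XE A B g) // ∃ y, (XX hg hgeo hι).IsP (vx 1) γ y}

/-- homotopy classes of paths from the base point -/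
def pthS : Setoid (Pth hg hgeo hι) where
  r γ γ' := Hom (XX hg hgeo hι) (vx 1) γ.1 γ'.1
  iseqv :=
    { refl := fun γ => Hom.refl' γ.2.choose_spec
      symm := fun h => Hom.symm' hRev h
      trans := fun h h' => Hom.trans' hClose h h' }

/-- prefix a path with a translation -/
def prePth (x : PP A B g) (η : List (XE A B g)) (hη : (XX hg hgeo hι).IsP (vx 1) η (vx x))
    (γ : Pth hg hgeo hι) : Pth hg hgeo hι :=
  ⟨η ++ γ.1.map (actE x), by
    obtain ⟨y, hy⟩ := γ.2
    refine ⟨x • y, TG.isP_append.2 ⟨_, hη, ?_⟩⟩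
    have := IsP_act (hg := hg) (hgeo := hgeo) (hι := hι) x hy
    simpa using this⟩

theorem prePth_congr (x : PP A B g) (η : List (XE A B g))
    (hη : (XX hg hgeo hι).IsP (vx 1) η (vx x)) {γ γ' : Pth hg hgeo hι}
    (h : Hom (XX hg hgeo hι) (vx 1) γ.1 γ'.1) :
    Hom (XX hg hgeo hι) (vx 1) (prePth hg hgeo hι x η hη γ).1 (prePth hg hgeo hι x η hη γ').1 := by
  obtain ⟨n, h⟩ := h
  refine ⟨n, ?_⟩
  have h1 := D_act (hg := hg) (hgeo := hgeo) (hι := hι) x h
  rw [actV_vx, mul_one] at h1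
  have h2 := D_pre hη h1
  change (XX hg hgeo hι).D _ ((η ++ γ.1.map (actE x)) ++
    (XX hg hgeo hι).rv (η ++ γ'.1.map (actE x))) n
  rw [TG.rv_append, rv_act]
  simpa using h2

/-- the action of a generator on the classes -/
def preQ (x : PP A B g) (η : List (XE A B g)) (hη : (XX hg hgeo hι).IsP (vx 1) η (vx x)) :
    Quotient (pthS hg hgeo hι hRev hClose) → Quotient (pthS hg hgeo hι hRev hClose) :=
  Quotient.map' (prePth hg hgeo hι x η hη) (fun _ _ h => prePth_congr hg hgeo hι x η hη h)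

omit hRev hClose in
theorem isP_one_edge {x y : PP A B g} {e : XE A B g} (h1 : xsrc e = vx x)
    (h2 : xsrc (xinv e) = vx y) : (XX hg hgeo hι).IsP (vx x) [e] (vx y) := ⟨h1, h2⟩

omit hRev hClose in
theorem hom_back {x : XV A B g} {e e' : XE A B g} (h1 : xsrc e = x) (h2 : e' = xinv e) :
    Hom (XX hg hgeo hι) x [e, e'] [] := by
  subst h1; subst h2
  exact ⟨0, D_self (S := XX hg hgeo hι) (x := xsrc e) (w := [e]) (y := xsrc (xinv e)) ⟨rfl, rfl⟩⟩

theorem vx_ι (x : PP A B g) (h : G) : (vx (x * Pι A B g h) : XV A B g) = vx x :=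
  (vx_eq.2 ⟨h, rfl⟩).symm

theorem vx_ι1 (h : G) : (vx (Pι A B g h) : XV A B g) = vx 1 := by
  have := vx_ι (A := A) (B := B) (g := g) 1 h
  rwa [one_mul] at this

include hRev hClose

/-- two such maps agree if the prefixes are homotopic -/
theorem preQ_eq (hIns : InsStmt) {x y z : PP A B g} {η θ ζ : List (XE A B g)}
    (hη : (XX hg hgeo hι).IsP (vx 1) η (vx x)) (hθ : (XX hg hgeo hι).IsP (vx 1) θ (vx y))
    (hζ : (XX hg hgeo hι).IsP (vx 1) ζ (vx z)) (hz : x * y = z)
    (h : Hom (XX hg hgeo hι) (vx 1) (η ++ θ.map (actE x)) ζ)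
    (q : Quotient (pthS hg hgeo hι hRev hClose)) :
    preQ hg hgeo hι hRev hClose x η hη (preQ hg hgeo hι hRev hClose y θ hθ q) =
      preQ hg hgeo hι hRev hClose z ζ hζ q := by
  subst hz
  induction q using Quotient.inductionOn with
  | h γ =>
    apply Quotient.sound
    change Hom (XX hg hgeo hι) (vx 1) (η ++ (θ ++ γ.1.map (actE y)).map (actE x))
      (ζ ++ γ.1.map (actE (x * y)))
    obtain ⟨n, h⟩ := h
    obtain ⟨z, hz⟩ := γ.2
    have hz' := IsP_act (hg := hg) (hgeo := hgeo) (hι := hι) (x * y) hz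
    rw [actV_vx, mul_one] at hz'
    have hp : (XX hg hgeo hι).IsP (vx 1) (η ++ θ.map (actE x)) (vx (x * y)) := by
      refine TG.isP_append.2 ⟨_, hη, ?_⟩
      have := IsP_act (hg := hg) (hgeo := hgeo) (hι := hι) x hθ
      simpa using this
    have h1 := hIns _ _ (XX hg hgeo hι) _ _ _ _ _ n 0 h hp (D_self hz')
    refine ⟨n + 0, ?_⟩
    have e1 : η ++ (θ ++ γ.1.map (actE y)).map (actE x) =
        η ++ θ.map (actE x) ++ γ.1.map (actE (x * y)) := by
      rw [actE_mul, List.map_append, List.append_assoc, List.map_map]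
    rw [e1, TG.rv_append]
    simpa using h1

/-- the trivial prefix -/
theorem preQ_one (q : Quotient (pthS hg hgeo hι hRev hClose)) :
    preQ hg hgeo hι hRev hClose 1 [] rfl q = q := by
  induction q using Quotient.inductionOn with
  | h γ =>
    apply congrArg (Quotient.mk _)
    apply Subtype.ext
    change [] ++ γ.1.map (actE 1) = γ.1
    rw [actE_one, List.map_id, List.nil_append]

/-- generators act as permutations -/
def prePerm (hIns : InsStmt) (x : PP A B g) (η θ : List (XE A B g))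
    (hη : (XX hg hgeo hι).IsP (vx 1) η (vx x)) (hθ : (XX hg hgeo hι).IsP (vx 1) θ (vx x⁻¹))
    (h1 : Hom (XX hg hgeo hι) (vx 1) (η ++ θ.map (actE x)) [])
    (h2 : Hom (XX hg hgeo hι) (vx 1) (θ ++ η.map (actE x⁻¹)) []) :
    Equiv.Perm (Quotient (pthS hg hgeo hι hRev hClose)) where
  toFun := preQ hg hgeo hι hRev hClose x η hη
  invFun := preQ hg hgeo hι hRev hClose x⁻¹ θ hθ
  left_inv := fun q => by
    rw [preQ_eq hg hgeo hι hRev hClose hIns (z := 1) (ζ := []) hθ hη rfl (by simp) h2]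
    exact preQ_one hg hgeo hι hRev hClose q
  right_inv := fun q => by
    rw [preQ_eq hg hgeo hι hRev hClose hIns (z := 1) (ζ := []) hη hθ rfl (by simp) h1]
    exact preQ_one hg hgeo hι hRev hClose q

/-- the permutation of an element of G -/
def permG (hIns : InsStmt) (h : G) : Equiv.Perm (Quotient (pthS hg hgeo hι hRev hClose)) :=
  prePerm hg hgeo hι hRev hClose hIns (Pι A B g h) [] [] (vx_ι1 h).symm (by
    change vx 1 = _
    rw [← map_inv]; exact (vx_ι1 _).symm) ⟨0, TG.D.nil _⟩ ⟨0, TG.D.nil _⟩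

/-- the permutation of a direction -/
def permA (hIns : InsStmt) (m : Dr) : Equiv.Perm (Quotient (pthS hg hgeo hι hRev hClose)) :=
  prePerm hg hgeo hι hRev hClose hIns (trn A B g m) [eA m 1] [eA m.inv 1]
    (isP_one_edge hg hgeo hι rfl (by rw [xinv_eA, xsrc_eA, one_mul]))
    (isP_one_edge hg hgeo hι rfl (by rw [xinv_eA, xsrc_eA, one_mul, trn_inv]))
    (hom_back hg hgeo hι rfl (by simp))
    (hom_back hg hgeo hι rfl (by simp [trn_inv]))

/-- the permutation of c -/
def permC (hIns : InsStmt) (s : Bool) : Equiv.Perm (Quotient (pthS hg hgeo hι hRev hClose)) :=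
  prePerm hg hgeo hι hRev hClose hIns (trc A B g s) [eC s 1] [eC (!s) 1]
    (isP_one_edge hg hgeo hι rfl (by rw [xinv_eC, xsrc_eC, one_mul]))
    (isP_one_edge hg hgeo hι rfl (by rw [xinv_eC, xsrc_eC, one_mul, trc_inv]))
    (hom_back hg hgeo hι rfl (by simp))
    (hom_back hg hgeo hι rfl (by simp [trc_inv]))

/-- homomorphism property on G -/
def permGhom (hIns : InsStmt) : G →* Equiv.Perm (Quotient (pthS hg hgeo hι hRev hClose)) :=
  MonoidHom.mk' (permG hg hgeo hι hRev hClose hIns) (by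
    intro a b
    ext q
    change preQ hg hgeo hι hRev hClose _ [] _ q = preQ hg hgeo hι hRev hClose _ [] _
      (preQ hg hgeo hι hRev hClose _ [] _ q)
    rw [preQ_eq hg hgeo hι hRev hClose hIns (z := Pι A B g (a * b)) (ζ := []) _ _
      (vx_ι1 (a * b)).symm (by simp) ⟨0, TG.D.nil _⟩])

section rho

variable (hIns : InsStmt)

include hIns

theorem hom_uv : Hom (XX hg hgeo hι) (vx 1) [eA .V 1, eA .U (Pv A B g)]
    [eA .U 1, eA .V (Pu A B g)] := by
  have t1 : XT (eA .V (1 : PP A B g)) (eA .U 1) (eA .W (Pu A B g)) := by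
    have := XT.f1 (A := A) (B := B) (g := g) .U 1
    simpa [Dr.nxt, trn] using this
  have t2 : XT (eA .V (Pu A B g)) (eA .W (Pu A B g)) (eA .U (Pv A B g)) := by
    have := XT.f2 (A := A) (B := B) (g := g) .V (Pu A B g)
    have e1 : Pu A B g * (Pv A B g * (Pu A B g)⁻¹) = Pv A B g := by
      rw [← mul_assoc, P_uv, mul_inv_cancel_right]
    simp only [Dr.nxt, trn, Dr.inv, e1] at this
    exact this
  have h1 : Hom (XX hg hgeo hι) (vx 1) [eA .V 1] [eA .U 1, eA .W (Pu A B g)] :=
    Hom.tri (S := XX hg hgeo hι) t1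
  have h2 : Hom (XX hg hgeo hι) (vx (Pu A B g)) [eA .V (Pu A B g)]
      [eA .W (Pu A B g), eA .U (Pv A B g)] := Hom.tri (S := XX hg hgeo hι) t2
  have h3 : Hom (XX hg hgeo hι) (vx 1) ([eA .V 1] ++ [eA .U (Pv A B g)])
      ([eA .U 1, eA .W (Pu A B g)] ++ [eA .U (Pv A B g)]) := by
    refine Hom.suf hIns (y := vx (Pv A B g)) (z := vx (Pv A B g * Pu A B g)) ?_ ?_ h1
    · exact isP_one_edge hg hgeo hι rfl (by simp [trn])
    · exact isP_one_edge hg hgeo hι rfl (by simp [trn])
  have h4 : Hom (XX hg hgeo hι) (vx 1) ([eA .U 1] ++ [eA .W (Pu A B g), eA .U (Pv A B g)])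
      ([eA .U 1] ++ [eA .V (Pu A B g)]) := by
    refine Hom.pre (y := vx (Pu A B g)) ?_ (Hom.symm' hRev h2)
    exact isP_one_edge hg hgeo hι rfl (by simp [trn])
  exact Hom.trans' hClose h3 h4

theorem preQ_congr {x y : PP A B g} {η θ : List (XE A B g)} (hxy : x = y) (h : η = θ)
    (hη : (XX hg hgeo hι).IsP (vx 1) η (vx x)) (hθ : (XX hg hgeo hι).IsP (vx 1) θ (vx y))
    (q : Quotient (pthS hg hgeo hι hRev hClose)) :
    preQ hg hgeo hι hRev hClose x η hη q = preQ hg hgeo hι hRev hClose y θ hθ q := by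
  subst hxy; subst h; rfl

theorem isP_two {x y z : PP A B g} {e e' : XE A B g} (h1 : xsrc e = vx x)
    (h2 : xsrc e' = xsrc (xinv e)) (h3 : xsrc (xinv e') = vx z) :
    (XX hg hgeo hι).IsP (vx x) [e, e'] (vx z) := ⟨h1, h2, h3⟩

theorem rel_uv (q : Quotient (pthS hg hgeo hι hRev hClose)) :
    permA hg hgeo hι hRev hClose hIns .U (permA hg hgeo hι hRev hClose hIns .V q) =
    permA hg hgeo hι hRev hClose hIns .V (permA hg hgeo hι hRev hClose hIns .U q) := by
  have hz : (XX hg hgeo hι).IsP (vx 1) [eA .U 1, eA .V (Pu A B g)] (vx (Pu A B g * Pv A B g)) :=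
    ⟨rfl, by simp [XX, TG.tgt, trn], by simp [TG.IsP, XX, TG.tgt, trn]⟩
  refine (preQ_eq hg hgeo hι hRev hClose hIns (z := Pu A B g * Pv A B g)
        (ζ := [eA .U 1, eA .V (Pu A B g)]) _ _ hz rfl ?_ q).trans
      (preQ_eq hg hgeo hι hRev hClose hIns (z := Pu A B g * Pv A B g)
        (ζ := [eA .U 1, eA .V (Pu A B g)]) _ _ hz (P_uv A B g).symm ?_ q).symm
  · have := Hom.refl' hz
    simpa [trn] using this
  · have := hom_uv hg hgeo hι hRev hClose hIns
    simpa [trn] using this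

theorem rel_A (m : Dr) {a : G} (ha : a ∈ A) (q : Quotient (pthS hg hgeo hι hRev hClose)) :
    permA hg hgeo hι hRev hClose hIns m (permG hg hgeo hι hRev hClose hIns a q) =
    permG hg hgeo hι hRev hClose hIns a (permA hg hgeo hι hRev hClose hIns m q) := by
  have hz : (XX hg hgeo hι).IsP (vx 1) [eA m 1] (vx (trn A B g m * Pι A B g a)) := by
    rw [vx_ι]
    exact isP_one_edge hg hgeo hι rfl (by simp)
  refine (preQ_eq hg hgeo hι hRev hClose hIns (z := trn A B g m * Pι A B g a)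
        (ζ := [eA m 1]) _ _ hz rfl ?_ q).trans
      (preQ_eq hg hgeo hι hRev hClose hIns (z := trn A B g m * Pι A B g a)
        (ζ := [eA m 1]) _ _ hz (trn_comm A B g m ha).symm ?_ q).symm
  · have := Hom.refl' hz
    simpa using this
  · have := Hom.refl' hz
    have e1 : actE (Pι A B g a) (eA m 1) = eA m 1 := by
      rw [actE_eA, mul_one, eq_comm, eA_eq]
      exact ⟨rfl, a, ha, by rw [one_mul]⟩
    simpa [e1] using this

theorem rel_C (s : Bool) {b : G} (hb : b ∈ B) (q : Quotient (pthS hg hgeo hι hRev hClose)) :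
    permC hg hgeo hι hRev hClose hIns s (permG hg hgeo hι hRev hClose hIns b q) =
    permG hg hgeo hι hRev hClose hIns b (permC hg hgeo hι hRev hClose hIns s q) := by
  have hz : (XX hg hgeo hι).IsP (vx 1) [eC s 1] (vx (trc A B g s * Pι A B g b)) := by
    rw [vx_ι]
    exact isP_one_edge hg hgeo hι rfl (by simp)
  refine (preQ_eq hg hgeo hι hRev hClose hIns (z := trc A B g s * Pι A B g b)
        (ζ := [eC s 1]) _ _ hz rfl ?_ q).trans
      (preQ_eq hg hgeo hι hRev hClose hIns (z := trc A B g s * Pι A B g b)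
        (ζ := [eC s 1]) _ _ hz (trc_comm A B g s hb).symm ?_ q).symm
  · have := Hom.refl' hz
    simpa using this
  · have := Hom.refl' hz
    have e1 : actE (Pι A B g b) (eC s 1) = eC s 1 := by
      rw [actE_eC, mul_one, eq_comm, eC_eq]
      exact ⟨rfl, b, hb, by rw [one_mul]⟩
    simpa [e1] using this

theorem hom_T : Hom (XX hg hgeo hι) (vx 1) [eA .U 1, eC true (Pu A B g),
    eA .V (Pu A B g * Pc A B g)] [] := by
  have t1 : XT (eA .V' (Pι A B g g)) (eA .U 1) (eC true (Pu A B g)) := by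
    have := XT.o1 (A := A) (B := B) (g := g) 1
    simpa using this
  have h1 : Hom (XX hg hgeo hι) (vx 1) [eA .V' (Pι A B g g)] [eA .U 1, eC true (Pu A B g)] := by
    have := Hom.tri (S := XX hg hgeo hι) t1
    have e1 : (XX hg hgeo hι).src (eA .V' (Pι A B g g)) = vx 1 := vx_ι1 g
    rw [e1] at this
    exact this
  have h2 : Hom (XX hg hgeo hι) (vx 1) [eA .V' (Pι A B g g), eA .V (Pu A B g * Pc A B g)] [] := by
    refine hom_back hg hgeo hι (vx_ι1 g) ?_
    rw [xinv_eA]
    simp only [trn, Dr.inv]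
    rw [P_g2]
  refine Hom.trans' hClose ?_ h2
  refine Hom.suf hIns (β := [eA .U 1, eC true (Pu A B g)]) (β' := [eA .V' (Pι A B g g)])
    (γ := [eA .V (Pu A B g * Pc A B g)]) (y := vx (Pu A B g * Pc A B g))
    (z := vx (Pu A B g * Pc A B g * Pv A B g)) ?_ ?_ (Hom.symm' hRev h1)
  · exact ⟨rfl, by simp [XX, TG.tgt, trn], by simp [TG.IsP, XX, TG.tgt, trc]⟩
  · exact isP_one_edge hg hgeo hι rfl (by simp [trn])

theorem rel_g (q : Quotient (pthS hg hgeo hι hRev hClose)) :
    permG hg hgeo hι hRev hClose hIns g q =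
    permA hg hgeo hι hRev hClose hIns .U (permC hg hgeo hι hRev hClose hIns true
      (permA hg hgeo hι hRev hClose hIns .V q)) := by
  have hz : (XX hg hgeo hι).IsP (vx 1) [eA .U 1, eC true (Pu A B g)]
      (vx (Pu A B g * Pc A B g)) :=
    ⟨rfl, by simp [XX, TG.tgt, trn], by simp [TG.IsP, XX, TG.tgt, trc]⟩
  have hz' : (XX hg hgeo hι).IsP (vx 1) [] (vx (Pι A B g g)) := (vx_ι1 g).symm
  have hV : (XX hg hgeo hι).IsP (vx 1) [eA .V 1] (vx (Pv A B g)) :=
    isP_one_edge hg hgeo hι rfl (by simp [trn])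
  have h1 := preQ_eq hg hgeo hι hRev hClose hIns (x := Pu A B g) (y := Pc A B g)
    (z := Pu A B g * Pc A B g) (η := [eA .U 1]) (θ := [eC true 1])
    (ζ := [eA .U 1, eC true (Pu A B g)])
    (isP_one_edge hg hgeo hι rfl (by simp [trn])) (isP_one_edge hg hgeo hι rfl (by simp [trc]))
    hz rfl (by
      have := Hom.refl' hz
      simpa using this) (permA hg hgeo hι hRev hClose hIns .V q)
  refine Eq.trans ?_ h1.symm
  refine (preQ_eq hg hgeo hι hRev hClose hIns (x := Pu A B g * Pc A B g) (y := Pv A B g)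
    (z := Pι A B g g) (η := [eA .U 1, eC true (Pu A B g)]) (θ := [eA .V 1]) (ζ := [])
    hz hV hz' (P_g A B g).symm ?_ q).symm
  have := hom_T hg hgeo hι hRev hClose hIns
  simpa using this

/-- P acts on the homotopy classes -/
def rho : PP A B g →* Equiv.Perm (Quotient (pthS hg hgeo hι hRev hClose)) :=
  Plift A B g (permGhom hg hgeo hι hRev hClose hIns) (permA hg hgeo hι hRev hClose hIns .U)
    (permA hg hgeo hι hRev hClose hIns .V) (permC hg hgeo hι hRev hClose hIns true)
    (by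
      ext q
      exact rel_uv hg hgeo hι hRev hClose hIns q)
    (by
      intro a ha
      ext q
      exact rel_A hg hgeo hι hRev hClose hIns .U ha q)
    (by
      intro a ha
      ext q
      exact rel_A hg hgeo hι hRev hClose hIns .V ha q)
    (by
      intro b hb
      ext q
      exact rel_C hg hgeo hι hRev hClose hIns true hb q)
    (by
      ext q
      exact rel_g hg hgeo hι hRev hClose hIns q)

/-- the action of p is the prefixing with γ -/
def Gd (p : PP A B g) (γ : List (XE A B g)) : Prop :=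
  ∃ hγ : (XX hg hgeo hι).IsP (vx 1) γ (vx p), ∀ q,
    rho hg hgeo hι hRev hClose hIns p q = preQ hg hgeo hι hRev hClose p γ hγ q

theorem gd_one : Gd hg hgeo hι hRev hClose hIns 1 [] :=
  ⟨rfl, fun q => by
    rw [map_one, preQ_one]
    rfl⟩

theorem gd_mul {p x : PP A B g} {γ η : List (XE A B g)} (h1 : Gd hg hgeo hι hRev hClose hIns p γ)
    (h2 : Gd hg hgeo hι hRev hClose hIns x η) :
    Gd hg hgeo hι hRev hClose hIns (p * x) (γ ++ η.map (actE p)) := by
  obtain ⟨hγ, h1⟩ := h1
  obtain ⟨hη, h2⟩ := h2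
  have hz : (XX hg hgeo hι).IsP (vx 1) (γ ++ η.map (actE p)) (vx (p * x)) := by
    refine TG.isP_append.2 ⟨_, hγ, ?_⟩
    have := IsP_act (hg := hg) (hgeo := hgeo) (hι := hι) p hη
    simpa using this
  refine ⟨hz, fun q => ?_⟩
  rw [map_mul, Perm.mul_apply, h2, h1]
  exact preQ_eq hg hgeo hι hRev hClose hIns hγ hη hz rfl (Hom.refl' hz) q

theorem gd_G (h : G) : Gd hg hgeo hι hRev hClose hIns (Pι A B g h) [] :=
  ⟨(vx_ι1 h).symm, fun q => by
    rw [rho, Plift_ι]
    rfl⟩

theorem gd_U : Gd hg hgeo hι hRev hClose hIns (trn A B g .U) [eA .U 1] :=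
  ⟨isP_one_edge hg hgeo hι rfl (by simp), fun q => by
    change rho hg hgeo hι hRev hClose hIns (Pu A B g) q = _
    rw [rho, Plift_u]
    rfl⟩

theorem gd_V : Gd hg hgeo hι hRev hClose hIns (trn A B g .V) [eA .V 1] :=
  ⟨isP_one_edge hg hgeo hι rfl (by simp), fun q => by
    change rho hg hgeo hι hRev hClose hIns (Pv A B g) q = _
    rw [rho, Plift_v]
    rfl⟩

theorem gd_U' : Gd hg hgeo hι hRev hClose hIns (trn A B g .U') [eA .U' 1] :=
  ⟨isP_one_edge hg hgeo hι rfl (by simp), fun q => by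
    change rho hg hgeo hι hRev hClose hIns (Pu A B g)⁻¹ q = _
    rw [map_inv, rho, Plift_u]
    rfl⟩

theorem gd_V' : Gd hg hgeo hι hRev hClose hIns (trn A B g .V') [eA .V' 1] :=
  ⟨isP_one_edge hg hgeo hι rfl (by simp), fun q => by
    change rho hg hgeo hι hRev hClose hIns (Pv A B g)⁻¹ q = _
    rw [map_inv, rho, Plift_v]
    rfl⟩

theorem gd_C (s : Bool) : Gd hg hgeo hι hRev hClose hIns (trc A B g s) [eC s 1] := by
  refine ⟨isP_one_edge hg hgeo hι rfl (by simp), fun q => ?_⟩
  cases s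
  · change rho hg hgeo hι hRev hClose hIns (Pc A B g)⁻¹ q = _
    rw [map_inv, rho, Plift_c]
    rfl
  · change rho hg hgeo hι hRev hClose hIns (Pc A B g) q = _
    rw [rho, Plift_c]
    rfl

theorem gd_hom {p : PP A B g} {γ η : List (XE A B g)} (h1 : Gd hg hgeo hι hRev hClose hIns p γ)
    (hη : (XX hg hgeo hι).IsP (vx 1) η (vx p)) (h : Hom (XX hg hgeo hι) (vx 1) γ η) :
    Gd hg hgeo hι hRev hClose hIns p η := by
  obtain ⟨hγ, h1⟩ := h1
  refine ⟨hη, fun q => ?_⟩
  rw [h1]
  have := preQ_eq hg hgeo hι hRev hClose hIns (x := p) (y := 1) (z := p) (η := γ) (θ := [])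
    (ζ := η) hγ rfl hη (mul_one p) (by simpa using h) q
  rw [preQ_one] at this
  exact this

theorem gd_W : Gd hg hgeo hι hRev hClose hIns (trn A B g .W) [eA .W 1] := by
  have h1 := gd_mul hg hgeo hι hRev hClose hIns (gd_V hg hgeo hι hRev hClose hIns)
    (gd_U' hg hgeo hι hRev hClose hIns)
  refine gd_hom hg hgeo hι hRev hClose hIns h1 (isP_one_edge hg hgeo hι rfl (by simp)) ?_
  have t1 : XT (eA .W (1 : PP A B g)) (eA .V 1) (eA .U' (Pv A B g)) := by
    have := XT.f1 (A := A) (B := B) (g := g) .V 1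
    simpa [Dr.nxt, trn] using this
  have := Hom.symm' hRev (Hom.tri (S := XX hg hgeo hι) t1)
  have e1 : (XX hg hgeo hι).src (eA .W 1) = vx 1 := rfl
  rw [e1] at this
  simpa [trn] using this

theorem gd_W' : Gd hg hgeo hι hRev hClose hIns (trn A B g .W') [eA .W' 1] := by
  have h1 := gd_mul hg hgeo hι hRev hClose hIns (gd_U hg hgeo hι hRev hClose hIns)
    (gd_V' hg hgeo hι hRev hClose hIns)
  refine gd_hom hg hgeo hι hRev hClose hIns h1 (isP_one_edge hg hgeo hι rfl (by simp)) ?_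
  have t1 : XT (eA .W' (1 : PP A B g)) (eA .U 1) (eA .V' (Pu A B g)) := by
    have := XT.f2 (A := A) (B := B) (g := g) .W' 1
    simpa [Dr.nxt, Dr.inv, trn] using this
  have := Hom.symm' hRev (Hom.tri (S := XX hg hgeo hι) t1)
  have e1 : (XX hg hgeo hι).src (eA .W' 1) = vx 1 := rfl
  rw [e1] at this
  simpa [trn] using this

theorem gd_A (m : Dr) : Gd hg hgeo hι hRev hClose hIns (trn A B g m) [eA m 1] := by
  cases m
  · exact gd_U hg hgeo hι hRev hClose hIns
  · exact gd_V hg hgeo hι hRev hClose hIns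
  · exact gd_W hg hgeo hι hRev hClose hIns
  · exact gd_U' hg hgeo hι hRev hClose hIns
  · exact gd_V' hg hgeo hι hRev hClose hIns
  · exact gd_W' hg hgeo hι hRev hClose hIns

/-- every path from the base point is good -/
theorem gd_path (γ : List (XE A B g)) : ∀ y, (XX hg hgeo hι).IsP (vx 1) γ y →
    ∃ p, y = vx p ∧ Gd hg hgeo hι hRev hClose hIns p γ := by
  induction γ using List.reverseRecOn with
  | nil =>
    intro y hy
    exact ⟨1, hy.symm, gd_one hg hgeo hι hRev hClose hIns⟩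
  | append_singleton γ e ih =>
    intro y hy
    obtain ⟨z, hz, he1, he2⟩ := TG.isP_append.1 hy
    obtain ⟨p, rfl, hp⟩ := ih z hz
    rcases edge_at (A := A) (B := B) (g := g) (p := p) (e := e) he1 with ⟨m, h, rfl⟩ | ⟨s, h, rfl⟩
    · have h1 := gd_mul hg hgeo hι hRev hClose hIns
        (gd_mul hg hgeo hι hRev hClose hIns hp (gd_G hg hgeo hι hRev hClose hIns h))
        (gd_A hg hgeo hι hRev hClose hIns m)
      refine ⟨_, ?_, by simpa using h1⟩
      rw [← he2]
      rfl
    · have h1 := gd_mul hg hgeo hι hRev hClose hIns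
        (gd_mul hg hgeo hι hRev hClose hIns hp (gd_G hg hgeo hι hRev hClose hIns h))
        (gd_C hg hgeo hι hRev hClose hIns s)
      refine ⟨_, ?_, by simpa using h1⟩
      rw [← he2]
      rfl

/-- SIMPLE CONNECTIVITY of the triangle graph of P -/
theorem px_sc : (XX hg hgeo hι).SC := by
  have key : ∀ w, (XX hg hgeo hι).IsP (vx 1) w (vx 1) → ∃ n, (XX hg hgeo hι).D (vx 1) w n := by
    intro w hw
    obtain ⟨p, hp, hG⟩ := gd_path hg hgeo hι hRev hClose hIns w (vx 1) hw
    obtain ⟨h, rfl⟩ := vx_eq.1 hp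
    rw [one_mul] at hG
    obtain ⟨hγ, hgd⟩ := hG
    obtain ⟨hγ', hgd'⟩ := gd_G hg hgeo hι hRev hClose hIns h
    let q0 : Pth hg hgeo hι := ⟨[], vx 1, rfl⟩
    have h1 := (hgd (Quotient.mk _ q0)).symm.trans (hgd' (Quotient.mk _ q0))
    have h2 : Hom (XX hg hgeo hι) (vx 1) (w ++ ([] : List (XE A B g)).map (actE (Pι A B g h)))
      ([] ++ ([] : List (XE A B g)).map (actE (Pι A B g h))) := Quotient.exact h1
    obtain ⟨n, hn⟩ := h2
    exact ⟨n, by simpa using hn⟩
  intro x w hw
  induction x using QuotientGroup.induction_on with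
  | H p =>
    have h1 := IsP_act (hg := hg) (hgeo := hgeo) (hι := hι) p⁻¹ hw
    have e1 : p⁻¹ • (QuotientGroup.mk p : XV A B g) = vx 1 := by
      change vx (p⁻¹ * p) = vx 1
      rw [inv_mul_cancel]
    rw [e1] at h1
    obtain ⟨n, hn⟩ := key _ h1
    have h2 := D_act (hg := hg) (hgeo := hgeo) (hι := hι) p hn
    refine ⟨n, ?_⟩
    rw [List.map_map, ← actE_mul, mul_inv_cancel, actE_one, List.map_id, actV_vx, mul_one] at h2
    exact h2

end rho

end

end Pool.Agent.ABA
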