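import Pool.Agent.Helper83_ABA.Conj
import Pool.Agent.Helper89_ABA.Pres

namespace Pool.Agent.ABA

theorem lift_αP (L : Type) [AddCommGroup L] (R : Set (Wd L)) :
    Monoid.CoprodI.lift (αP L R) =
      QuotientGroup.mk' (Subgroup.normalClosure (ev (αF L) '' R)) := by
  refine Monoid.CoprodI.ext_hom _ _ (fun t => ?_)
  ext x
  simp [αP, αF]

/-- COMPLETENESS and SOUNDNESS for presented groups -/
theorem presStmt : PresStmt := by
  intro L _ R
  refine pres_of_ker ?_ ?_
  · rw [lift_αP]
    exact QuotientGroup.mk'_surjective _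
  · rw [lift_αP]
    exact QuotientGroup.ker_mk' _

end Pool.Agent.ABA
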