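import Pool.Agent.Helper83_ABA.Junk

open Equiv Equiv.Perm H17ABA

namespace Pool.Agent.ABA

section sums

variable {α β : Type}

/-- disjoint union of setoids -/
def sumS (r : Setoid α) (s : Setoid β) : Setoid (α ⊕ β) where
  r := fun a b => match a, b with
    | Sum.inl x, Sum.inl y => r x y
    | Sum.inr x, Sum.inr y => s x y
    | _, _ => False
  iseqv :=
    { refl := by rintro (x | x); exacts [r.refl' x, s.refl' x]
      symm := by
        rintro (x | x) (y | y) h
        · exact r.symm' h
        · exact h
        · exact h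
        · exact s.symm' h
      trans := by
        rintro (x | x) (y | y) (z | z) h h'
        · exact r.trans' h h'
        · exact h'
        · exact h.elim
        · exact h
        · exact h
        · exact h.elim
        · exact h'
        · exact s.trans' h h' }

theorem nc_sumS [Finite α] [Finite β] (r : Setoid α) (s : Setoid β) :
    nc (sumS r s) = nc r + nc s := by
  have e : Quotient (sumS r s) ≃ Quotient r ⊕ Quotient s :=
    { toFun := Quotient.lift (fun a => match a with
        | Sum.inl x => Sum.inl (Quotient.mk r x)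
        | Sum.inr x => Sum.inr (Quotient.mk s x)) (by
          rintro (x | x) (y | y) h
          · exact congrArg Sum.inl (Quotient.sound h)
          · exact h.elim
          · exact h.elim
          · exact congrArg Sum.inr (Quotient.sound h))
      invFun := Sum.elim
        (Quotient.lift (fun x => Quotient.mk (sumS r s) (Sum.inl x)) (fun x y h =>
          Quotient.sound (show (sumS r s) (Sum.inl x) (Sum.inl y) from h)))
        (Quotient.lift (fun x => Quotient.mk (sumS r s) (Sum.inr x)) (fun x y h =>
          Quotient.sound (show (sumS r s) (Sum.inr x) (Sum.inr y) from h)))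
      left_inv := by
        intro q
        induction q using Quotient.inductionOn with
        | h a => rcases a with x | x <;> rfl
      right_inv := by
        rintro (q | q)
        · induction q using Quotient.inductionOn with
          | h a => rfl
        · induction q using Quotient.inductionOn with
          | h a => rfl }
  rw [nc, nc, nc, Nat.card_congr e, Nat.card_sum]

theorem cs_sumCongr (a : Perm α) (b : Perm β) :
    cs (Perm.sumCongr a b) = sumS (cs a) (cs b) := by
  refine le_antisymm ?_ ?_
  · rw [cs_le_iff]
    rintro (x | x)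
    · exact cs_apply a x
    · exact cs_apply b x
  · have hl : ∀ (n : ℤ) (x : α), ((Perm.sumCongr a b) ^ n) (Sum.inl x) = Sum.inl ((a ^ n) x) := by
      intro n x
      have : (Perm.sumCongr a b) ^ n = Perm.sumCongr (a ^ n) (b ^ n) := by
        have := (Perm.sumCongrHom α β).map_zpow (a, b) n
        exact this.symm
      rw [this]; rfl
    have hr : ∀ (n : ℤ) (x : β), ((Perm.sumCongr a b) ^ n) (Sum.inr x) = Sum.inr ((b ^ n) x) := by
      intro n x
      have : (Perm.sumCongr a b) ^ n = Perm.sumCongr (a ^ n) (b ^ n) := by
        have := (Perm.sumCongrHom α β).map_zpow (a, b) n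
        exact this.symm
      rw [this]; rfl
    rintro (x | x) (y | y) h
    · obtain ⟨n, hn⟩ := (show SameCycle a x y from h)
      exact ⟨n, by rw [hl, hn]⟩
    · exact h.elim
    · exact h.elim
    · obtain ⟨n, hn⟩ := (show SameCycle b x y from h)
      exact ⟨n, by rw [hr, hn]⟩

theorem sumS_sup (r r' : Setoid α) (s s' : Setoid β) :
    sumS r s ⊔ sumS r' s' = sumS (r ⊔ r') (s ⊔ s') := by
  refine le_antisymm (sup_le ?_ ?_) ?_
  · rintro (x | x) (y | y) h
    · exact (le_sup_left : r ≤ r ⊔ r') h
    · exact h
    · exact h
    · exact (le_sup_left : s ≤ s ⊔ s') h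
  · rintro (x | x) (y | y) h
    · exact (le_sup_right : r' ≤ r ⊔ r') h
    · exact h
    · exact h
    · exact (le_sup_right : s' ≤ s ⊔ s') h
  · have h1 : r ⊔ r' ≤ (sumS r s ⊔ sumS r' s').comap Sum.inl := by
      refine sup_le ?_ ?_
      · intro x y h
        exact (le_sup_left : sumS r s ≤ sumS r s ⊔ sumS r' s')
          (show (sumS r s) (Sum.inl x) (Sum.inl y) from h)
      · intro x y h
        exact (le_sup_right : sumS r' s' ≤ sumS r s ⊔ sumS r' s')
          (show (sumS r' s') (Sum.inl x) (Sum.inl y) from h)
    have h2 : s ⊔ s' ≤ (sumS r s ⊔ sumS r' s').comap Sum.inr := by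
      refine sup_le ?_ ?_
      · intro x y h
        exact (le_sup_left : sumS r s ≤ sumS r s ⊔ sumS r' s')
          (show (sumS r s) (Sum.inr x) (Sum.inr y) from h)
      · intro x y h
        exact (le_sup_right : sumS r' s' ≤ sumS r s ⊔ sumS r' s')
          (show (sumS r' s') (Sum.inr x) (Sum.inr y) from h)
    rintro (x | x) (y | y) h
    · exact h1 h
    · exact h.elim
    · exact h.elim
    · exact h2 h

theorem planar_sum [Finite α] [Finite β] {a c : Perm α} {b d : Perm β} (h : Planar a c)
    (h' : Planar b d) : Planar (Perm.sumCongr a b) (Perm.sumCongr c d) := by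
  have h1 : cyc a + cyc c + cyc (a * c) = Nat.card α + 2 * nc (orb2 a c) := h
  have h2 : cyc b + cyc d + cyc (b * d) = Nat.card β + 2 * nc (orb2 b d) := h'
  have e1 : Perm.sumCongr a b * Perm.sumCongr c d = Perm.sumCongr (a * c) (b * d) := by
    ext (x | x) <;> rfl
  have e2 : orb2 (Perm.sumCongr a b) (Perm.sumCongr c d) = sumS (orb2 a c) (orb2 b d) := by
    rw [orb2, cs_sumCongr, cs_sumCongr, sumS_sup]; rfl
  have key : ∀ (a : Perm α) (b : Perm β), cyc (Perm.sumCongr a b) = cyc a + cyc b := by
    intro a b
    rw [cyc, cs_sumCongr, nc_sumS]; rfl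
  rw [Planar, e1, e2, key, key, key, nc_sumS, Nat.card_sum]
  omega

end sums

section disjoint

variable {L : Type} [AddCommGroup L] {Ω Ω' : Type} [Fintype Ω] [DecidableEq Ω] [Fintype Ω']
  [DecidableEq Ω'] {fs : List (List Ω)} {gs : List (List Ω')}

theorem formPerm_map_apply {α β : Type} [DecidableEq α] [DecidableEq β] (f : α → β)
    (hf : Function.Injective f) (d : List α) (x : α) :
    (d.map f).formPerm (f x) = f (d.formPerm x) := by
  induction d with
  | nil => simp
  | cons y d ih =>
    cases d with
    | nil => simp
    | cons z d =>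
      simp only [List.map_cons, List.formPerm_cons_cons, Perm.mul_apply] at ih ⊢
      rw [ih]
      by_cases h1 : (z :: d).formPerm x = y
      · rw [h1, swap_apply_left, swap_apply_left]
      · by_cases h2 : (z :: d).formPerm x = z
        · rw [h2, swap_apply_right, swap_apply_right]
        · rw [swap_apply_of_ne_of_ne h1 h2, swap_apply_of_ne_of_ne (fun h => h1 (hf h))
            (fun h => h2 (hf h))]

theorem facePerm_map_apply {α β : Type} [DecidableEq α] [DecidableEq β] (f : α → β)
    (hf : Function.Injective f) (fs : List (List α)) (x : α) :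
    facePerm (fs.map (List.map f)) (f x) = f (facePerm fs x) := by
  induction fs with
  | nil => rfl
  | cons d fs ih =>
    rw [List.map_cons, facePerm_cons, facePerm_cons, Perm.mul_apply, Perm.mul_apply, ih,
      formPerm_map_apply f hf]

theorem facePerm_app (fs gs : List (List Ω)) :
    facePerm (fs ++ gs) = facePerm fs * facePerm gs := by
  simp [facePerm]

theorem facePerm_sum (fs : List (List Ω)) (gs : List (List Ω')) :
    facePerm (fs.map (List.map (Sum.inl : Ω → Ω ⊕ Ω')) ++ gs.map (List.map Sum.inr)) =
      Perm.sumCongr (facePerm fs) (facePerm gs) := by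
  ext (x | x)
  · rw [facePerm_app, Perm.mul_apply]
    have h1 : facePerm (gs.map (List.map (Sum.inr : Ω' → Ω ⊕ Ω'))) (Sum.inl x) = Sum.inl x := by
      apply facePerm_apply_not_mem
      intro h
      obtain ⟨d, hd, hx⟩ := List.mem_flatten.1 h
      obtain ⟨e, -, rfl⟩ := List.mem_map.1 hd
      obtain ⟨y, -, hy⟩ := List.mem_map.1 hx
      exact absurd hy (by simp)
    rw [h1, facePerm_map_apply _ Sum.inl_injective]
    rfl
  · rw [facePerm_app, Perm.mul_apply, facePerm_map_apply _ Sum.inr_injective]
    apply facePerm_apply_not_mem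
    intro h
    obtain ⟨d, hd, hx⟩ := List.mem_flatten.1 h
    obtain ⟨e, -, rfl⟩ := List.mem_map.1 hd
    obtain ⟨y, -, hy⟩ := List.mem_map.1 hx
    exact absurd hy (by simp)

theorem clsSum_sumS {α β : Type} [Fintype α] [Fintype β] (r : Setoid α) (s : Setoid β)
    (f : α ⊕ β → L) :
    (∀ x, clsSum (sumS r s) f (Sum.inl x) = clsSum r (fun v => f (Sum.inl v)) x) ∧
    (∀ x, clsSum (sumS r s) f (Sum.inr x) = clsSum s (fun v => f (Sum.inr v)) x) := by
  classical
  constructor
  · intro x
    unfold clsSum
    rw [Finset.sum_filter, Finset.sum_filter, Fintype.sum_sum_type]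
    have h1 : ∀ y : β, ¬ (sumS r s) (Sum.inl x) (Sum.inr y) := fun y h => h
    have h2 : (∑ y : β, if (sumS r s) (Sum.inl x) (Sum.inr y) then f (Sum.inr y) else 0) = 0 :=
      Finset.sum_eq_zero (fun y _ => if_neg (h1 y))
    rw [h2, add_zero]
    rfl
  · intro x
    unfold clsSum
    rw [Finset.sum_filter, Finset.sum_filter, Fintype.sum_sum_type]
    have h1 : ∀ y : α, ¬ (sumS r s) (Sum.inr x) (Sum.inl y) := fun y h => h
    have h2 : (∑ y : α, if (sumS r s) (Sum.inr x) (Sum.inl y) then f (Sum.inl y) else 0) = 0 :=
      Finset.sum_eq_zero (fun y _ => if_neg (h1 y))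
    rw [h2, zero_add]
    rfl

/-- disjoint union of certificates -/
def FC.sum (D : FC L Ω fs) (E : FC L Ω' gs) :
    FC L (Ω ⊕ Ω') (fs.map (List.map Sum.inl) ++ gs.map (List.map Sum.inr)) where
  l := Perm.sumCongr D.l E.l
  lab := Sum.elim D.lab E.lab
  nodup := by
    rw [List.flatten_append, ← List.map_flatten, ← List.map_flatten]
    refine List.Nodup.append (D.nodup.map Sum.inl_injective) (E.nodup.map Sum.inr_injective) ?_
    intro x hx hy
    obtain ⟨a, -, rfl⟩ := List.mem_map.1 hx
    obtain ⟨b, -, hb⟩ := List.mem_map.1 hy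
    exact absurd hb (by simp)
  dead := by
    rw [List.flatten_append, ← List.map_flatten, ← List.map_flatten]
    rintro (x | x) hx
    · have : x ∉ fs.flatten := fun h => hx (List.mem_append_left _ (List.mem_map_of_mem h))
      exact congrArg Sum.inl (D.dead x this)
    · have : x ∉ gs.flatten := fun h => hx (List.mem_append_right _ (List.mem_map_of_mem h))
      exact congrArg Sum.inr (E.dead x this)
  ty_l := by
    rintro (x | x)
    · exact D.ty_l x
    · exact E.ty_l x
  sum_l := by
    rintro (x | x)
    · rw [cycSum_eq, cs_sumCongr, (clsSum_sumS _ _ _).1]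
      have := D.sum_l x
      rw [cycSum_eq] at this
      exact this
    · rw [cycSum_eq, cs_sumCongr, (clsSum_sumS _ _ _).2]
      have := E.sum_l x
      rw [cycSum_eq] at this
      exact this
  planar := by
    rw [facePerm_sum]
    have : (Perm.sumCongr D.l E.l)⁻¹ = Perm.sumCongr D.l⁻¹ E.l⁻¹ := by ext (x | x) <;> rfl
    rw [this]
    exact planar_sum D.planar E.planar

/-- join two faces in different components -/
def FC.join {x y : Ω} {xs ys : List Ω} (D : FC L Ω ((x :: xs) :: (y :: ys) :: fs))
    (h : ¬ (orb2 (facePerm ((x :: xs) :: (y :: ys) :: fs)) D.l⁻¹) x y) :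
    FC L Ω ((x :: xs ++ y :: ys) :: fs) where
  l := D.l
  lab := D.lab
  nodup := by
    have := D.nodup
    simpa [List.append_assoc] using this
  dead := fun w hw => D.dead w (by simpa [List.append_assoc, not_or, and_assoc] using hw)
  ty_l := D.ty_l
  sum_l := D.sum_l
  planar := by
    have hn : ((x :: xs ++ y :: ys) :: fs).flatten.Nodup := by
      have := D.nodup
      simpa [List.append_assoc] using this
    rw [facePerm_append hn]
    exact pl_join_s D.planar h

end disjoint

end Pool.Agent.ABA
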