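import Pool.Agent.Helper83_ABA.Geo4
import Pool.Agent.Helper52_ABB.E6Defs

/-!
# Module GEO in the form of E6Defs (MP_d857f1_al, part B)
-/

set_option autoImplicit false

namespace Pool.Agent.ABA.B.H83

open Knd Pool.Agent.ABA Pool.Agent.ABA.B Pool.Agent.ABA.B.TG Pool.Agent.ABA.B.H17

variable {G : Type} [Group G] {A B : Subgroup G} {g : G}
variable {hg : ¬ IsABA A B g} {hgeo : Geo A B} {hι : Function.Injective (Pι A B g)}

theorem h52_adj (M : Mods) (hSC : (XX hg hgeo hι).SC) (hA : ∀ x ∈ A, ∀ y ∈ A, x * y = y * x) :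
    H52.AdjStmt (A := A) (B := B) (g := g) :=
  ⟨fun e e' h1 h2 => (adj_ (hg := hg) (hgeo := hgeo) (hι := hι) M hSC hA).1 e e' h1 h2,
    fun Q e _ h1 h2 => (adj_ (hg := hg) (hgeo := hgeo) (hι := hι) M hSC hA).2 Q e h1 h2⟩

theorem h52_prj (M : Mods) (hSC : (XX hg hgeo hι).SC) (hA : ∀ x ∈ A, ∀ y ∈ A, x * y = y * x) :
    H52.PrjStmt hg hgeo hι :=
  fun Q x e e' hQ h1 h2 => proj_ (hg := hg) (hgeo := hgeo) (hι := hι) M hSC hA (On Q)
    (Tgt.pl Q hQ) x e e' h1 h2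

theorem h52_edge (M : Mods) (hSC : (XX hg hgeo hι).SC) (hA : ∀ x ∈ A, ∀ y ∈ A, x * y = y * x) :
    H52.EdgeStmt hg hgeo hι := by
  intro Q h hQ h1 h2
  obtain ⟨f, f', h3, h4, h5, -⟩ := edge_ (hg := hg) (hgeo := hgeo) (hι := hι) M hSC hA (On Q)
    (Tgt.pl Q hQ) h h1 h2
  exact ⟨f, f', h3, h4, h5⟩

theorem h52_nseg (M : Mods) (hSC : (XX hg hgeo hι).SC) (hA : ∀ x ∈ A, ∀ y ∈ A, x * y = y * x) :
    H52.NsegStmt hg hgeo hι := by
  intro c Q x x' n hc hQ hn hd hx hx' h1 h2 hne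
  obtain ⟨m, f, f', h3, h4, h5, -⟩ := nseg_ (hg := hg) (hgeo := hgeo) (hι := hι) M hSC hA c Q hc hQ
    (by rw [hd]; exact hn) x x' hx hx' hne (by rw [h1, hd]) (by rw [h2, hd])
  exact ⟨m, h5, h3, h4⟩

theorem h52_strip (M : Mods) (hSC : (XX hg hgeo hι).SC) (hA : ∀ x ∈ A, ∀ y ∈ A, x * y = y * x) :
    H52.StripStmt hg hgeo hι := by
  intro Q x y δ e' hQ hp hy hl hno he' hne hδ
  obtain ⟨e, δ', rfl⟩ := List.exists_cons_of_ne_nil hδ
  obtain ⟨h, h1, h2⟩ := stripPl_ (hg := hg) (hgeo := hgeo) (hι := hι) M hSC hA Q hQ x y e e' δ' hp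
    hy hl he' (by
      rintro rfl
      exact hne rfl) (fun l a b r n h3 h4 => hno l a b r h3 n h4.1 h4.2)
  exact ⟨_, h, List.getLast?_eq_some_getLast (List.cons_ne_nil e δ'), h2, h1⟩

end Pool.Agent.ABA.B.H83
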