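import Pool.Agent.Helper83_ABA.Cert

open Equiv Equiv.Perm H17ABA

namespace Pool.Agent.ABA

theorem perm_map_lift {α β : Type} (f : α → β) {F G : List β} (h : F.Perm G) :
    ∀ l : List α, l.map f = F → ∃ gs : List α, l.Perm gs ∧ gs.map f = G := by
  induction h with
  | nil =>
    intro l hl
    exact ⟨l, List.Perm.refl _, hl⟩
  | cons x _ ih =>
    intro l hl
    obtain ⟨a, l', rfl, rfl, rfl⟩ := List.map_eq_cons_iff.1 hl
    obtain ⟨gs, h1, h2⟩ := ih l' rfl
    exact ⟨a :: gs, h1.cons a, by rw [List.map_cons, h2]⟩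
  | swap x y l0 =>
    intro l hl
    obtain ⟨a, l', rfl, rfl, h1⟩ := List.map_eq_cons_iff.1 hl
    obtain ⟨b, l'', rfl, rfl, rfl⟩ := List.map_eq_cons_iff.1 h1
    exact ⟨b :: a :: l'', List.Perm.swap _ _ _, rfl⟩
  | trans _ _ ih1 ih2 =>
    intro l hl
    obtain ⟨gs, h1, h2⟩ := ih1 l hl
    obtain ⟨gs', h3, h4⟩ := ih2 gs h2
    exact ⟨gs', h1.trans h3, h4⟩

variable {L : Type} [AddCommGroup L]

theorem FC.cert {Ω : Type} [Fintype Ω] [DecidableEq Ω] {fs : List (List Ω)} (D : FC L Ω fs) :
    Cert (fs.map (fun c => c.map D.lab)) := ⟨Ω, _, _, fs, D, rfl⟩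

theorem Cert.perm {F G : List (Wd L)} (hC : Cert F) (h : F.Perm G) : Cert G := by
  obtain ⟨Ω, i1, i2, fs, D, rfl⟩ := hC
  obtain ⟨gs, h1, rfl⟩ := perm_map_lift _ h fs rfl
  exact ⟨Ω, i1, i2, gs, D.ofPerm h1, rfl⟩

theorem Cert.rot {F : List (Wd L)} {u v : Wd L} (hC : Cert (u :: F)) (h : u ~r v) :
    Cert (v :: F) := by
  obtain ⟨Ω, i1, i2, fs, D, hF⟩ := hC
  obtain ⟨d, fs', rfl, hd, rfl⟩ := List.map_eq_cons_iff.1 hF.symm
  obtain ⟨n, rfl⟩ := h
  refine ⟨Ω, i1, i2, _, D.rot (e := d.rotate n) ⟨n, rfl⟩, ?_⟩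
  rw [List.map_cons, ← hd, ← List.map_rotate]
  rfl

theorem Cert.dropNil {F : List (Wd L)} (hC : Cert ([] :: F)) : Cert F := by
  obtain ⟨Ω, i1, i2, fs, D, hF⟩ := hC
  obtain ⟨d, fs', rfl, hd, rfl⟩ := List.map_eq_cons_iff.1 hF.symm
  have : d = [] := by simpa using hd
  subst this
  exact ⟨Ω, i1, i2, _, D.dropNil, rfl⟩

theorem Cert.addNil {F : List (Wd L)} (hC : Cert F) : Cert ([] :: F) := by
  obtain ⟨Ω, i1, i2, fs, D, rfl⟩ := hC
  exact ⟨Ω, i1, i2, _, D.addNil, rfl⟩

theorem Cert.split {F : List (Wd L)} {u v : Wd L} (hC : Cert ((u ++ v) :: F)) :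
    Cert (u :: v :: F) := by
  rcases u with _ | ⟨s, u⟩
  · exact hC.addNil
  · rcases v with _ | ⟨t, v⟩
    · rw [List.append_nil] at hC
      exact (hC.addNil).perm (List.Perm.swap _ _ _)
    · obtain ⟨Ω, i1, i2, fs, D, hF⟩ := hC
      obtain ⟨d, fs', rfl, hd, rfl⟩ := List.map_eq_cons_iff.1 hF.symm
      obtain ⟨d1, d2, rfl, h1, h2⟩ := List.map_eq_append_iff.1 hd
      obtain ⟨x, xs, rfl, hx, hxs⟩ := List.map_eq_cons_iff.1 h1
      obtain ⟨y, ys, rfl, hy, hys⟩ := List.map_eq_cons_iff.1 h2
      refine ⟨Ω, i1, i2, _, D.faceSplit, ?_⟩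
      rw [List.map_cons, List.map_cons, ← h1, ← h2]
      rfl

theorem Cert.junk {F : List (Wd L)} {u : Wd L} (hC : Cert (u :: F)) (h : ev (αF L) u = 1) :
    Cert F := by
  obtain ⟨Ω, i1, i2, fs, D, hF⟩ := hC
  obtain ⟨d, fs', rfl, hd, rfl⟩ := List.map_eq_cons_iff.1 hF.symm
  obtain ⟨D', hD'⟩ := D.junk (d := d) (by rw [hd]; exact h)
  refine ⟨Ω, i1, i2, _, D', ?_⟩
  refine List.map_congr_left (fun c hc => List.map_congr_left (fun x hx => ?_))
  exact (hD' x (List.mem_flatten.2 ⟨c, hc, hx⟩)).symm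

theorem Cert.append {F G : List (Wd L)} (hC : Cert F) (hC' : Cert G) : Cert (F ++ G) := by
  obtain ⟨Ω, i1, i2, fs, D, rfl⟩ := hC
  obtain ⟨Ω', i1', i2', gs, E, rfl⟩ := hC'
  refine ⟨Ω ⊕ Ω', inferInstance, inferInstance, _, D.sum E, ?_⟩
  rw [List.map_append, List.map_map, List.map_map]
  congr 1
  · refine List.map_congr_left (fun c _ => ?_)
    simp only [Function.comp, List.map_map]
    rfl
  · refine List.map_congr_left (fun c _ => ?_)
    simp only [Function.comp, List.map_map]
    rfl

theorem Cert.join {F G : List (Wd L)} {u v : Wd L} (hC : Cert (u :: F)) (hC' : Cert (v :: G)) :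
    Cert ((u ++ v) :: (F ++ G)) := by
  rcases u with _ | ⟨s, u⟩
  · refine (hC.dropNil.append hC').perm ?_
    exact List.perm_middle
  · rcases v with _ | ⟨t, v⟩
    · have := hC.append hC'.dropNil
      rwa [List.append_nil]
    · obtain ⟨Ω, i1, i2, fs, D, hF⟩ := hC
      obtain ⟨d, fs', rfl, hd, rfl⟩ := List.map_eq_cons_iff.1 hF.symm
      obtain ⟨x, xs, rfl, hx, hxs⟩ := List.map_eq_cons_iff.1 hd
      obtain ⟨Ω', i1', i2', gs, E, hG⟩ := hC'
      obtain ⟨e, gs', rfl, he, rfl⟩ := List.map_eq_cons_iff.1 hG.symm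
      obtain ⟨y, ys, rfl, hy, hys⟩ := List.map_eq_cons_iff.1 he
      have hp : (((x :: xs) :: fs').map (List.map (Sum.inl : Ω → Ω ⊕ Ω')) ++
          ((y :: ys) :: gs').map (List.map Sum.inr)).Perm
          ((Sum.inl x :: xs.map Sum.inl) :: (Sum.inr y :: ys.map Sum.inr) ::
            (fs'.map (List.map Sum.inl) ++ gs'.map (List.map Sum.inr))) := by
        simp only [List.map_cons, List.cons_append]
        exact (List.perm_middle).cons _
      have hn : ¬ (orb2 (facePerm ((Sum.inl x :: xs.map Sum.inl) :: (Sum.inr y :: ys.map Sum.inr) ::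
            (fs'.map (List.map (Sum.inl : Ω → Ω ⊕ Ω')) ++ gs'.map (List.map Sum.inr))))
            ((D.sum E).ofPerm hp).l⁻¹) (Sum.inl x) (Sum.inr y) := by
        rw [← facePerm_perm hp (D.sum E).nodup]
        intro h
        rw [facePerm_sum] at h
        have e3 : ((D.sum E).ofPerm hp).l⁻¹ = Perm.sumCongr D.l⁻¹ E.l⁻¹ := by ext (x | x) <;> rfl
        rw [e3, orb2, cs_sumCongr, cs_sumCongr, sumS_sup] at h
        exact h
      refine ⟨Ω ⊕ Ω', inferInstance, inferInstance, _, ((D.sum E).ofPerm hp).join hn, ?_⟩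
      rw [List.map_cons, List.map_append, List.map_append, List.map_map, List.map_map]
      rw [← hd, ← he]
      congr 1
      · simp only [List.map_cons, List.map_map]
        rfl
      · congr 1
        · refine List.map_congr_left (fun c _ => ?_)
          simp only [Function.comp, List.map_map]
          rfl
        · refine List.map_congr_left (fun c _ => ?_)
          simp only [Function.comp, List.map_map]
          rfl

theorem Cert.nil : Cert ([] : List (Wd L)) :=
  ⟨Empty, inferInstance, inferInstance, [],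
    { l := 1
      lab := fun x => x.elim
      nodup := by simp
      dead := fun x => x.elim
      ty_l := fun x => x.elim
      sum_l := fun x => x.elim
      planar := by
        have h0 : ∀ r : Setoid Empty, nc r = 0 := by
          intro r
          rw [nc]
          have : IsEmpty (Quotient r) := ⟨fun q => (Quotient.out q).elim⟩
          exact Nat.card_of_isEmpty
        simp only [Planar, cyc, h0, Nat.card_of_isEmpty] }, rfl⟩

/-- two inverse syllables -/
theorem Cert.two (t : Bool) (x : L) : Cert [[(t, x), (t, -x)]] := by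
  have hpl : Planar (facePerm [[(0 : Fin 2)], [1]]) (swap (0 : Fin 2) 1)⁻¹ := by
    have h1 : facePerm [[(0 : Fin 2)], [1]] = 1 := by simp [facePerm]
    have hcs : cs (1 : Perm (Fin 2)) = ⊥ := by
      rw [eq_bot_iff, cs_le_iff]
      intro a
      exact (⊥ : Setoid (Fin 2)).refl' a
    have hncb : nc (⊥ : Setoid (Fin 2)) = 2 := by
      rw [nc]
      have : Nat.card (Quotient (⊥ : Setoid (Fin 2))) = Nat.card (Fin 2) :=
        Nat.card_congr Setoid.quotientBotEquiv
      rw [this, Nat.card_fin]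
    have h2 : Planar (1 : Perm (Fin 2)) (1 : Perm (Fin 2))⁻¹ := by
      have h3 : orb2 (1 : Perm (Fin 2)) 1 = ⊥ := by rw [orb2, hcs, sup_idem]
      rw [inv_one, Planar, mul_one, h3, hncb, cyc, hcs, hncb, Nat.card_fin]
    rw [h1]
    have h4 := pl_join_l h2 (u := (0 : Fin 2)) (v := 1) (by
      rw [inv_one, orb2, hcs, sup_idem]
      intro h
      have : (0 : Fin 2) = 1 := h
      exact absurd this (by decide))
    rw [mul_one] at h4
    exact h4
  let D : FC L (Fin 2) [[(0 : Fin 2)], [1]] :=
    { l := swap 0 1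
      lab := ![(t, x), (t, -x)]
      nodup := by decide
      dead := by
        intro w hw
        exfalso
        apply hw
        fin_cases w <;> simp
      ty_l := by
        intro w
        fin_cases w <;> simp
      sum_l := by
        intro w
        classical
        rw [cycSum_eq]
        unfold clsSum
        have hfull : ∀ a b : Fin 2, (cs (swap (0 : Fin 2) 1)) a b := by
          have h01 : (cs (swap (0 : Fin 2) 1)) 0 1 := by
            have := cs_apply (swap (0 : Fin 2) 1) 0
            rwa [swap_apply_left] at this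
          intro a b
          fin_cases a <;> fin_cases b
          · exact (cs _).refl' _
          · exact h01
          · exact (cs _).symm' h01
          · exact (cs _).refl' _
        have : (Finset.univ.filter (fun v => (cs (swap (0 : Fin 2) 1)) w v)) = Finset.univ :=
          Finset.filter_true_of_mem (fun v _ => hfull w v)
        rw [this]
        simp
      planar := hpl }
  let D2 := D.faceMerge (w := 0) (w' := 1) (x := 0) (xs := []) (ys := []) rfl (by
    change swap (0 : Fin 2) 1 0 = 1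
    exact swap_apply_left _ _)
  exact ⟨Fin 2, _, _, _, D2, rfl⟩

theorem Cert.mirror1 (w : Wd L) : Cert [w ++ winv w] := by
  induction w with
  | nil => exact Cert.nil.addNil
  | cons s w ih =>
    have h1 := ih.join (Cert.two s.1 (-s.2))
    rw [neg_neg] at h1
    refine h1.rot (v := s :: w ++ winv (s :: w)) ?_
    rw [winv_cons]
    refine ⟨(w ++ winv w ++ [(s.1, -s.2)]).length, ?_⟩
    have : w ++ winv w ++ [(s.1, -s.2), (s.1, s.2)] = (w ++ winv w ++ [(s.1, -s.2)]) ++ [s] := by
      simp
    rw [this, List.rotate_append_length_eq]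
    simp

theorem Cert.mirror (w : Wd L) : Cert [w, winv w] := (Cert.mirror1 w).split

theorem Cert.triv {w : Wd L} (h : ev (αF L) w = 1) : Cert [w] := by
  have h1 := (Cert.mirror w).perm (List.Perm.swap _ _ _)
  refine h1.junk ?_
  rw [ev_winv, h, inv_one]

/-- change of the representative -/
theorem Cert.congr {F : List (Wd L)} {u v : Wd L} (hC : Cert (u :: F))
    (h : ev (αF L) u = ev (αF L) v) : Cert (v :: F) := by
  have h1 : Cert [v ++ winv u] := Cert.triv (by rw [ev_append, ev_winv, h, mul_inv_cancel])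
  have h2 := h1.join hC
  rw [List.append_assoc] at h2
  have h3 := h2.split.perm (List.Perm.swap _ _ _)
  rw [List.nil_append] at h3
  exact h3.junk (by rw [ev_append, ev_winv, inv_mul_cancel])

/-- conjugation -/
theorem Cert.conj {F : List (Wd L)} {u : Wd L} (hC : Cert (u :: F)) (v : Wd L) :
    Cert ((v ++ u ++ winv v) :: F) := by
  have h1 : Cert ((u ++ (winv v ++ v)) :: F) := hC.congr (by
    rw [ev_append, ev_append, ev_winv, inv_mul_cancel, mul_one])
  refine h1.rot ?_
  refine ⟨(u ++ winv v).length, ?_⟩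
  rw [← List.append_assoc, List.rotate_append_length_eq, List.append_assoc]

/-- Completeness. -/
theorem complete (R : Set (Wd L)) (w : Wd L)
    (h : ev (αF L) w ∈ Subgroup.normalClosure (ev (αF L) '' R)) :
    ∃ Q : List (Wd L), (∀ q ∈ Q, Rel R q) ∧ Cert (w :: Q) := by
  have key : ∀ x ∈ Subgroup.normalClosure (ev (αF L) '' R), ∀ w : Wd L, ev (αF L) w = x →
      ∃ Q : List (Wd L), (∀ q ∈ Q, Rel R q) ∧ Cert (w :: Q) := by
    intro x hx
    have hsurj : ∀ y : FP L, ∃ v : Wd L, ev (αF L) v = y := by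
      intro y
      induction y using Monoid.CoprodI.induction_on with
      | one => exact ⟨[], rfl⟩
      | of i m =>
        refine ⟨[(i, Multiplicative.toAdd m)], ?_⟩
        rw [ev_cons, ev_nil, mul_one]
        rfl
      | mul a b ha hb =>
        obtain ⟨u, rfl⟩ := ha
        obtain ⟨v, rfl⟩ := hb
        exact ⟨u ++ v, ev_append _ _ _⟩
    refine Subgroup.closure_induction_left (p := fun x _ => ∀ w : Wd L, ev (αF L) w = x →
      ∃ Q : List (Wd L), (∀ q ∈ Q, Rel R q) ∧ Cert (w :: Q)) ?_ ?_ ?_ hx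
    · intro w hw
      exact ⟨[], by simp, Cert.triv hw⟩
    · intro x hx y hy ih w hw
      obtain ⟨r, hr, hrx⟩ := Group.mem_conjugatesOfSet_iff.1 hx
      obtain ⟨r, hrR, rfl⟩ := hr
      obtain ⟨b, hb⟩ := isConj_iff.1 hrx
      obtain ⟨v, rfl⟩ := hsurj b
      obtain ⟨y', rfl⟩ := hsurj y
      obtain ⟨Q, hQ, hC⟩ := ih y' rfl
      have h1 := ((Cert.mirror r).conj v).join hC
      refine ⟨[winv r] ++ Q, ?_, ?_⟩
      · intro q hq
        rcases List.mem_append.1 hq with hq | hq
        · rw [List.mem_singleton.1 hq]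
          right
          rw [winv_winv]
          exact hrR
        · exact hQ q hq
      · refine h1.congr ?_
        rw [hw, ev_append, ev_append, ev_append, ev_winv, hb]
    · intro x hx y hy ih w hw
      obtain ⟨r, hr, hrx⟩ := Group.mem_conjugatesOfSet_iff.1 hx
      obtain ⟨r, hrR, rfl⟩ := hr
      obtain ⟨b, hb⟩ := isConj_iff.1 hrx
      obtain ⟨v, rfl⟩ := hsurj b
      obtain ⟨y', rfl⟩ := hsurj y
      obtain ⟨Q, hQ, hC⟩ := ih y' rfl
      have h1 := ((((Cert.mirror r).perm (List.Perm.swap _ _ _))).conj v).join hC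
      refine ⟨[r] ++ Q, ?_, ?_⟩
      · intro q hq
        rcases List.mem_append.1 hq with hq | hq
        · rw [List.mem_singleton.1 hq]
          left
          exact hrR
        · exact hQ q hq
      · refine h1.congr ?_
        rw [hw, ev_append, ev_append, ev_append, ev_winv, ev_winv, ← hb]
        group
  exact key _ h w rfl

/-- a family with two words which are conjugate to inverses of each other modulo the relators -/
theorem Cert.conj_pair {F : List (Wd L)} {w v y : Wd L}
    (hC : Cert ((w ++ (y ++ v ++ winv y)) :: F)) : Cert (w :: v :: F) := by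
  have h1 := hC.split.perm (List.Perm.swap _ _ _)
  have h2 : Cert ((v ++ (winv y ++ y)) :: w :: F) := by
    refine h1.rot ?_
    refine ⟨y.length, ?_⟩
    rw [List.append_assoc, List.rotate_append_length_eq, List.append_assoc]
  have h3 : Cert (v :: w :: F) := by
    refine h2.congr ?_
    rw [ev_append, ev_append, ev_winv, inv_mul_cancel, mul_one]
  exact h3.perm (List.Perm.swap _ _ _)

end Pool.Agent.ABA
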