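import Pool.Agent.Helper83_ABA.Conj
import Pool.Agent.Helper83_ABA.Coarse

open Equiv Equiv.Perm H17ABA

namespace Pool.Agent.ABA

section cyc

variable {Ω L : Type} [Fintype Ω] [AddCommGroup L]

theorem clsSum_list {r : Setoid Ω} {f : Ω → L} {u : Ω} {c : List Ω} (hn : c.Nodup)
    (hc : ∀ x, r u x ↔ x ∈ c) : clsSum r f u = (c.map f).sum := by
  classical
  unfold clsSum
  have : Finset.univ.filter (fun v => r u v) = c.toFinset := by
    ext x
    simp [hc]
  rw [this, List.sum_toFinset f hn]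

/-- the cycle cut off by splitting the line between w and w' = π ^ n w -/
theorem cyc_cut [DecidableEq Ω] (π : Perm Ω) (w w' : Ω) (n : ℕ) (hn : 2 ≤ n)
    (hw' : (π ^ n) w = w') (hj : ∀ j, 0 < j → j < n → (π ^ j) w ≠ w ∧ (π ^ j) w ≠ w') (f : Ω → L) :
    cycSum (swap (π w) w' * π) f (π w) = ((List.range (n - 1)).map (fun j => f ((π ^ (j + 1)) w))).sum := by
  have hmm : ((List.range (n - 1)).map (fun j => f ((π ^ (j + 1)) w))) =
      ((List.range (n - 1)).map (fun j => (π ^ (j + 1)) w)).map f := by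
    rw [List.map_map]
    rfl
  rw [hmm, cycSum_eq]
  have hinj : ∀ i j, i < j → j < n - 1 → (π ^ (i + 1)) w ≠ (π ^ (j + 1)) w := by
    intro i j hij hjn h
    have h1 : (π ^ (j - i)) w = w := by
      have h2 : (π ^ (j + 1)) w = (π ^ (i + 1)) ((π ^ (j - i)) w) := by
        rw [← Perm.mul_apply, ← pow_add]
        congr 2
        omega
      rw [h2] at h
      exact ((π ^ (i + 1)).injective h).symm
    exact (hj (j - i) (by omega) (by omega)).1 h1
  -- step of the new permutation
  have hstep : ∀ j, j + 1 < n - 1 → (swap (π w) w' * π) ((π ^ (j + 1)) w) = (π ^ (j + 2)) w := by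
    intro j hjn
    have h1 : π ((π ^ (j + 1)) w) = (π ^ (j + 2)) w := by
      rw [← Perm.mul_apply, ← pow_succ']
    rw [Perm.mul_apply, h1]
    refine swap_apply_of_ne_of_ne ?_ (hj (j + 2) (by omega) (by omega)).2
    have := hinj 0 (j + 1) (by omega) (by omega)
    simpa using this.symm
  have hlast : (swap (π w) w' * π) ((π ^ (n - 1)) w) = π w := by
    have h1 : π ((π ^ (n - 1)) w) = w' := by
      rw [← Perm.mul_apply, ← pow_succ', ← hw']
      congr 2
      omega
    rw [Perm.mul_apply, h1, swap_apply_right]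
  refine clsSum_list ?_ ?_
  · refine List.Nodup.map_on ?_ List.nodup_range
    intro i hi j hj' h
    rw [List.mem_range] at hi hj'
    rcases lt_trichotomy i j with h1 | h1 | h1
    · exact absurd h (hinj i j h1 hj')
    · exact h1
    · exact absurd h.symm (hinj j i h1 hi)
  · intro x
    constructor
    · intro hx
      refine closed_cycle (swap (π w) w' * π) {x | x ∈ (List.range (n - 1)).map (fun j => (π ^ (j + 1)) w)}
        ?_ ?_ hx
      · intro y hy
        obtain ⟨j, hj', rfl⟩ := List.mem_map.1 hy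
        rw [List.mem_range] at hj'
        by_cases h : j + 1 < n - 1
        · rw [hstep j h]
          exact List.mem_map.2 ⟨j + 1, List.mem_range.2 h, rfl⟩
        · have h1 : j + 1 = n - 1 := by omega
          rw [h1, hlast]
          exact List.mem_map.2 ⟨0, List.mem_range.2 (by omega), by simp⟩
      · exact List.mem_map.2 ⟨0, List.mem_range.2 (by omega), by simp⟩
    · intro hx
      obtain ⟨j, hj', rfl⟩ := List.mem_map.1 hx
      rw [List.mem_range] at hj'
      clear hx
      induction j with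
      | zero =>
        simp only [zero_add, pow_one]
        exact (cs _).refl' _
      | succ j ih =>
        have h1 := ih (by omega)
        rw [← hstep j hj']
        exact (cs _).trans' h1 (cs_apply _ _)

end cyc

variable {L : Type} [AddCommGroup L] {Ω : Type} [Fintype Ω] [DecidableEq Ω]
  {fs : List (List Ω)}

/-- M1: cancellation of two inverse faces -/
theorem FC.cancel {c1 d2 : List Ω} {w w' : Ω} (D : FC L Ω ((c1 ++ [w]) :: (w' :: d2) :: fs))
    (n : ℕ) (hn : 0 < n) (hw' : (D.l ^ n) w = w')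
    (hj : ∀ j, 0 < j → j < n → (D.l ^ j) w ≠ w ∧ (D.l ^ j) w ≠ w')
    (hsum : ((btw D.l D.lab w n).map Prod.snd).sum = 0)
    (hev : ev (αF L) (((c1 ++ [w]) ++ (w' :: d2)).map D.lab) = 1) :
    ∃ D' : FC L Ω fs, ∀ x ∈ fs.flatten, D'.lab x = D.lab x := by
  obtain ⟨D1, h1, h2⟩ : ∃ D1 : FC L Ω ((c1 ++ [w]) :: (w' :: d2) :: fs), D1.lab = D.lab ∧
      D1.l w = w' := by
    by_cases hn1 : n = 1
    · subst hn1
      exact ⟨D, rfl, by simpa using hw'⟩
    · have hsame : SameCycle D.l (D.l w) w' := by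
        have h1 : SameCycle D.l w w' := ⟨n, by rw [zpow_natCast]; exact hw'⟩
        exact (cs D.l).trans' ((cs D.l).symm' (cs_apply D.l w)) h1
      have hs : cycSum (swap (D.l w) w' * D.l) (fun v => (D.lab v).2) (D.l w) = 0 := by
        rw [cyc_cut D.l w w' n (by omega) hw' hj]
        rw [← hsum, btw, List.map_map]
        rfl
      refine ⟨D.lineSplit hsame hs, rfl, ?_⟩
      change (swap (D.l w) w' * D.l) w = w'
      rw [Perm.mul_apply, swap_apply_left]
  obtain ⟨D2, h3, -⟩ := FC.absorb (c1 := c1) (c2 := []) (d1 := []) (d2 := d2) D1 h2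
  obtain ⟨D3, h4⟩ := D2.junk (by
    rw [h3, h1]
    have : c1 ++ w :: (w' :: (d2 ++ []) ++ []) = (c1 ++ [w]) ++ (w' :: d2) := by simp
    rw [this]
    exact hev)
  refine ⟨D3, fun x hx => ?_⟩
  rw [h4 x hx, h3, h1]

/-- M1 with faces in arbitrary position -/
theorem FC.cancel' {c1 c2 d1 d2 : List Ω} {w w' : Ω}
    (D : FC L Ω ((c1 ++ w :: c2) :: (d1 ++ w' :: d2) :: fs))
    (n : ℕ) (hn : 0 < n) (hw' : (D.l ^ n) w = w')
    (hj : ∀ j, 0 < j → j < n → (D.l ^ j) w ≠ w ∧ (D.l ^ j) w ≠ w')
    (hsum : ((btw D.l D.lab w n).map Prod.snd).sum = 0)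
    (hev : ev (αF L) (((c2 ++ c1 ++ [w]) ++ (w' :: (d2 ++ d1))).map D.lab) = 1) :
    ∃ D' : FC L Ω fs, ∀ x ∈ fs.flatten, D'.lab x = D.lab x := by
  let D1 := D.rot (e := (c2 ++ c1) ++ [w]) (by
    refine ⟨(c1 ++ [w]).length, ?_⟩
    have : c1 ++ w :: c2 = (c1 ++ [w]) ++ c2 := by simp
    rw [this, List.rotate_append_length_eq, ← List.append_assoc])
  let D2 := (D1.ofPerm (List.Perm.swap _ _ _)).rot (e := w' :: (d2 ++ d1)) (by
    refine ⟨d1.length, ?_⟩
    rw [List.rotate_append_length_eq]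
    rfl)
  let D3 := D2.ofPerm (List.Perm.swap _ _ _)
  exact FC.cancel D3 n hn hw' hj hsum hev

end Pool.Agent.ABA
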