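import Mathlib
import Pool.Agent.Helper17_ABA.Perm
import Pool.Agent.Helper89_ABA.Defs

/-!
# Planar certificates over a free product A * B (two one-parameter groups with labels in L)

MP_d857f1_al, Part I (see ABA_part1.md).
-/

open Equiv Equiv.Perm H17ABA

namespace Pool.Agent.ABA

/-- Words: lists of syllables (type, label); type true = A, type false = B. -/
abbrev Wd (L : Type) := List (Bool × L)

/-- Inverse word. -/
def winv {L : Type} [Neg L] (w : Wd L) : Wd L := (w.map (fun s => (s.1, -s.2))).reverse

/-- The face permutation of a list of cyclic faces. -/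
def facePerm {Ω : Type} [DecidableEq Ω] (fs : List (List Ω)) : Perm Ω :=
  (fs.map List.formPerm).prod

/-- Sum of a function over the cycle of w. -/
noncomputable def cycSum {Ω L : Type} [Fintype Ω] [AddCommGroup L] (π : Perm Ω) (f : Ω → L)
    (w : Ω) : L := by
  classical
  exact ∑ v ∈ Finset.univ.filter (fun v => π.SameCycle w v), f v

/-- A fine certificate with faces fs (lists of syllable positions) and lines l. -/
structure FC (L : Type) [AddCommGroup L] (Ω : Type) [Fintype Ω] [DecidableEq Ω]
    (fs : List (List Ω)) where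
  l : Perm Ω
  lab : Ω → Bool × L
  nodup : fs.flatten.Nodup
  dead : ∀ w, w ∉ fs.flatten → l w = w
  ty_l : ∀ w, (lab (l w)).1 = (lab w).1
  sum_l : ∀ w, cycSum l (fun v => (lab v).2) w = 0
  planar : Planar (facePerm fs) l⁻¹

/-- The family F of cyclic words has a planar certificate. -/
def Cert {L : Type} [AddCommGroup L] (F : List (Wd L)) : Prop :=
  ∃ (Ω : Type) (_ : Fintype Ω) (_ : DecidableEq Ω) (fs : List (List Ω)) (D : FC L Ω fs),
    F = fs.map (fun c => c.map D.lab)

/-- q is a relator of R or the inverse of one. -/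
def Rel {L : Type} [Neg L] (R : Set (Wd L)) (q : Wd L) : Prop := q ∈ R ∨ winv q ∈ R

/-- Linear inequality for planar families with constant K. -/
def LFwith {L : Type} [AddCommGroup L] (K : ℕ) (R : Set (Wd L)) : Prop :=
  ∀ F : List (Wd L), (∀ w ∈ F, w ≠ []) → ∀ Q : List (Wd L), (∀ q ∈ Q, Rel R q) →
    Cert (F ++ Q) → ∃ Q' : List (Wd L), (∀ q ∈ Q', Rel R q) ∧
      Q'.length ≤ K * (F.map List.length).sum ∧ Cert (F ++ Q')

/-- Property LF. -/
def LF {L : Type} [AddCommGroup L] (R : Set (Wd L)) : Prop := ∃ K, LFwith K R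

section groups

variable {L : Type} [AddCommGroup L] {Γ : Type} [Group Γ]

/-- Value of a word. -/
def ev (α : Bool → Multiplicative L →* Γ) (w : Wd L) : Γ :=
  (w.map (fun s => α s.1 (Multiplicative.ofAdd s.2))).prod

/-- The power a^k resp. b^k. -/
def pw (α : Bool → Multiplicative L →* Γ) (t : Bool) (k : L) : Γ := α t (Multiplicative.ofAdd k)

/-- R is a set of defining relators (in the sense of certificates). -/
def Pres (α : Bool → Multiplicative L →* Γ) (R : Set (Wd L)) : Prop :=
  (∀ x : Γ, ∃ w : Wd L, ev α w = x) ∧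
  ∀ w : Wd L, ev α w = 1 ↔ ∃ Q : List (Wd L), (∀ q ∈ Q, Rel R q) ∧ Cert (w :: Q)

end groups

/-- The new relator a^x b^y a^z g⁻¹. -/
def Tw {L : Type} [Neg L] (g : Wd L) (x y z : L) : Wd L :=
  [(true, x), (false, y), (true, z)] ++ winv g

end Pool.Agent.ABA
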