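import Pool.Agent.Helper17_ABA.PR2

/-!
The field EL for P: the elliptic case, degrees.
-/

set_option autoImplicit false

namespace Pool.Agent.ABA.B.H83

open Pool.Agent.ABA Pool.Agent.ABA.B Pool.Agent.ABA.B.TG Pool.Agent.ABA.B.H17

section

variable {G : Type} [Group G] {A B : Subgroup G} {g : G}
variable {hg : ¬ IsABA A B g} {hgeo : Geo A B} {hι : Function.Injective (Pι A B g)}

theorem PA_comm_eq (hA : ∀ x ∈ A, ∀ y ∈ A, x * y = y * x) {q : PP A B g} (hq : q ∈ PA A B g)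
    {a : G} (ha : a ∈ A) : Pι A B g a * q = q * Pι A B g a := by
  obtain ⟨i, j, a0, ha0, rfl⟩ := (mem_PA_iff q).1 hq
  have hu : Commute (Pu A B g) (Pι A B g a) := P_ua A B g ha
  have hv : Commute (Pv A B g) (Pι A B g a) := P_va A B g ha
  have h2 : Commute (Pι A B g a) (Pu A B g ^ i * Pv A B g ^ j) :=
    (hu.symm.zpow_right i).mul_right (hv.symm.zpow_right j)
  have h3 : Commute (Pι A B g a) (Pι A B g a0) := by
    change _ * _ = _ * _
    rw [← map_mul, ← map_mul, hA a ha a0 ha0]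
  exact (h2.mul_right h3).eq

/-- the elliptic case of EL -/
theorem el_ell (M : Mods) (hSC : (XX hg hgeo hι).SC) (hA : ∀ x ∈ A, ∀ y ∈ A, x * y = y * x)
    {k : PP A B g} {a b : G} (ha : a ∈ A) (hb : b ∈ B) (ha1 : a ≠ 1) (hb1 : b ≠ 1)
    (h : k * Pι A B g a * k⁻¹ * Pι A B g a = Pι A B g b) : False := by
  have h0 : k * Pι A B g a * k⁻¹ = Pι A B g (b * a⁻¹) := by
    rw [map_mul, map_inv, ← h, mul_inv_cancel_right]
  obtain ⟨q, hq, k0, hr⟩ := ell_plane (hg := hg) (hgeo := hgeo) (hι := hι) M hSC hA ha ha1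
    (vx_conj rfl h0)
  have h2 := conj_dec hr (PA_comm_eq hA hq ha)
  rw [h0] at h2
  have h3 := hι h2
  have h4 : k0⁻¹ * a * k0⁻¹⁻¹ * a = b := by
    rw [← h3]
    group
  exact hgeo.el k0⁻¹ a ha b hb ha1 hb1 h4

/-- the degrees in EL -/
theorem el_deg {k s t : PP A B g} (hs : s ∈ PA A B g) (ht : t ∈ PB A B g)
    (h : k * s * k⁻¹ * s = t) :
    ∃ (p : ℤ) (a b : G), a ∈ A ∧ b ∈ B ∧ s = Pu A B g ^ p * Pv A B g ^ p * Pι A B g a ∧
      t = Pc A B g ^ (-2 * p) * Pι A B g b := by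
  obtain ⟨i, j, a, ha, rfl⟩ := (mem_PA_iff s).1 hs
  obtain ⟨l, b, hb, rfl⟩ := (mem_PB_iff t).1 ht
  have h1 := congrArg (dg A B g 1 0) h
  have h2 := congrArg (dg A B g 0 1) h
  rw [dg_mul, dg_conj] at h1 h2
  simp only [dg_mul, dg_zpow, dg_u, dg_v, dg_c, dg_ι] at h1 h2
  have e1 : l = -2 * i := by linarith
  have e2 : j = i := by linarith
  subst e1 e2
  exact ⟨j, a, b, ha, hb, rfl, rfl⟩

end

end Pool.Agent.ABA.B.H83
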