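import Pool.Agent.Helper83_ABA.Defs

open Equiv Equiv.Perm H17ABA

namespace Pool.Agent.ABA

section faces

variable {Ω : Type} [DecidableEq Ω]

theorem facePerm_nil : facePerm ([] : List (List Ω)) = 1 := rfl

theorem facePerm_cons (c : List Ω) (fs : List (List Ω)) :
    facePerm (c :: fs) = c.formPerm * facePerm fs := by
  simp [facePerm]

theorem formPerm_apply_not_mem {c : List Ω} {x : Ω} (h : x ∉ c) : c.formPerm x = x :=
  List.formPerm_apply_of_notMem h

theorem facePerm_apply_not_mem {fs : List (List Ω)} {x : Ω} (h : x ∉ fs.flatten) :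
    facePerm fs x = x := by
  induction fs with
  | nil => rfl
  | cons c fs ih =>
    rw [List.flatten_cons, List.mem_append, not_or] at h
    rw [facePerm_cons, Perm.mul_apply, ih h.2, formPerm_apply_not_mem h.1]

theorem formPerm_mem {c : List Ω} {x : Ω} (h : x ∈ c) : c.formPerm x ∈ c :=
  List.formPerm_apply_mem_of_mem h

theorem facePerm_apply_of_mem {fs : List (List Ω)} (hn : fs.flatten.Nodup) {c : List Ω}
    (hc : c ∈ fs) {x : Ω} (hx : x ∈ c) : facePerm fs x = c.formPerm x := by
  induction fs with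
  | nil => simp at hc
  | cons d fs ih =>
    rw [List.flatten_cons, List.nodup_append] at hn
    obtain ⟨h1, h2, h3⟩ := hn
    rw [facePerm_cons, Perm.mul_apply]
    rcases List.mem_cons.1 hc with rfl | hc'
    · have hx' : x ∉ fs.flatten := fun hh => h3 x hx x hh rfl
      rw [facePerm_apply_not_mem hx']
    · rw [ih h2 hc']
      have hm : c.formPerm x ∈ fs.flatten := List.mem_flatten.2 ⟨c, hc', formPerm_mem hx⟩
      have : c.formPerm x ∉ d := fun hh => h3 _ hh _ hm rfl
      exact formPerm_apply_not_mem this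

theorem facePerm_perm {fs gs : List (List Ω)} (h : fs.Perm gs) (hn : fs.flatten.Nodup) :
    facePerm fs = facePerm gs := by
  have hg : gs.flatten.Nodup := (List.Perm.flatten h).nodup_iff.1 hn
  ext x
  by_cases hx : x ∈ fs.flatten
  · obtain ⟨c, hc, hxc⟩ := List.mem_flatten.1 hx
    rw [facePerm_apply_of_mem hn hc hxc, facePerm_apply_of_mem hg (h.mem_iff.1 hc) hxc]
  · have hx' : x ∉ gs.flatten := fun hh => hx ((List.Perm.flatten h).mem_iff.2 hh)
    rw [facePerm_apply_not_mem hx, facePerm_apply_not_mem hx']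

theorem formPerm_rot {c d : List Ω} (h : c ~r d) (hn : c.Nodup) : c.formPerm = d.formPerm :=
  List.formPerm_eq_of_isRotated hn h

theorem facePerm_rot {c d : List Ω} {fs : List (List Ω)} (h : c ~r d) (hn : (c :: fs).flatten.Nodup) :
    facePerm (c :: fs) = facePerm (d :: fs) := by
  rw [facePerm_cons, facePerm_cons, formPerm_rot h]
  rw [List.flatten_cons, List.nodup_append] at hn
  exact hn.1

theorem formPerm_append {x y : Ω} {xs ys : List Ω} (hn : (x :: xs ++ y :: ys).Nodup) :
    (x :: xs ++ y :: ys).formPerm = swap x y * ((x :: xs).formPerm * (y :: ys).formPerm) := by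
  induction xs generalizing x with
  | nil =>
    simp [List.formPerm_cons_cons]
  | cons x2 xs ih =>
    have h1 : (x2 :: xs ++ y :: ys).Nodup := by
      rw [List.cons_append, List.nodup_cons] at hn
      exact hn.2
    have hxy : x ≠ y := by
      intro h
      rw [List.cons_append, List.nodup_cons] at hn
      exact hn.1 (by rw [h]; simp)
    have hxy2 : x2 ≠ y := by
      intro h
      rw [List.cons_append, List.nodup_cons] at h1
      exact h1.1 (by rw [h]; simp)
    have hxx : x ≠ x2 := by
      intro h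
      rw [List.cons_append, List.nodup_cons] at hn
      exact hn.1 (by rw [h]; simp)
    have e1 : (x :: (x2 :: xs) ++ y :: ys).formPerm = swap x x2 * (x2 :: xs ++ y :: ys).formPerm := by
      simp only [List.cons_append, List.formPerm_cons_cons]
    rw [e1, ih h1, List.formPerm_cons_cons]
    have e2 : swap x x2 * swap x2 y = swap x y * swap x x2 := by
      rw [Equiv.mul_swap_eq_swap_mul, swap_apply_right, swap_apply_of_ne_of_ne hxy.symm hxy2.symm]
    calc swap x x2 * (swap x2 y * ((x2 :: xs).formPerm * (y :: ys).formPerm))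
        = (swap x x2 * swap x2 y) * ((x2 :: xs).formPerm * (y :: ys).formPerm) := by group
      _ = _ := by rw [e2]; group

theorem facePerm_append {x y : Ω} {xs ys : List Ω} {fs : List (List Ω)}
    (hn : ((x :: xs ++ y :: ys) :: fs).flatten.Nodup) :
    facePerm ((x :: xs ++ y :: ys) :: fs) = swap x y * facePerm ((x :: xs) :: (y :: ys) :: fs) := by
  rw [List.flatten_cons, List.nodup_append] at hn
  rw [facePerm_cons, facePerm_cons, facePerm_cons, formPerm_append hn.1]
  group

theorem facePerm_nil_cons (fs : List (List Ω)) : facePerm ([] :: fs) = facePerm fs := by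
  rw [facePerm_cons]; simp

theorem facePerm_single_cons (w : Ω) (fs : List (List Ω)) :
    facePerm ([w] :: fs) = facePerm fs := by
  rw [facePerm_cons]; simp

theorem facePerm_delete {w y : Ω} {ys : List Ω} {fs : List (List Ω)} :
    facePerm ((w :: y :: ys) :: fs) = swap w y * facePerm ((y :: ys) :: fs) := by
  rw [facePerm_cons, facePerm_cons, List.formPerm_cons_cons, mul_assoc]

/-- all elements of a face are in one cycle -/
theorem face_pow {fs : List (List Ω)} (hn : fs.flatten.Nodup) {d : List Ω}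
    (hc : d ∈ fs) (n k : ℕ) (hk : k < d.length) : ((facePerm fs) ^ n) (d[k]'hk) =
      (d[(k + n) % d.length]'(Nat.mod_lt _ (by omega))) := by
  have hcn : d.Nodup := (List.nodup_flatten.1 hn).1 d hc
  induction n generalizing k with
  | zero =>
    simp [Nat.mod_eq_of_lt hk]
  | succ n ih =>
    rw [pow_succ', Perm.mul_apply, ih k hk,
      facePerm_apply_of_mem hn hc (List.getElem_mem _),
      List.formPerm_apply_getElem _ hcn]
    congr 1
    rw [Nat.mod_add_mod, add_assoc]

theorem sameCycle_face {fs : List (List Ω)} (hn : fs.flatten.Nodup) {d : List Ω}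
    (hc : d ∈ fs) {x y : Ω} (hx : x ∈ d) (hy : y ∈ d) : SameCycle (facePerm fs) x y := by
  obtain ⟨i, hi, rfl⟩ := List.mem_iff_getElem.1 hx
  obtain ⟨j, hj, rfl⟩ := List.mem_iff_getElem.1 hy
  refine ⟨((j + d.length - i : ℕ) : ℤ), ?_⟩
  rw [zpow_natCast, face_pow hn hc _ i hi]
  congr 1
  have : i + (j + d.length - i) = j + d.length := by omega
  rw [this, Nat.add_mod_right, Nat.mod_eq_of_lt hj]

theorem face_closed {fs : List (List Ω)} (hn : fs.flatten.Nodup) {d : List Ω}
    (hc : d ∈ fs) {x y : Ω} (hx : x ∈ d) (h : SameCycle (facePerm fs) x y) : y ∈ d := by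
  obtain ⟨i, rfl⟩ := h
  have key : ∀ (n : ℕ) (z : Ω), z ∈ d → ((facePerm fs) ^ n) z ∈ d := by
    intro n z hz
    obtain ⟨k, hk, rfl⟩ := List.mem_iff_getElem.1 hz
    rw [face_pow hn hc]
    exact List.getElem_mem _
  have hfin : ∀ z ∈ d, (facePerm fs)⁻¹ z ∈ d := by
    intro z hz
    obtain ⟨k, hk, rfl⟩ := List.mem_iff_getElem.1 hz
    have h1 := face_pow hn hc (d.length - 1) k hk
    have h2 := face_pow hn hc d.length k hk
    have h3 : (k + d.length) % d.length = k := by rw [Nat.add_mod_right, Nat.mod_eq_of_lt hk]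
    have h4 : ((facePerm fs) ^ d.length) (d[k]'hk) = d[k]'hk := by
      rw [h2]; congr 1
    have h5 : (facePerm fs)⁻¹ (d[k]'hk) = ((facePerm fs) ^ (d.length - 1)) (d[k]'hk) := by
      rw [Perm.inv_eq_iff_eq, ← Perm.mul_apply, ← pow_succ']
      have : d.length - 1 + 1 = d.length := by omega
      rw [this]
      exact h4.symm
    rw [h5]
    exact key _ _ (List.getElem_mem _)
  rcases i with n | n
  · exact key n x hx
  · have : ∀ m : ℕ, ((facePerm fs)⁻¹ ^ m) x ∈ d := by
      intro m
      induction m with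
      | zero => simpa using hx
      | succ m ih =>
        rw [pow_succ', Perm.mul_apply]
        exact hfin _ ih
    rw [zpow_negSucc, ← inv_pow]
    exact this (n + 1)

end faces

section planar

variable {Ω : Type} [Finite Ω] [DecidableEq Ω]

theorem pl_split_l {σ l : Perm Ω} (h : Planar σ l⁻¹) {u v : Ω} (hs : SameCycle l u v) :
    Planar σ (swap u v * l)⁻¹ := by
  rw [mul_inv_rev, swap_inv]
  exact planar_split h (sameCycle_inv.2 hs)

theorem pl_merge_l {σ l : Perm Ω} (h : Planar σ l⁻¹) {u v : Ω} (hs : ¬ SameCycle l u v)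
    (hf : SameCycle (σ * l⁻¹) u v) : Planar σ (swap u v * l)⁻¹ := by
  rw [mul_inv_rev, swap_inv]
  exact planar_merge h (fun hh => hs (sameCycle_inv.1 hh)) hf

theorem pl_swap {σ l : Perm Ω} : Planar σ l⁻¹ ↔ Planar l σ⁻¹ := by
  have := planar_inv_iff σ l⁻¹
  rw [inv_inv] at this
  exact this.symm

theorem pl_split_s {σ l : Perm Ω} (h : Planar σ l⁻¹) {u v : Ω} (hs : SameCycle σ u v) :
    Planar (swap u v * σ) l⁻¹ :=
  pl_swap.1 (pl_split_l (pl_swap.1 h) hs)

theorem pl_merge_s {σ l : Perm Ω} (h : Planar σ l⁻¹) {u v : Ω} (hs : ¬ SameCycle σ u v)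
    (hf : SameCycle (σ * l⁻¹) u v) : Planar (swap u v * σ) l⁻¹ := by
  refine pl_swap.1 (pl_merge_l (pl_swap.1 h) hs ?_)
  have : l * σ⁻¹ = (σ * l⁻¹)⁻¹ := by group
  rw [this]
  exact sameCycle_inv.2 hf

theorem pl_join_l {σ l : Perm Ω} (h : Planar σ l⁻¹) {u v : Ω} (hs : ¬ (orb2 σ l⁻¹) u v) :
    Planar σ (swap u v * l)⁻¹ := by
  rw [mul_inv_rev, swap_inv]
  exact planar_join h hs

theorem pl_join_s {σ l : Perm Ω} (h : Planar σ l⁻¹) {u v : Ω} (hs : ¬ (orb2 σ l⁻¹) u v) :
    Planar (swap u v * σ) l⁻¹ := by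
  refine pl_swap.1 (pl_join_l (pl_swap.1 h) ?_)
  have : orb2 l σ⁻¹ = orb2 σ l⁻¹ := by
    rw [orb2, orb2, cs_inv, cs_inv, sup_comm]
  rw [this]
  exact hs

/-- key identity: l w and σ w are in the same region curve -/
theorem curve_key (σ l : Perm Ω) (w : Ω) : SameCycle (σ * l⁻¹) (l w) (σ w) := by
  refine ⟨1, ?_⟩
  simp

end planar

end Pool.Agent.ABA
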