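import Pool.Agent.Helper83_ABA.GeoSt
import Pool.Agent.Helper83_ABA.Push
import Pool.Agent.Helper49_ABB.Walk

/-!
# Geodesics towards a vertex or a plane: points of paths, levels, polygons
(MP_d857f1_al, part B, module GEO)
-/

set_option autoImplicit false

namespace Pool.Agent.ABA.B.H83

open Pool.Agent.ABA Pool.Agent.ABA.B Pool.Agent.ABA.B.TG Pool.Agent.ABA.B.H17

/-! ## points of paths -/

section pts

variable {V E : Type} {S : TG V E}

/-- the vertex number `k` of a path which starts at `x` -/
def pt (S : TG V E) : V → List E → ℕ → V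
  | x, [], _ => x
  | x, _ :: _, 0 => x
  | _, e :: w, k + 1 => pt S (S.tgt e) w k

@[simp] theorem pt_zero (x : V) (w : List E) : pt S x w 0 = x := by cases w <;> rfl

theorem isP_take {x y : V} {w : List E} (h : S.IsP x w y) {k : ℕ} (hk : k ≤ w.length) :
    S.IsP x (w.take k) (pt S x w k) ∧ S.IsP (pt S x w k) (w.drop k) y := by
  induction w generalizing x k with
  | nil =>
    have : k = 0 := by simpa using hk
    subst this
    exact ⟨rfl, h⟩
  | cons e w ih =>
    cases k with
    | zero => exact ⟨rfl, h⟩
    | succ k =>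
      have h1 := ih h.2 (k := k) (by simpa using hk)
      exact ⟨⟨h.1, h1.1⟩, h1.2⟩

theorem pt_len {x y : V} {w : List E} (h : S.IsP x w y) : pt S x w w.length = y := by
  have h1 := (isP_take h (le_refl w.length)).2
  rw [List.drop_length] at h1
  exact h1

theorem pt_left {x : V} {w w' : List E} {k : ℕ} (hk : k ≤ w.length) :
    pt S x (w ++ w') k = pt S x w k := by
  induction w generalizing x k with
  | nil =>
    have : k = 0 := by simpa using hk
    subst this
    simp
  | cons e w ih =>
    cases k with
    | zero => simp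
    | succ k =>
      simp only [List.cons_append, pt]
      exact ih (by simpa using hk)

theorem pt_right {x y : V} {w w' : List E} (h : S.IsP x w y) (k : ℕ) :
    pt S x (w ++ w') (w.length + k) = pt S y w' k := by
  induction w generalizing x with
  | nil =>
    have : x = y := h
    subst this
    simp
  | cons e w ih =>
    simp only [List.cons_append, List.length_cons]
    rw [show w.length + 1 + k = w.length + k + 1 by omega]
    simp only [pt]
    exact ih h.2

theorem pt_rv {x y : V} {w : List E} (h : S.IsP x w y) {k : ℕ} (hk : k ≤ w.length) :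
    pt S y (S.rv w) k = pt S x w (w.length - k) := by
  obtain ⟨h1, h2⟩ := isP_take h (show w.length - k ≤ w.length by omega)
  have h3 : S.rv w = S.rv (w.drop (w.length - k)) ++ S.rv (w.take (w.length - k)) := by
    rw [← rv_append, List.take_append_drop]
  have h4 : (S.rv (w.drop (w.length - k))).length = k := by
    rw [rv_length, List.length_drop]; omega
  rw [h3, pt_left (by omega)]
  have h5 := pt_len h2.rv
  rw [h4] at h5
  exact h5

/-- a closed block gives a coincidence of two points -/
theorem pt_block {x y : V} {l p r : List E} (h : S.IsP x (l ++ p ++ r) y) (hp : p ≠ [])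
    (hcl : S.Cl p) : pt S x (l ++ p ++ r) l.length = pt S x (l ++ p ++ r) (l.length + p.length) := by
  obtain ⟨z, h1, h2⟩ := isP_append.1 h
  obtain ⟨z', h3, h4⟩ := isP_append.1 h1
  obtain ⟨u, hu⟩ := hcl
  obtain ⟨e, p', rfl⟩ := List.exists_cons_of_ne_nil hp
  have h5 : z' = u := h4.1.symm.trans hu.1
  subst h5
  have h6 : z = z' := IsP.eq h4 hu
  subst h6
  rw [pt_left (by simp), pt_left (by simp), pt_left (by simp), pt_len h3,
    ← List.length_append, pt_len h1]

theorem no_loop (hSC : S.SC) (e : E) : S.src e ≠ S.tgt e := by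
  intro h
  obtain ⟨n, hn⟩ := hSC (S.src e) [e] ⟨rfl, h.symm⟩
  exact hn.not_single

theorem Rep.isP {a b : E} {W' R : List E} (h : Rep S a b W' R) :
    S.IsP (S.src a) R (S.tgt b) := by
  cases h with
  | @one h h1 h2 =>
    refine ⟨?_, ?_⟩
    · rw [Tri.mid' h2, tgt_inv]
    · exact Tri.tgt' h2
  | @two g m f h1 h2 h3 =>
    refine ⟨Tri.src' h2, ?_, ?_⟩
    · have e1 := Tri.mid' h2
      rw [src_inv] at e1
      rw [Tri.mid' h3, e1]
    · exact Tri.tgt' h3

/-- letters with the same end points -/
theorem adj_gen (M : Mods) (hSC : S.SC) (hsys : ∀ v, CRW S v → 6 ≤ v.length) {e e' : E}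
    (h1 : S.src e = S.src e') (h2 : S.tgt e = S.tgt e') : e = e' := by
  by_contra hne
  have hp : S.IsP (S.src e) [e, S.inv e'] (S.src e) := by
    refine ⟨rfl, ?_, ?_⟩
    · rw [src_inv, h2]
    · change S.tgt (S.inv e') = S.src e
      rw [tgt_inv, h1]
  have hpf : S.PF [e, S.inv e'] := by
    intro l p r hw hp0 hlr hcl
    exfalso
    have hl : l.length + p.length + r.length = 2 := by
      have := congrArg List.length hw
      simp only [List.length_cons, List.length_nil, List.length_append] at this
      omega
    have hp1 : 1 ≤ p.length := List.length_pos_iff.2 hp0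
    have hlr1 : 1 ≤ (l ++ r).length := List.length_pos_iff.2 hlr
    rw [List.length_append] at hlr1
    obtain ⟨x, rfl⟩ := List.length_eq_one_iff.1 (show p.length = 1 by omega)
    obtain ⟨y, hy⟩ := hcl
    exact no_loop hSC x (hy.1.trans hy.2.symm)
  obtain ⟨a, W, I, hB, ha, -, -⟩ := bdyM M hSC [e, S.inv e'] ⟨_, hp⟩ hpf (by simp) (by
    intro f hf
    simp only [List.cons.injEq, and_true] at hf
    apply hne
    have := hf.2
    rw [← S.inv_inv e', this, ← hf.1])
  have h6 := six_le hB hsys
  simp only [List.length_cons, List.length_nil, Finset.sum_range_succ, Finset.sum_range_zero] at h6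
  have w1 := two_le hB 1
  have w2 := two_le hB 2
  norm_num at h6
  omega

end pts

/-! ## distances to targets -/

variable {G : Type} [Group G] {A B : Subgroup G} {g : G}
variable {hg : ¬ IsABA A B g} {hgeo : Geo A B} {hι : Function.Injective (Pι A B g)}
variable {T : XV A B g → Prop}

theorem exists_dT (hT : Tgt T) (x : XV A B g) :
    ∃ y, T y ∧ dst (XX hg hgeo hι) x y = dT hg hgeo hι T x := by
  have h : ∃ y, T y := by
    cases hT with
    | vtx q => exact ⟨q, rfl⟩
    | pl c _ => exact On_ex c
  obtain ⟨y, hy⟩ := h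
  exact Nat.sInf_mem (s := {n | ∃ y, T y ∧ dst (XX hg hgeo hι) x y = n}) ⟨_, y, hy, rfl⟩

theorem dT_le {x y : XV A B g} (h : T y) : dT hg hgeo hι T x ≤ dst (XX hg hgeo hι) x y :=
  Nat.sInf_le ⟨y, h, rfl⟩

theorem dT_tri (hT : Tgt T) (x y : XV A B g) :
    dT hg hgeo hι T x ≤ dst (XX hg hgeo hι) x y + dT hg hgeo hι T y := by
  obtain ⟨z, hz, h⟩ := exists_dT (hg := hg) (hgeo := hgeo) (hι := hι) hT y
  have h1 := dT_le (hg := hg) (hgeo := hgeo) (hι := hι) (x := x) hz
  have h2 := dst_tri (connX (hg := hg) (hgeo := hgeo) (hι := hι)) x y z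
  omega

theorem dT_path (hT : Tgt T) {x y : XV A B g} {w : List (XE A B g)}
    (h : (XX hg hgeo hι).IsP x w y) : dT hg hgeo hι T x ≤ w.length + dT hg hgeo hι T y := by
  have h1 := dT_tri (hg := hg) (hgeo := hgeo) (hι := hι) hT x y
  have h2 := dst_le h
  omega

theorem dT_path' (hT : Tgt T) {x y : XV A B g} {w : List (XE A B g)}
    (h : (XX hg hgeo hι).IsP x w y) : dT hg hgeo hι T y ≤ w.length + dT hg hgeo hι T x := by
  have h1 := dT_path hT h.rv
  rwa [rv_length] at h1

theorem dT_self {x : XV A B g} (h : T x) : dT hg hgeo hι T x = 0 := by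
  have := dT_le (hg := hg) (hgeo := hgeo) (hι := hι) (x := x) h
  rw [dst_self] at this
  omega

theorem dT_zero (hT : Tgt T) {x : XV A B g} (h : dT hg hgeo hι T x = 0) : T x := by
  obtain ⟨y, hy, h2⟩ := exists_dT (hg := hg) (hgeo := hgeo) (hι := hι) hT x
  rw [h] at h2
  rw [eq_of_dst (connX (hg := hg) (hgeo := hgeo) (hι := hι)) h2]
  exact hy

theorem exists_geoT (hT : Tgt T) (x : XV A B g) :
    ∃ y γ, T y ∧ (XX hg hgeo hι).IsP x γ y ∧ γ.length = dT hg hgeo hι T x := by
  obtain ⟨y, hy, h⟩ := exists_dT (hg := hg) (hgeo := hgeo) (hι := hι) hT x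
  obtain ⟨γ, h1, h2⟩ := exists_geod (connX (hg := hg) (hgeo := hgeo) (hι := hι)) x y
  exact ⟨y, γ, hy, h1, by rw [h2, h]⟩

theorem lev (hT : Tgt T) {x y : XV A B g} {γ : List (XE A B g)}
    (h : (XX hg hgeo hι).IsP x γ y) (hl : dT hg hgeo hι T y + γ.length = dT hg hgeo hι T x)
    {k : ℕ} (hk : k ≤ γ.length) :
    dT hg hgeo hι T (pt (XX hg hgeo hι) x γ k) + k = dT hg hgeo hι T x := by
  obtain ⟨h1, h2⟩ := isP_take h hk
  have h3 := dT_path hT h1
  have h4 := dT_path hT h2
  rw [List.length_take] at h3
  rw [List.length_drop] at h4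
  omega

/-- the distance changes by at most one along a letter -/
theorem dT_step (hT : Tgt T) (e : XE A B g) :
    dT hg hgeo hι T (xsrc e) ≤ 1 + dT hg hgeo hι T ((XX hg hgeo hι).tgt e) ∧
    dT hg hgeo hι T ((XX hg hgeo hι).tgt e) ≤ 1 + dT hg hgeo hι T (xsrc e) := by
  have h : (XX hg hgeo hι).IsP (xsrc e) [e] ((XX hg hgeo hι).tgt e) := ⟨rfl, rfl⟩
  exact ⟨dT_path hT h, dT_path' hT h⟩

/-! ## polygons -/

/-- Two legs `γ`, `γ'` from `v`, `v'` towards the target, which end at the same vertex, or in the
target plane; then `s` is a side from `n'` to `n`. -/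
structure Pg (hg : ¬ IsABA A B g) (hgeo : Geo A B) (hι : Function.Injective (Pι A B g))
    (T : XV A B g → Prop) (v v' : XV A B g) (i : ℕ) (γ γ' s : List (XE A B g))
    (n n' : XV A B g) : Prop where
  p : (XX hg hgeo hι).IsP v γ n
  p' : (XX hg hgeo hι).IsP v' γ' n'
  l : γ.length = i
  l' : γ'.length = i
  d : dT hg hgeo hι T n + i = dT hg hgeo hι T v
  d' : dT hg hgeo hι T n' + i = dT hg hgeo hι T v'
  e : (s = [] ∧ n = n') ∨ ∃ c, IsPl c ∧ T = On c ∧ SideP hg hgeo hι c n' n s

/-- the boundary word -/
def wrd (hg : ¬ IsABA A B g) (hgeo : Geo A B) (hι : Function.Injective (Pι A B g))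
    (α γ γ' s : List (XE A B g)) : List (XE A B g) := α ++ (γ' ++ (s ++ (XX hg hgeo hι).rv γ))

theorem wrd_len {α γ γ' s : List (XE A B g)} :
    (wrd hg hgeo hι α γ γ' s).length = α.length + γ'.length + s.length + γ.length := by
  unfold wrd
  simp only [List.length_append, rv_length]
  omega

theorem Pg.side {v v' : XV A B g} {i : ℕ} {γ γ' s : List (XE A B g)} {n n' : XV A B g}
    (h : Pg hg hgeo hι T v v' i γ γ' s n n') : (XX hg hgeo hι).IsP n' s n := by
  rcases h.e with ⟨rfl, h1⟩ | ⟨c, -, -, h1⟩
  · exact h1.symm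
  · exact h1.1

theorem Pg.path {α : List (XE A B g)} {v v' : XV A B g} {i : ℕ} {γ γ' s : List (XE A B g)}
    {n n' : XV A B g} (h : Pg hg hgeo hι T v v' i γ γ' s n n') (hα : (XX hg hgeo hι).IsP v α v') :
    (XX hg hgeo hι).IsP v (wrd hg hgeo hι α γ γ' s) v :=
  isP_append.2 ⟨v', hα, isP_append.2 ⟨n', h.p', isP_append.2 ⟨n, h.side, h.p.rv⟩⟩⟩

/-- the level of the points of the side -/
theorem Pg.lev_s (hT : Tgt T) {v v' : XV A B g} {i : ℕ} {γ γ' s : List (XE A B g)}
    {n n' : XV A B g} (h : Pg hg hgeo hι T v v' i γ γ' s n n') {k : ℕ} (hk : k ≤ s.length) :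
    dT hg hgeo hι T (pt (XX hg hgeo hι) n' s k) = dT hg hgeo hι T n' := by
  rcases h.e with ⟨rfl, -⟩ | ⟨c, hc, rfl, h1⟩
  · have : k = 0 := by simpa using hk
    subst this
    rw [pt_zero]
  · by_cases hs : s = []
    · subst hs
      have : k = 0 := by simpa using hk
      subst this
      rw [pt_zero]
    · have h2 := h1.on_src hg hgeo hι hs
      obtain ⟨h3, h4⟩ := isP_take h1.1 hk
      have h5 : SideP hg hgeo hι c n' (pt (XX hg hgeo hι) n' s k) (s.take k) :=
        ⟨h3, fun e he => h1.2 e (List.mem_of_mem_take he)⟩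
      rw [dT_self (h5.on h2.1), dT_self h2.1]

/-- no common vertex of two legs of length less than `i` -/
def NoMeet (hg : ¬ IsABA A B g) (hgeo : Geo A B) (hι : Function.Injective (Pι A B g))
    (T : XV A B g → Prop) (v v' : XV A B g) (i : ℕ) : Prop :=
  ∀ (a : ℕ) (γ γ' : List (XE A B g)) (n : XV A B g), a < i → (XX hg hgeo hι).IsP v γ n →
    (XX hg hgeo hι).IsP v' γ' n → γ.length = a → γ'.length = a →
    dT hg hgeo hι T n + a = dT hg hgeo hι T v → False

section points

variable {α : List (XE A B g)} {v v' : XV A B g} {i : ℕ} {γ γ' s : List (XE A B g)}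
  {n n' : XV A B g}

theorem Pg.pt1 (k : ℕ) (hk : k ≤ α.length) :
    pt (XX hg hgeo hι) v (wrd hg hgeo hι α γ γ' s) k = pt (XX hg hgeo hι) v α k := pt_left hk

theorem Pg.pt2 (h : Pg hg hgeo hι T v v' i γ γ' s n n') (hα : (XX hg hgeo hι).IsP v α v') (k : ℕ)
    (hk : k ≤ i) : pt (XX hg hgeo hι) v (wrd hg hgeo hι α γ γ' s) (α.length + k) =
      pt (XX hg hgeo hι) v' γ' k := by
  unfold wrd
  rw [pt_right hα, pt_left (by rw [h.l']; exact hk)]

theorem Pg.pt3 (h : Pg hg hgeo hι T v v' i γ γ' s n n') (hα : (XX hg hgeo hι).IsP v α v') (k : ℕ)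
    (hk : k ≤ s.length) : pt (XX hg hgeo hι) v (wrd hg hgeo hι α γ γ' s) (α.length + i + k) =
      pt (XX hg hgeo hι) n' s k := by
  unfold wrd
  rw [Nat.add_assoc, pt_right hα]
  have h1 := pt_right (w' := s ++ (XX hg hgeo hι).rv γ) h.p' k
  rw [h.l'] at h1
  rw [h1, pt_left hk]

theorem Pg.pt4 (h : Pg hg hgeo hι T v v' i γ γ' s n n') (hα : (XX hg hgeo hι).IsP v α v') (k : ℕ)
    (hk : k ≤ i) : pt (XX hg hgeo hι) v (wrd hg hgeo hι α γ γ' s)
      (α.length + i + s.length + k) = pt (XX hg hgeo hι) v γ (i - k) := by
  unfold wrd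
  rw [Nat.add_assoc, Nat.add_assoc, pt_right hα]
  have h1 := pt_right (w' := s ++ (XX hg hgeo hι).rv γ) h.p' (s.length + k)
  rw [h.l'] at h1
  rw [h1, pt_right h.side, pt_rv h.p (by rw [h.l]; exact hk), h.l]

end points

/-- A polygon whose side cannot be shortened is pinch-free. -/
theorem pg_pf (M : Mods) (hSC : (XX hg hgeo hι).SC) (hT : Tgt T) {α : List (XE A B g)}
    {v v' : XV A B g} {i : ℕ} {γ γ' s : List (XE A B g)} {n n' : XV A B g}
    (h : Pg hg hgeo hι T v v' i γ γ' s n n') (hα : (XX hg hgeo hι).IsP v α v')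
    (hα1 : 1 ≤ α.length) (hα2 : α.length ≤ 2)
    (hα3 : ∀ k, 0 < k → k < α.length → dT hg hgeo hι T v <
      dT hg hgeo hι T (pt (XX hg hgeo hι) v α k))
    (hvv : dT hg hgeo hι T v = dT hg hgeo hι T v') (hne : v ≠ v')
    (hno : NoMeet hg hgeo hι T v v' i)
    (hmin : ∀ s', Pg hg hgeo hι T v v' i γ γ' s' n n' →
      H89.mu hg hgeo hι (wrd hg hgeo hι α γ γ' s) ≤ H89.mu hg hgeo hι (wrd hg hgeo hι α γ γ' s')) :
    (XX hg hgeo hι).PF (wrd hg hgeo hι α γ γ' s) := by
  intro l p r hw hp0 hlr hcl
  have hpath := h.path hα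
  have hlen : l.length + p.length + r.length = α.length + i + s.length + i := by
    have h1 := congrArg List.length hw
    rw [wrd_len, h.l, h.l'] at h1
    simp only [List.length_append] at h1
    omega
  have hp1 : 1 ≤ p.length := List.length_pos_iff.2 hp0
  have hlr1 : 1 ≤ (l ++ r).length := List.length_pos_iff.2 hlr
  rw [List.length_append] at hlr1
  have hco := pt_block (S := XX hg hgeo hι) (by rw [← hw]; exact hpath) hp0 hcl
  rw [← hw] at hco
  -- levels
  have L2 : ∀ k ≤ i, dT hg hgeo hι T (pt (XX hg hgeo hι) v (wrd hg hgeo hι α γ γ' s)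
      (α.length + k)) + k = dT hg hgeo hι T v := by
    intro k hk
    rw [h.pt2 hα k hk, hvv]
    exact lev hT h.p' (by rw [h.l']; exact h.d') (by rw [h.l']; exact hk)
  have L3 : ∀ k ≤ s.length, dT hg hgeo hι T (pt (XX hg hgeo hι) v (wrd hg hgeo hι α γ γ' s)
      (α.length + i + k)) + i = dT hg hgeo hι T v := by
    intro k hk
    rw [h.pt3 hα k hk, h.lev_s hT hk, hvv]
    exact h.d'
  have L4 : ∀ k ≤ i, dT hg hgeo hι T (pt (XX hg hgeo hι) v (wrd hg hgeo hι α γ γ' s)
      (α.length + i + s.length + k)) + (i - k) = dT hg hgeo hι T v := by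
    intro k hk
    rw [h.pt4 hα k hk]
    exact lev hT h.p (by rw [h.l]; exact h.d) (by rw [h.l]; omega)
  -- cutting a closed block of the side
  have cut : α.length + i ≤ l.length → l.length + p.length ≤ α.length + i + s.length →
      (XX hg hgeo hι).ar (wrd hg hgeo hι α γ γ' s) < (XX hg hgeo hι).ar p +
        (XX hg hgeo hι).ar (l ++ r) := by
    intro h1 h2
    have e1 : (α ++ γ') ++ (s ++ (XX hg hgeo hι).rv γ) = l ++ (p ++ r) := by
      rw [← List.append_assoc l, ← hw]
      unfold wrd
      simp
    obtain ⟨s1, hs1, hs1'⟩ := split_le e1 (by rw [List.length_append, h.l']; exact h1)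
    -- s ++ rv γ = s1 ++ (p ++ r)
    have e2 : (s1 ++ p) ++ r = s ++ (XX hg hgeo hι).rv γ := by
      rw [hs1', List.append_assoc]
    obtain ⟨s3, hs3, hs3'⟩ := split_le e2 (by
      rw [hs1, List.length_append, List.length_append, h.l'] at h2
      rw [List.length_append]
      omega)
    have hPg : Pg hg hgeo hι T v v' i γ γ' (s1 ++ s3) n n' := by
      refine ⟨h.p, h.p', h.l, h.l', h.d, h.d', ?_⟩
      rcases h.e with ⟨h3, h4⟩ | ⟨c, hc, hTc, h3⟩
      · exfalso
        rw [hs3] at h3
        simp only [List.append_eq_nil_iff] at h3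
        exact hp0 h3.1.2
      · right
        refine ⟨c, hc, hTc, ?_⟩
        rw [hs3] at h3
        exact h3.cut hp0 hcl
    have h5 := hmin _ hPg
    have e3 : wrd hg hgeo hι α γ γ' (s1 ++ s3) = l ++ r := by
      unfold wrd
      rw [hs1, hs3']
      simp
    rw [e3] at h5
    unfold H89.mu at h5
    have h6 : (wrd hg hgeo hι α γ γ' s).length = l.length + p.length + r.length := by
      rw [hw]; simp only [List.length_append]
    rw [h6, List.length_append] at h5
    omega
  -- the regions of the two points
  rcases Nat.lt_or_ge l.length α.length with hl1 | hl1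
  · rcases Nat.eq_zero_or_pos l.length with hl0 | hl0
    · -- the first point is v
      have hl : l = [] := List.eq_nil_of_length_eq_zero hl0
      subst hl
      simp only [List.length_nil, Nat.zero_add] at hco hlen hlr1
      rw [pt_zero] at hco
      rcases Nat.lt_or_ge p.length α.length with h2 | h2
      · exfalso
        have h3 := hα3 p.length (by omega) h2
        rw [Pg.pt1 _ h2.le] at hco
        rw [← hco] at h3
        omega
      · obtain ⟨k, hk⟩ := Nat.exists_eq_add_of_le h2
        rcases Nat.lt_or_ge k i with h3 | h3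
        · exfalso
          have h4 := L2 k h3.le
          rw [← hk, ← hco] at h4
          have hk0 : k = 0 := by omega
          subst hk0
          rw [hk, h.pt2 hα 0 (by omega), pt_zero] at hco
          exact hne hco
        · obtain ⟨k', rfl⟩ := Nat.exists_eq_add_of_le h3
          rcases Nat.lt_or_ge s.length k' with h4 | h4
          · exfalso
            obtain ⟨k2, rfl⟩ := Nat.exists_eq_add_of_le h4.le
            have h5 := L4 k2 (by omega)
            rw [show α.length + i + s.length + k2 = p.length by omega, ← hco] at h5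
            omega
          · -- the second point lies on the side
            have h5 := L3 k' h4
            rw [show α.length + i + k' = p.length by omega, ← hco] at h5
            have hi : i = 0 := by omega
            subst hi
            -- p = α ++ γ' ++ s1, r = s2 ++ rv γ
            have hγ' : γ' = [] := List.eq_nil_of_length_eq_zero h.l'
            have hγ : γ = [] := List.eq_nil_of_length_eq_zero h.l
            subst hγ'
            subst hγ
            have hn : v = n := h.p
            have hn' : v' = n' := h.p'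
            have e1 : α ++ s = p ++ r := by
              have : wrd hg hgeo hι α [] [] s = α ++ s := by simp [wrd]
              rw [← this, hw]; simp
            obtain ⟨s1, hs1, hs1'⟩ := split_le e1 (by omega)
            have hPg : Pg hg hgeo hι T v v' 0 [] [] s1 n n' := by
              refine ⟨h.p, h.p', h.l, h.l', h.d, h.d', ?_⟩
              rcases h.e with ⟨h3, h4⟩ | ⟨c, hc, hTc, h3⟩
              · left
                rw [hs1', List.append_eq_nil_iff] at h3
                exact ⟨h3.1, h4⟩
              · right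
                refine ⟨c, hc, hTc, ?_⟩
                rw [hs1'] at h3
                obtain ⟨y, h6, h7⟩ := h3.split
                have h8 : y = n := by
                  have h9 : (XX hg hgeo hι).IsP v p y := by
                    rw [hs1]
                    exact isP_append.2 ⟨v', hα, by rw [hn']; exact h6.1⟩
                  obtain ⟨u, hu⟩ := hcl
                  obtain ⟨e, p', rfl⟩ := List.exists_cons_of_ne_nil hp0
                  have h10 : v = u := h9.1.symm.trans hu.1
                  subst h10
                  rw [← hn]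
                  exact IsP.eq h9 hu
                rw [← h8]; exact h6
            have h6 := hmin _ hPg
            have e3 : wrd hg hgeo hι α [] [] s1 = p := by
              simp [wrd, hs1]
            rw [e3] at h6
            unfold H89.mu at h6
            have h7 : (wrd hg hgeo hι α [] [] s).length = p.length + r.length := by
              rw [hw]; simp only [List.length_append, List.length_nil, Nat.zero_add]
            rw [h7] at h6
            omega
    · -- the first point is the middle of α
      exfalso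
      have h3 := hα3 l.length hl0 hl1
      rw [Pg.pt1 _ hl1.le] at hco
      rw [hco] at h3
      obtain ⟨k, hk⟩ := Nat.exists_eq_add_of_le (show α.length ≤ l.length + p.length by omega)
      rw [hk] at h3
      rcases Nat.lt_or_ge k i with h4 | h4
      · have h5 := L2 k h4.le
        omega
      · obtain ⟨k', rfl⟩ := Nat.exists_eq_add_of_le h4
        rw [← Nat.add_assoc] at h3
        rcases Nat.lt_or_ge s.length k' with h6 | h6
        · obtain ⟨k2, rfl⟩ := Nat.exists_eq_add_of_le h6.le
          have h5 := L4 k2 (by omega)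
          rw [← Nat.add_assoc] at h3
          omega
        · have h5 := L3 k' h6
          omega
  · obtain ⟨k, hk⟩ := Nat.exists_eq_add_of_le hl1
    rcases Nat.lt_or_ge k i with h1 | h1
    · -- the first point is on γ'
      exfalso
      have h2 := L2 k h1.le
      rw [← hk] at h2
      obtain ⟨m, hm⟩ := Nat.exists_eq_add_of_le (show α.length ≤ l.length + p.length by omega)
      rw [hco] at h2
      rw [hm] at h2
      rcases Nat.lt_or_ge m i with h4 | h4
      · have h5 := L2 m h4.le
        omega
      · obtain ⟨k', rfl⟩ := Nat.exists_eq_add_of_le h4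
        rw [← Nat.add_assoc] at h2
        rcases Nat.lt_or_ge s.length k' with h6 | h6
        · obtain ⟨k2, rfl⟩ := Nat.exists_eq_add_of_le h6.le
          rw [← Nat.add_assoc] at h2
          have h5 := L4 k2 (by omega)
          have hik : i - k2 = k := by omega
          -- common vertex
          have e1 : pt (XX hg hgeo hι) v' γ' k = pt (XX hg hgeo hι) v γ k := by
            rw [← h.pt2 hα k h1.le, ← hk, hco, hm, ← Nat.add_assoc, ← Nat.add_assoc,
              h.pt4 hα k2 (by omega), hik]
          obtain ⟨g1, -⟩ := isP_take h.p (k := k) (by rw [h.l]; exact h1.le)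
          obtain ⟨g2, -⟩ := isP_take h.p' (k := k) (by rw [h.l']; exact h1.le)
          rw [e1] at g2
          refine hno k _ _ _ h1 g1 g2 (by rw [List.length_take, h.l]; omega)
            (by rw [List.length_take, h.l']; omega) ?_
          exact lev hT h.p (by rw [h.l]; exact h.d) (by rw [h.l]; exact h1.le)
        · have h5 := L3 k' h6
          omega
    · obtain ⟨k', rfl⟩ := Nat.exists_eq_add_of_le h1
      rcases Nat.lt_or_ge s.length k' with h6 | h6
      · -- the first point is on γ
        exfalso
        obtain ⟨k2, rfl⟩ := Nat.exists_eq_add_of_le h6.le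
        have h5 := L4 k2 (by omega)
        have h7 := L4 (k2 + p.length) (by omega)
        rw [show α.length + i + s.length + k2 = l.length by omega, hco] at h5
        rw [show α.length + i + s.length + (k2 + p.length) = l.length + p.length by omega] at h7
        omega
      · -- the first point is on the side
        rcases Nat.lt_or_ge (α.length + i + s.length) (l.length + p.length) with h7 | h7
        · exfalso
          obtain ⟨k2, hk2⟩ := Nat.exists_eq_add_of_le h7.le
          have h5 := L4 k2 (by omega)
          rw [← hk2, ← hco] at h5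
          have h8 := L3 k' h6
          rw [show α.length + i + k' = l.length by omega] at h8
          omega
        · exact cut (by omega) h7

end Pool.Agent.ABA.B.H83
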