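import Pool.Agent.Helper83_ABA.Geo1

/-!
# Minimal polygons with two legs: corners (MP_d857f1_al, part B, module GEO)
-/

set_option autoImplicit false

namespace Pool.Agent.ABA.B.H83

open Knd Pool.Agent.ABA Pool.Agent.ABA.B Pool.Agent.ABA.B.TG Pool.Agent.ABA.B.H17

section gen

variable {V E : Type} {S : TG V E}

theorem split2 {α : Type} {l : List α} {k : ℕ} (h : k + 1 < l.length) :
    ∃ l1 b c l2, l = l1 ++ b :: c :: l2 ∧ l1.length = k := by
  refine ⟨l.take k, l[k], l[k + 1], l.drop (k + 2), ?_, by rw [List.length_take]; omega⟩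
  conv_lhs => rw [← List.take_append_drop k l, List.drop_eq_getElem_cons (by omega),
    List.drop_eq_getElem_cons (by omega)]

theorem site {w : List E} (M : Mods) (hSC : S.SC) {a : ℕ → E} {W : ℕ → List E}
    {I : List (List E)} (hB : Bd S w.length a W I) (ha : ∀ i (h : i < w.length), a i = w[i])
    (hM : MaskRed S w W) (hcl : S.Cl w) {l r : List E} {b c : E} (hw : w = l ++ b :: c :: r)
    (hlr : l ++ r ≠ []) (h3 : (W (l.length + 1)).length ≤ 3) :
    ∃ R, Rep S b c (W (l.length + 1)) R ∧ R.length + 1 = (W (l.length + 1)).length ∧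
      S.ar (l ++ R ++ r) + R.length ≤ S.ar w := by
  have e1 : a l.length = b := by
    rw [ha _ (by rw [hw]; simp)]
    subst hw
    rw [List.getElem_append_right (by omega)]
    simp
  have e2 : a (l.length + 1) = c := by
    rw [ha _ (by rw [hw]; simp)]
    subst hw
    rw [List.getElem_append_right (by omega)]
    simp
  obtain ⟨R, h1, h2⟩ := exists_rep hB l.length h3
  rw [e1, e2] at h1
  exact ⟨R, h1, h2, (site1 M hSC hB ha hM hcl hw h1 (Or.inl hlr)).1⟩

theorem sum_first_le {f : ℕ → ℤ} {a b : ℕ} (hab : a < b) (h : ∀ k, a < k → k < b → f k ≤ 0) :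
    ∑ k ∈ Finset.Ico a b, f k ≤ f a := by
  rw [Finset.sum_eq_sum_Ico_succ_bot hab]
  have : ∑ k ∈ Finset.Ico (a + 1) b, f k ≤ 0 := by
    apply Finset.sum_nonpos
    intro k hk
    rw [Finset.mem_Ico] at hk
    exact h k (by omega) hk.2
  linarith

/-- the corner at a position is a chain between the two letters -/
theorem corner_form {N : ℕ} {a : ℕ → E} {W : ℕ → List E} {I : List (List E)} (B : Bd S N a W I)
    (i : ℕ) : (W (i + 1)).IsChain S.Cor ∧ (W (i + 1)).head? = some (S.inv (a i)) ∧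
      (W (i + 1)).getLast? = some (a (i + 1)) := by
  obtain ⟨f1, f2, l, r, hT, h1, h2⟩ := B.edg i
  obtain ⟨g1, g2, l', r', hT', h1', h2'⟩ := B.edg (i + 1)
  refine ⟨B.chain _, by rw [h2]; rfl, by rw [h1']; simp⟩

theorem corner_one {N : ℕ} {a : ℕ → E} {W : ℕ → List E} {I : List (List E)} (B : Bd S N a W I)
    (i : ℕ) (h : (W (i + 1)).length = 2) : S.Cor (S.inv (a i)) (a (i + 1)) := by
  obtain ⟨h1, h2, h3⟩ := corner_form B i
  obtain ⟨x, y, hxy⟩ := List.length_eq_two.1 h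
  rw [hxy] at h1 h2 h3
  simp only [List.head?_cons, Option.some.injEq, List.getLast?_cons_cons,
    List.getLast?_singleton, List.isChain_cons_cons] at h1 h2 h3
  rw [h2, h3] at h1
  exact h1.1

theorem two_le' {N : ℕ} {a : ℕ → E} {W : ℕ → List E} {I : List (List E)} (B : Bd S N a W I)
    (i : ℕ) : 2 ≤ (W i).length := two_le B i

end gen

variable {G : Type} [Group G] {A B : Subgroup G} {g : G}
variable {hg : ¬ IsABA A B g} {hgeo : Geo A B} {hι : Function.Injective (Pι A B g)}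
variable {T : XV A B g → Prop}

/-- minimal polygon -/
structure PgMin (hg : ¬ IsABA A B g) (hgeo : Geo A B) (hι : Function.Injective (Pι A B g))
    (T : XV A B g → Prop) (α : List (XE A B g)) (v v' : XV A B g) (i : ℕ)
    (γ γ' s : List (XE A B g)) (n n' : XV A B g) : Prop where
  pg : Pg hg hgeo hι T v v' i γ γ' s n n'
  min : ∀ γ2 γ2' s2 n2 n2', Pg hg hgeo hι T v v' i γ2 γ2' s2 n2 n2' →
    H89.mu hg hgeo hι (wrd hg hgeo hι α γ γ' s) ≤ H89.mu hg hgeo hι (wrd hg hgeo hι α γ2 γ2' s2)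

theorem exists_min (α : List (XE A B g)) {v v' : XV A B g} {i : ℕ}
    (h : ∃ γ γ' s n n', Pg hg hgeo hι T v v' i γ γ' s n n') :
    ∃ γ γ' s n n', PgMin hg hgeo hι T α v v' i γ γ' s n n' := by
  classical
  have hex : ∃ m, ∃ γ γ' s n n', Pg hg hgeo hι T v v' i γ γ' s n n' ∧
      H89.mu hg hgeo hι (wrd hg hgeo hι α γ γ' s) = m := by
    obtain ⟨γ, γ', s, n, n', h⟩ := h
    exact ⟨_, γ, γ', s, n, n', h, rfl⟩
  obtain ⟨γ, γ', s, n, n', h1, h2⟩ := Nat.find_spec hex
  refine ⟨γ, γ', s, n, n', h1, ?_⟩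
  intro γ2 γ2' s2 n2 n2' h3
  rw [h2]
  exact Nat.find_min' hex ⟨γ2, γ2', s2, n2, n2', h3, rfl⟩

section corners

variable {α : List (XE A B g)} {v v' : XV A B g} {i : ℕ} {γ γ' s : List (XE A B g)}
  {n n' : XV A B g} {a : ℕ → XE A B g} {W : ℕ → List (XE A B g)} {I : List (List (XE A B g))}

/-- inner vertices of the leg `γ'` -/
theorem leg1 (M : Mods) (hSC : (XX hg hgeo hι).SC) (hT : Tgt T)
    (h : PgMin hg hgeo hι T α v v' i γ γ' s n n') (hα : (XX hg hgeo hι).IsP v α v')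
    (hα1 : 1 ≤ α.length)
    (hB : Bd (XX hg hgeo hι) (wrd hg hgeo hι α γ γ' s).length a W I)
    (ha : ∀ k (hk : k < (wrd hg hgeo hι α γ γ' s).length), a k = (wrd hg hgeo hι α γ γ' s)[k])
    (hM : MaskRed (XX hg hgeo hι) (wrd hg hgeo hι α γ γ' s) W) {k : ℕ} (hk0 : 0 < k)
    (hk : k < i) : 4 ≤ (W (α.length + k)).length := by
  by_contra hcon
  obtain ⟨g1, b, c, g2, hγ', hg1⟩ := split2 (l := γ') (k := k - 1) (by rw [h.pg.l']; omega)
  have hw : wrd hg hgeo hι α γ γ' s = (α ++ g1) ++ b :: c ::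
      (g2 ++ (s ++ (XX hg hgeo hι).rv γ)) := by
    unfold wrd; rw [hγ']; simp
  have hl : (α ++ g1).length + 1 = α.length + k := by
    rw [List.length_append, hg1]; omega
  obtain ⟨R, h1, h2, h3⟩ := site M hSC hB ha hM ⟨_, h.pg.path hα⟩ hw (by
    intro h0
    rw [List.append_eq_nil_iff, List.append_eq_nil_iff] at h0
    rw [h0.1.1] at hα1
    simp at hα1) (by rw [hl]; omega)
  rw [hl] at h1 h2
  have hp := h.pg.p'
  rw [hγ'] at hp
  obtain ⟨z, hp1, hp2⟩ := isP_append.1 hp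
  have hp3 : (XX hg hgeo hι).IsP v' (g1 ++ (R ++ g2)) n' := by
    refine isP_append.2 ⟨z, hp1, isP_append.2 ⟨_, ?_, hp2.2.2⟩⟩
    rw [← hp2.1]; exact h1.isP
  have hlen : γ'.length = g1.length + 2 + g2.length := by rw [hγ']; simp; omega
  have hl' := h.pg.l'
  rcases Nat.lt_or_ge R.length 2 with hR | hR
  · -- shortcut
    have h4 := dT_path hT hp3
    have h5 := h.pg.d'
    simp only [List.length_append] at h4
    omega
  · have hR2 : R.length = 2 := by omega
    have hPg : Pg hg hgeo hι T v v' i γ (g1 ++ (R ++ g2)) s n n' :=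
      ⟨h.pg.p, hp3, h.pg.l, by simp only [List.length_append]; omega, h.pg.d, h.pg.d', h.pg.e⟩
    have h4 := h.min _ _ _ _ _ hPg
    unfold H89.mu at h4
    rw [wrd_len, wrd_len] at h4
    have h5 : wrd hg hgeo hι α γ (g1 ++ (R ++ g2)) s = (α ++ g1) ++ R ++
        (g2 ++ (s ++ (XX hg hgeo hι).rv γ)) := by
      unfold wrd; simp
    rw [h5] at h4
    simp only [List.length_append] at h4
    omega

/-- inner vertices of the leg `γ` -/
theorem leg2 (M : Mods) (hSC : (XX hg hgeo hι).SC) (hT : Tgt T)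
    (h : PgMin hg hgeo hι T α v v' i γ γ' s n n') (hα : (XX hg hgeo hι).IsP v α v')
    (hα1 : 1 ≤ α.length)
    (hB : Bd (XX hg hgeo hι) (wrd hg hgeo hι α γ γ' s).length a W I)
    (ha : ∀ k (hk : k < (wrd hg hgeo hι α γ γ' s).length), a k = (wrd hg hgeo hι α γ γ' s)[k])
    (hM : MaskRed (XX hg hgeo hι) (wrd hg hgeo hι α γ γ' s) W) {k : ℕ} (hk0 : 0 < k)
    (hk : k < i) : 4 ≤ (W (α.length + i + s.length + k)).length := by
  by_contra hcon
  obtain ⟨g1, b, c, g2, hγ, hg1⟩ := split2 (l := (XX hg hgeo hι).rv γ) (k := k - 1)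
    (by rw [rv_length, h.pg.l]; omega)
  have hw : wrd hg hgeo hι α γ γ' s = (α ++ (γ' ++ (s ++ g1))) ++ b :: c :: g2 := by
    unfold wrd; rw [hγ]; simp
  have hl : (α ++ (γ' ++ (s ++ g1))).length + 1 = α.length + i + s.length + k := by
    simp only [List.length_append]
    rw [hg1, h.pg.l']; omega
  obtain ⟨R, h1, h2, h3⟩ := site M hSC hB ha hM ⟨_, h.pg.path hα⟩ hw (by
    intro h0
    rw [List.append_eq_nil_iff, List.append_eq_nil_iff] at h0
    rw [h0.1.1] at hα1
    simp at hα1) (by rw [hl]; omega)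
  rw [hl] at h1 h2
  have hp := h.pg.p.rv
  rw [hγ] at hp
  obtain ⟨z, hp1, hp2⟩ := isP_append.1 hp
  have hp3 : (XX hg hgeo hι).IsP n (g1 ++ (R ++ g2)) v := by
    refine isP_append.2 ⟨z, hp1, isP_append.2 ⟨_, ?_, hp2.2.2⟩⟩
    rw [← hp2.1]; exact h1.isP
  have hlen : γ.length = g1.length + 2 + g2.length := by
    rw [← rv_length (S := XX hg hgeo hι) γ, hγ]; simp; omega
  have hl' := h.pg.l
  rcases Nat.lt_or_ge R.length 2 with hR | hR
  · have h4 := dT_path' hT hp3
    have h5 := h.pg.d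
    simp only [List.length_append] at h4
    omega
  · have hR2 : R.length = 2 := by omega
    have hPg : Pg hg hgeo hι T v v' i ((XX hg hgeo hι).rv (g1 ++ (R ++ g2))) γ' s n n' :=
      ⟨hp3.rv, h.pg.p', by rw [rv_length]; simp only [List.length_append]; omega, h.pg.l',
        h.pg.d, h.pg.d', h.pg.e⟩
    have h4 := h.min _ _ _ _ _ hPg
    unfold H89.mu at h4
    rw [wrd_len, wrd_len] at h4
    have h5 : wrd hg hgeo hι α ((XX hg hgeo hι).rv (g1 ++ (R ++ g2))) γ' s =
        (α ++ (γ' ++ (s ++ g1))) ++ R ++ g2 := by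
      unfold wrd; rw [rv_rv]; simp
    rw [h5] at h4
    simp only [List.length_append, rv_length] at h4
    omega

/-- the foot of `γ'` -/
theorem foot1 (M : Mods) (hSC : (XX hg hgeo hι).SC) (hT : Tgt T)
    (h : PgMin hg hgeo hι T α v v' i γ γ' s n n') (hα : (XX hg hgeo hι).IsP v α v')
    (hα1 : 1 ≤ α.length)
    (hB : Bd (XX hg hgeo hι) (wrd hg hgeo hι α γ γ' s).length a W I)
    (ha : ∀ k (hk : k < (wrd hg hgeo hι α γ γ' s).length), a k = (wrd hg hgeo hι α γ γ' s)[k])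
    (hM : MaskRed (XX hg hgeo hι) (wrd hg hgeo hι α γ γ' s) W) (hi : 1 ≤ i) (hs : s ≠ []) :
    3 ≤ (W (α.length + i)).length := by
  by_contra hcon
  have hγ0 : γ' ≠ [] := by
    intro h0
    have := h.pg.l'
    rw [h0] at this
    simp at this
    omega
  obtain ⟨g1, b, hγ'⟩ : ∃ g1 b, γ' = g1 ++ [b] :=
    ⟨γ'.dropLast, γ'.getLast hγ0, (List.dropLast_append_getLast hγ0).symm⟩
  obtain ⟨c, s', rfl⟩ := List.exists_cons_of_ne_nil hs
  have hg1 : g1.length + 1 = i := by
    rw [← h.pg.l', hγ']; simp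
  have hw : wrd hg hgeo hι α γ γ' (c :: s') = (α ++ g1) ++ b :: c ::
      (s' ++ (XX hg hgeo hι).rv γ) := by
    unfold wrd; rw [hγ']; simp
  have hl : (α ++ g1).length + 1 = α.length + i := by
    rw [List.length_append]; omega
  obtain ⟨R, h1, h2, h3⟩ := site M hSC hB ha hM ⟨_, h.pg.path hα⟩ hw (by
    intro h0
    rw [List.append_eq_nil_iff, List.append_eq_nil_iff] at h0
    rw [h0.1.1] at hα1
    simp at hα1) (by rw [hl]; omega)
  rw [hl] at h1 h2
  have h7 := two_le' hB (α.length + i)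
  have hR1 : R.length = 1 := by omega
  have hp := h.pg.p'
  rw [hγ'] at hp
  obtain ⟨z, hp1, hp2⟩ := isP_append.1 hp
  have hz : (XX hg hgeo hι).src b = z := hp2.1
  have hp3 : (XX hg hgeo hι).IsP v' (g1 ++ R) ((XX hg hgeo hι).tgt c) :=
    isP_append.2 ⟨z, hp1, by rw [← hz]; exact h1.isP⟩
  rcases h.pg.e with ⟨h0, -⟩ | ⟨c0, hc0, hTc, hside⟩
  · exact absurd h0 (by simp)
  have hlv := h.pg.lev_s hT (k := 1) (by simp)
  have hpt : pt (XX hg hgeo hι) n' (c :: s') 1 = (XX hg hgeo hι).tgt c := by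
    simp [pt]
  rw [hpt] at hlv
  have hPg : Pg hg hgeo hι T v v' i γ (g1 ++ R) s' n ((XX hg hgeo hι).tgt c) := by
    refine ⟨h.pg.p, hp3, h.pg.l, by rw [List.length_append]; omega, h.pg.d, ?_, Or.inr
      ⟨c0, hc0, hTc, ⟨hside.1.2, fun e he => hside.2 e (List.mem_cons_of_mem _ he)⟩⟩⟩
    rw [hlv]; exact h.pg.d'
  have h4 := h.min _ _ _ _ _ hPg
  unfold H89.mu at h4
  rw [wrd_len, wrd_len] at h4
  have h5 : wrd hg hgeo hι α γ (g1 ++ R) s' = (α ++ g1) ++ R ++
      (s' ++ (XX hg hgeo hι).rv γ) := by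
    unfold wrd; simp
  rw [h5] at h4
  have hl' := h.pg.l'
  simp only [List.length_append, List.length_cons] at h4
  omega

/-- the foot of `γ` -/
theorem foot2 (M : Mods) (hSC : (XX hg hgeo hι).SC) (hT : Tgt T)
    (h : PgMin hg hgeo hι T α v v' i γ γ' s n n') (hα : (XX hg hgeo hι).IsP v α v')
    (hα1 : 1 ≤ α.length)
    (hB : Bd (XX hg hgeo hι) (wrd hg hgeo hι α γ γ' s).length a W I)
    (ha : ∀ k (hk : k < (wrd hg hgeo hι α γ γ' s).length), a k = (wrd hg hgeo hι α γ γ' s)[k])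
    (hM : MaskRed (XX hg hgeo hι) (wrd hg hgeo hι α γ γ' s) W) (hi : 1 ≤ i) (hs : s ≠ []) :
    3 ≤ (W (α.length + i + s.length)).length := by
  by_contra hcon
  have hγ0 : γ ≠ [] := by
    intro h0
    have := h.pg.l
    rw [h0] at this
    simp at this
    omega
  obtain ⟨g1, b, hγ⟩ : ∃ g1 b, γ = g1 ++ [b] :=
    ⟨γ.dropLast, γ.getLast hγ0, (List.dropLast_append_getLast hγ0).symm⟩
  obtain ⟨s', c, rfl⟩ : ∃ s' c, s = s' ++ [c] :=
    ⟨s.dropLast, s.getLast hs, (List.dropLast_append_getLast hs).symm⟩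
  have hg1 : g1.length + 1 = i := by
    rw [← h.pg.l, hγ]; simp
  have hrv : (XX hg hgeo hι).rv γ = (XX hg hgeo hι).inv b :: (XX hg hgeo hι).rv g1 := by
    rw [hγ, rv_append]; rfl
  have hw : wrd hg hgeo hι α γ γ' (s' ++ [c]) = (α ++ (γ' ++ s')) ++ c ::
      (XX hg hgeo hι).inv b :: (XX hg hgeo hι).rv g1 := by
    unfold wrd; rw [hrv]; simp
  have hl : (α ++ (γ' ++ s')).length + 1 = α.length + i + (s' ++ [c]).length := by
    simp only [List.length_append, List.length_cons, List.length_nil]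
    rw [h.pg.l']; omega
  obtain ⟨R, h1, h2, h3⟩ := site M hSC hB ha hM ⟨_, h.pg.path hα⟩ hw (by
    intro h0
    rw [List.append_eq_nil_iff, List.append_eq_nil_iff] at h0
    rw [h0.1.1] at hα1
    simp at hα1) (by rw [hl]; omega)
  rw [hl] at h1 h2
  have h7 := two_le' hB (α.length + i + (s' ++ [c]).length)
  have hR1 : R.length = 1 := by omega
  obtain ⟨hh, rfl⟩ := List.length_eq_one_iff.1 hR1
  have hip := h1.isP
  rw [tgt_inv] at hip
  have hp := h.pg.p
  rw [hγ] at hp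
  obtain ⟨z, hp1, hp2⟩ := isP_append.1 hp
  have hz : (XX hg hgeo hι).src b = z := hp2.1
  have hp3 : (XX hg hgeo hι).IsP v (g1 ++ [(XX hg hgeo hι).inv hh]) ((XX hg hgeo hι).src c) := by
    refine isP_append.2 ⟨z, hp1, ?_, ?_⟩
    · rw [← hz, src_inv]; exact hip.2
    · change (XX hg hgeo hι).tgt _ = _
      rw [tgt_inv]; exact hip.1
  rcases h.pg.e with ⟨h0, -⟩ | ⟨c0, hc0, hTc, hside⟩
  · exact absurd h0 (by simp)
  obtain ⟨y, hs1, hs2⟩ := hside.split
  have hy : (XX hg hgeo hι).src c = y := hs2.1.1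
  have hlv := h.pg.lev_s hT (k := s'.length) (by simp)
  have hpt : pt (XX hg hgeo hι) n' (s' ++ [c]) s'.length = y := by
    rw [pt_left (le_refl _), pt_len hs1.1]
  have hlv2 := h.pg.lev_s hT (k := (s' ++ [c]).length) (le_refl _)
  rw [pt_len h.pg.side] at hlv2
  rw [hpt] at hlv
  have hPg : Pg hg hgeo hι T v v' i (g1 ++ [(XX hg hgeo hι).inv hh]) γ' s'
      ((XX hg hgeo hι).src c) n' := by
    refine ⟨hp3, h.pg.p', by rw [List.length_append]; simp; omega, h.pg.l', ?_, h.pg.d', Or.inr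
      ⟨c0, hc0, hTc, by rw [hy]; exact hs1⟩⟩
    rw [hy, hlv, ← hlv2]; exact h.pg.d
  have h4 := h.min _ _ _ _ _ hPg
  unfold H89.mu at h4
  rw [wrd_len, wrd_len] at h4
  have h5 : wrd hg hgeo hι α (g1 ++ [(XX hg hgeo hι).inv hh]) γ' s' = (α ++ (γ' ++ s')) ++ [hh] ++
      (XX hg hgeo hι).rv g1 := by
    unfold wrd; simp
  rw [h5] at h4
  have hl' := h.pg.l
  simp only [List.length_append, List.length_cons, List.length_nil] at h4 h3 ⊢
  omega

/-- inner vertices of the side -/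
theorem sint (M : Mods) (hSC : (XX hg hgeo hι).SC) (hA : ∀ x ∈ A, ∀ y ∈ A, x * y = y * x)
    (h : PgMin hg hgeo hι T α v v' i γ γ' s n n') (hα : (XX hg hgeo hι).IsP v α v')
    (hB : Bd (XX hg hgeo hι) (wrd hg hgeo hι α γ γ' s).length a W I)
    (ha : ∀ k (hk : k < (wrd hg hgeo hι α γ γ' s).length), a k = (wrd hg hgeo hι α γ γ' s)[k])
    (hR : AreaRed (XX hg hgeo hι) (wrd hg hgeo hι α γ γ' s) W) {k : ℕ} (hk0 : 0 < k)
    (hk : k < s.length) : 6 ≤ (W (α.length + i + k)).length := by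
  obtain ⟨s1, b, c, s2, hs, hs1⟩ := split2 (l := s) (k := k - 1) (by omega)
  rcases h.pg.e with ⟨h0, -⟩ | ⟨c0, hc0, hTc, hside⟩
  · rw [h0] at hk; simp at hk
  have hw : wrd hg hgeo hι α γ γ' s = (α ++ (γ' ++ s1)) ++ b :: c ::
      (s2 ++ (XX hg hgeo hι).rv γ) := by
    unfold wrd; rw [hs]; simp
  have hlen : (α ++ (γ' ++ s1)).length + 1 = α.length + i + k := by
    simp only [List.length_append]
    rw [hs1, h.pg.l']; omega
  have hN : (wrd hg hgeo hι α γ γ' s).length = (α ++ (γ' ++ s1)).length + 2 +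
      (s2 ++ (XX hg hgeo hι).rv γ).length := by
    rw [hw, List.length_append, List.length_cons, List.length_cons]; omega
  -- the letters
  have wb : ∀ hh, (wrd hg hgeo hι α γ γ' s)[(α ++ (γ' ++ s1)).length]'hh = b := by
    intro hh
    have : ∀ (w : List (XE A B g)) (hh : (α ++ (γ' ++ s1)).length < w.length),
        w = (α ++ (γ' ++ s1)) ++ b :: c :: (s2 ++ (XX hg hgeo hι).rv γ) →
        w[(α ++ (γ' ++ s1)).length]'hh = b := by
      intro w hh hw
      subst hw
      rw [List.getElem_append_right (le_refl _)]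
      simp
    exact this _ hh hw
  have wc : ∀ hh, (wrd hg hgeo hι α γ γ' s)[(α ++ (γ' ++ s1)).length + 1]'hh = c := by
    intro hh
    have : ∀ (w : List (XE A B g)) (hh : (α ++ (γ' ++ s1)).length + 1 < w.length),
        w = (α ++ (γ' ++ s1)) ++ b :: c :: (s2 ++ (XX hg hgeo hι).rv γ) →
        w[(α ++ (γ' ++ s1)).length + 1]'hh = c := by
      intro w hh hw
      subst hw
      rw [List.getElem_append_right (Nat.le_succ _)]
      simp
    exact this _ hh hw
  have cb : car b = c0 := hside.2 b (by rw [hs]; simp)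
  have cc : car c = c0 := hside.2 c (by rw [hs]; simp)
  obtain ⟨q0, hq0⟩ := hc0
  obtain ⟨mb, qb, hb⟩ := H89.plane_letter (by rw [cb, hq0])
  obtain ⟨mc, qc, hc⟩ := H89.plane_letter (by rw [cc, hq0])
  -- pushing
  have push : ∀ (t u : List (XE A B g)) (e f1 f2 : XE A B g), s = t ++ e :: u →
      (XX hg hgeo hι).Tri e f1 f2 → car f1 = car e → car f2 = car e →
      (XX hg hgeo hι).ar ((wrd hg hgeo hι α γ γ' s).take (α.length + i + t.length) ++ f1 :: f2 ::
        (wrd hg hgeo hι α γ γ' s).drop (α.length + i + t.length + 1)) + 1 ≤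
        (XX hg hgeo hι).ar (wrd hg hgeo hι α γ γ' s) → False := by
    intro t u e f1 f2 hst hT h1 h2 h3
    have hs2 : SideP hg hgeo hι c0 n' n (t ++ f1 :: f2 :: u) := by
      rw [hst] at hside
      exact hside.push hT h1 h2
    have hPg : Pg hg hgeo hι T v v' i γ γ' (t ++ f1 :: f2 :: u) n n' :=
      ⟨h.pg.p, h.pg.p', h.pg.l, h.pg.l', h.pg.d, h.pg.d', Or.inr ⟨c0, ⟨q0, hq0⟩, hTc, hs2⟩⟩
    have h4 := h.min _ _ _ _ _ hPg
    have e0 : wrd hg hgeo hι α γ γ' s = (α ++ (γ' ++ t)) ++ e :: (u ++ (XX hg hgeo hι).rv γ) := by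
      unfold wrd; rw [hst]; simp
    have e1 : (α ++ (γ' ++ t)).length = α.length + i + t.length := by
      simp only [List.length_append]; rw [h.pg.l']; omega
    have e2 : (wrd hg hgeo hι α γ γ' s).take (α.length + i + t.length) = α ++ (γ' ++ t) := by
      rw [e0, ← e1, List.take_left]
    have e3 : (wrd hg hgeo hι α γ γ' s).drop (α.length + i + t.length + 1) =
        u ++ (XX hg hgeo hι).rv γ := by
      rw [e0, ← e1, List.drop_append]
      simp
    have e4 : wrd hg hgeo hι α γ γ' (t ++ f1 :: f2 :: u) = (α ++ (γ' ++ t)) ++ f1 :: f2 ::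
        (u ++ (XX hg hgeo hι).rv γ) := by
      unfold wrd; simp
    rw [e2, e3, ← e4] at h3
    unfold H89.mu at h4
    rw [wrd_len, wrd_len, hst] at h4
    rw [hst] at h3
    simp only [List.length_append, List.length_cons] at h4
    omega
  obtain ⟨f1, f2, l, r, hT, hW1, hW2⟩ := hB.edg (α ++ (γ' ++ s1)).length
  obtain ⟨f1', f2', l', r', hT', hW1', hW2'⟩ := hB.edg ((α ++ (γ' ++ s1)).length + 1)
  have ab : a (α ++ (γ' ++ s1)).length = b := by
    rw [ha _ (by omega)]; exact wb _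
  have ac : a ((α ++ (γ' ++ s1)).length + 1) = c := by
    rw [ha _ (by omega)]; exact wc _
  rw [ab] at hT hW1 hW2
  rw [ac] at hT' hW1' hW2'
  have hf2 : car f2 ≠ c0 := by
    intro h1
    have h2 : car f1 = car b := H89.tri_car' hb hT (by rw [h1, cb])
    refine push s1 (c :: s2) b f1 f2 hs hT h2 (by rw [h1, cb]) ?_
    have h3 := hR (α ++ (γ' ++ s1)).length (by omega) f1 f2 l (by rw [wb]; exact hT)
      (by rw [wb]; exact hW1)
    have e1 : (α ++ (γ' ++ s1)).length = α.length + i + s1.length := by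
      simp only [List.length_append]; rw [h.pg.l']; omega
    rw [e1] at h3
    exact h3
  have hf1' : car f1' ≠ c0 := by
    intro h1
    have h2 : car f2' = car c := H89.tri_car hc hT' (by rw [h1, cc])
    refine push (s1 ++ [b]) s2 c f1' f2' (by rw [hs]; simp) hT' (by rw [h1, cc]) h2 ?_
    have h3 := hR ((α ++ (γ' ++ s1)).length + 1) (by omega) f1' f2' l' (by rw [wc]; exact hT')
      (by rw [wc]; exact hW1')
    have e1 : (α ++ (γ' ++ s1)).length + 1 = α.length + i + (s1 ++ [b]).length := by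
      simp only [List.length_append, List.length_cons, List.length_nil]
      rw [h.pg.l']; omega
    rw [e1] at h3
    exact h3
  have hne : xinv b ≠ c := by
    intro h1
    have hs2 : SideP hg hgeo hι c0 n' n (s1 ++ s2) := by
      rw [hs, ← h1] at hside
      exact hside.back
    have hPg : Pg hg hgeo hι T v v' i γ γ' (s1 ++ s2) n n' :=
      ⟨h.pg.p, h.pg.p', h.pg.l, h.pg.l', h.pg.d, h.pg.d', Or.inr ⟨c0, ⟨q0, hq0⟩, hTc, hs2⟩⟩
    have h4 := h.min _ _ _ _ _ hPg
    have h5 := (M.area _ _ _ hSC).2.2.2.2.2.1 (α ++ (γ' ++ s1)) (s2 ++ (XX hg hgeo hι).rv γ) b (by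
      have h6 := h.pg.path hα
      rw [hw, ← h1] at h6
      exact ⟨_, h6⟩)
    have e4 : wrd hg hgeo hι α γ γ' (s1 ++ s2) = (α ++ (γ' ++ s1)) ++
        (s2 ++ (XX hg hgeo hι).rv γ) := by
      unfold wrd; simp
    have e5 : (α ++ (γ' ++ s1)) ++ b :: (XX hg hgeo hι).inv b :: (s2 ++ (XX hg hgeo hι).rv γ) =
        wrd hg hgeo hι α γ γ' s := by
      rw [hw, ← h1]; rfl
    rw [← e4, e5] at h5
    unfold H89.mu at h4
    rw [wrd_len, wrd_len, hs] at h4
    rw [hs] at h5
    simp only [List.length_append, List.length_cons] at h4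
    omega
  have hw6 := H49.tw_ G A B g hg hgeo hι hA (W ((α ++ (γ' ++ s1)).length + 1)) (xinv b) c
    ⟨hB.chain _, by rw [hW2]; rfl, by rw [hW1']; simp⟩
    ⟨xinv b, xinv f2, r, hW2, by rw [car_inv, car_inv, cb]; exact hf2⟩
    ⟨l', f1', c, hW1', by rw [cc]; exact hf1'⟩
    (by rw [hb, xinv_eA, kndE_eA, kndD_isH]) (by rw [car_inv, cb, cc]) hne
  rw [hlen] at hw6
  exact hw6.1

end corners

end Pool.Agent.ABA.B.H83
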