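import Pool.Agent.Helper83_ABA.Geo2

/-!
# PROJ and EDGE (MP_d857f1_al, part B, module GEO)
-/

set_option autoImplicit false

namespace Pool.Agent.ABA.B.H83

open Knd Pool.Agent.ABA Pool.Agent.ABA.B Pool.Agent.ABA.B.TG Pool.Agent.ABA.B.H17

variable {G : Type} [Group G] {A B : Subgroup G} {g : G}
variable {hg : ¬ IsABA A B g} {hgeo : Geo A B} {hι : Function.Injective (Pι A B g)}
variable {T : XV A B g → Prop}

theorem exists_pg (hT : Tgt T) {v v' : XV A B g}
    (hvv : dT hg hgeo hι T v = dT hg hgeo hι T v') (hne : v ≠ v') :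
    ∃ i, (∃ γ γ' s n n', Pg hg hgeo hι T v v' i γ γ' s n n') ∧ NoMeet hg hgeo hι T v v' i ∧
      i ≤ dT hg hgeo hι T v ∧ (i = 0 → dT hg hgeo hι T v = 0) := by
  classical
  by_cases hm : ∃ (i : ℕ) (γ γ' : List (XE A B g)) (n : XV A B g), (XX hg hgeo hι).IsP v γ n ∧
      (XX hg hgeo hι).IsP v' γ' n ∧ γ.length = i ∧ γ'.length = i ∧
      dT hg hgeo hι T n + i = dT hg hgeo hι T v
  · obtain ⟨i, ⟨γ, γ', n, h1, h2, h3, h4, h5⟩, hmin⟩ : ∃ i, (∃ (γ γ' : List (XE A B g))
        (n : XV A B g), (XX hg hgeo hι).IsP v γ n ∧ (XX hg hgeo hι).IsP v' γ' n ∧ γ.length = i ∧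
        γ'.length = i ∧ dT hg hgeo hι T n + i = dT hg hgeo hι T v) ∧
        ∀ j < i, ¬ ∃ (γ γ' : List (XE A B g))
        (n : XV A B g), (XX hg hgeo hι).IsP v γ n ∧ (XX hg hgeo hι).IsP v' γ' n ∧ γ.length = j ∧
        γ'.length = j ∧ dT hg hgeo hι T n + j = dT hg hgeo hι T v :=
      ⟨Nat.find hm, Nat.find_spec hm, fun j hj => Nat.find_min hm hj⟩
    refine ⟨i, ⟨γ, γ', [], n, n, h1, h2, h3, h4, h5, by omega, Or.inl ⟨rfl, rfl⟩⟩, ?_, by omega, ?_⟩
    · intro a δ δ' m ha g1 g2 g3 g4 g5
      exact hmin a ha ⟨δ, δ', m, g1, g2, g3, g4, g5⟩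
    · rintro rfl
      exfalso
      have e1 := List.eq_nil_of_length_eq_zero h3
      have e2 := List.eq_nil_of_length_eq_zero h4
      subst e1
      subst e2
      have h1' : v = n := h1
      have h2' : v' = n := h2
      exact hne (h1'.trans h2'.symm)
  · obtain ⟨y, γ, hy, h1, h2⟩ := exists_geoT (hg := hg) (hgeo := hgeo) (hι := hι) hT v
    obtain ⟨y', γ', hy', h1', h2'⟩ := exists_geoT (hg := hg) (hgeo := hgeo) (hι := hι) hT v'
    have hz := dT_self (hg := hg) (hgeo := hgeo) (hι := hι) hy
    have hz' := dT_self (hg := hg) (hgeo := hgeo) (hι := hι) hy'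
    cases hT with
    | vtx q =>
      exfalso
      have e1 : y = y' := Eq.trans hy (Eq.symm hy')
      subst e1
      exact hm ⟨_, γ, γ', y, h1, h1', rfl, by omega, by omega⟩
    | pl c hc =>
      obtain ⟨s, hs⟩ := car_conn hg hgeo hι hy' hy
      refine ⟨dT hg hgeo hι (On c) v, ⟨γ, γ', s, y, y', h1, h1', h2, by omega, by omega, by omega,
        Or.inr ⟨c, hc, rfl, hs⟩⟩, ?_, le_refl _, id⟩
      intro a δ δ' m ha g1 g2 g3 g4 g5
      exact hm ⟨a, δ, δ', m, g1, g2, g3, g4, g5⟩

theorem six_sum {V E : Type} {S : TG V E} {N : ℕ} {a : ℕ → E} {W : ℕ → List E}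
    {I : List (List E)} (B : Bd S N a W I) (hsys : ∀ v, CRW S v → 6 ≤ v.length) :
    (6 : ℤ) ≤ ∑ k ∈ Finset.range N, ((4 : ℤ) - (W k).length) := by
  have h1 := six_le B hsys
  have h2 := Finset.sum_range_succ (fun k => (4 : ℤ) - (W k).length) N
  have h3 := Finset.sum_range_succ' (fun k => (4 : ℤ) - (W k).length) N
  have h4 : W N = W 0 := by
    have := B.perW 0
    rwa [zero_add] at this
  rw [h4] at h2
  linarith

/-- The total of a minimal polygon. -/
theorem core (M : Mods) (hSC : (XX hg hgeo hι).SC) (hA : ∀ x ∈ A, ∀ y ∈ A, x * y = y * x)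
    (hT : Tgt T) {α : List (XE A B g)} {v v' : XV A B g}
    (hα : (XX hg hgeo hι).IsP v α v') (hα1 : 1 ≤ α.length) (hα2 : α.length ≤ 2)
    (hα3 : ∀ k, 0 < k → k < α.length → dT hg hgeo hι T v <
      dT hg hgeo hι T (pt (XX hg hgeo hι) v α k))
    (hα4 : α.length = 1 → 1 ≤ dT hg hgeo hι T v)
    (hvv : dT hg hgeo hι T v = dT hg hgeo hι T v') (hne : v ≠ v') :
    ∃ (i : ℕ) (γ γ' s : List (XE A B g)) (n n' : XV A B g) (a : ℕ → XE A B g)
      (W : ℕ → List (XE A B g)) (I : List (List (XE A B g))),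
      PgMin hg hgeo hι T α v v' i γ γ' s n n' ∧
      Bd (XX hg hgeo hι) (wrd hg hgeo hι α γ γ' s).length a W I ∧
      (∀ k (hk : k < (wrd hg hgeo hι α γ γ' s).length), a k = (wrd hg hgeo hι α γ γ' s)[k]) ∧
      (i = 0 → dT hg hgeo hι T v = 0) ∧
      (1 ≤ i → (4 : ℤ) ≤ ∑ k ∈ Finset.range α.length, ((4 : ℤ) - (W k).length) +
        ((4 : ℤ) - (W α.length).length)) ∧
      (i = 0 → (6 : ℤ) ≤ ∑ k ∈ Finset.range α.length, ((4 : ℤ) - (W k).length) +
        ((4 : ℤ) - (W α.length).length)) := by
  obtain ⟨i, hex, hno, hi1, hi0⟩ := exists_pg (hg := hg) (hgeo := hgeo) (hι := hι) hT hvv hne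
  obtain ⟨γ, γ', s, n, n', h⟩ := exists_min α hex
  have hpf := pg_pf M hSC hT h.pg hα hα1 hα2 hα3 hvv hne hno
    (fun s' hs' => h.min _ _ _ _ _ hs')
  have hs0 : i = 0 → s ≠ [] := by
    rintro rfl rfl
    have e1 := List.eq_nil_of_length_eq_zero h.pg.l
    have e2 := List.eq_nil_of_length_eq_zero h.pg.l'
    have h1 := h.pg.p
    have h2 := h.pg.p'
    rw [e1] at h1
    rw [e2] at h2
    have h3 := h.pg.side
    have h1' : v = n := h1
    have h2' : v' = n' := h2
    have h3' : n' = n := h3
    exact hne (by rw [h1', h2', h3'])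
  have hlen : (wrd hg hgeo hι α γ γ' s).length = α.length + i + s.length + i := by
    rw [wrd_len, h.pg.l, h.pg.l']
  have hN3 : 3 ≤ (wrd hg hgeo hι α γ γ' s).length := by
    rw [hlen]
    rcases Nat.eq_zero_or_pos i with h0 | h0
    · have h1 : 1 ≤ s.length := List.length_pos_iff.2 (hs0 h0)
      rcases Nat.lt_or_ge α.length 2 with h2 | h2
      · exfalso
        have h3 := hα4 (by omega)
        have h4 := hi0 h0
        omega
      · omega
    · omega
  obtain ⟨a, W, I, hB, ha, hR, hM⟩ := bdyM M hSC (wrd hg hgeo hι α γ γ' s) ⟨_, h.pg.path hα⟩ hpf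
    (by intro h0; rw [h0] at hN3; simp at hN3)
    (by intro e h0; rw [h0] at hN3; simp at hN3)
  have h6 := six_sum hB (hsysX hA)
  refine ⟨i, γ, γ', s, n, n', a, W, I, h, hB, ha, hi0, ?_, ?_⟩
  · intro hi
    rw [hlen, Finset.range_eq_Ico, ← Finset.sum_Ico_consecutive _ (Nat.zero_le α.length)
      (by omega : α.length ≤ α.length + i + s.length + i),
      ← Finset.sum_Ico_consecutive _ (by omega : α.length ≤ α.length + i)
      (by omega : α.length + i ≤ α.length + i + s.length + i),
      ← Finset.sum_Ico_consecutive _ (by omega : α.length + i ≤ α.length + i + s.length)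
      (by omega : α.length + i + s.length ≤ α.length + i + s.length + i)] at h6
    have b2 : ∑ k ∈ Finset.Ico α.length (α.length + i), ((4 : ℤ) - (W k).length) ≤
        (4 : ℤ) - (W α.length).length := by
      apply sum_first_le (by omega)
      intro k hk1 hk2
      obtain ⟨j, rfl⟩ := Nat.exists_eq_add_of_le hk1.le
      have := leg1 M hSC hT h hα hα1 hB ha hM (k := j) (by omega) (by omega)
      omega
    have b4 : ∑ k ∈ Finset.Ico (α.length + i + s.length) (α.length + i + s.length + i),
        ((4 : ℤ) - (W k).length) ≤ (4 : ℤ) - (W (α.length + i + s.length)).length := by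
      apply sum_first_le (by omega)
      intro k hk1 hk2
      obtain ⟨j, rfl⟩ := Nat.exists_eq_add_of_le hk1.le
      have := leg2 M hSC hT h hα hα1 hB ha hM (k := j) (by omega) (by omega)
      omega
    have b3 : ∑ k ∈ Finset.Ico (α.length + i) (α.length + i + s.length),
        ((4 : ℤ) - (W k).length) + ((4 : ℤ) - (W (α.length + i + s.length)).length) ≤ 2 := by
      by_cases hs : s = []
      · subst hs
        have := two_le' hB (α.length + i + ([] : List (XE A B g)).length)
        simp only [List.length_nil, Nat.add_zero, Finset.Ico_self, Finset.sum_empty] at this ⊢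
        omega
      · have f1 := foot1 M hSC hT h hα hα1 hB ha hM hi hs
        have f2 := foot2 M hSC hT h hα hα1 hB ha hM hi hs
        have f3 : ∑ k ∈ Finset.Ico (α.length + i) (α.length + i + s.length),
            ((4 : ℤ) - (W k).length) ≤ (4 : ℤ) - (W (α.length + i)).length := by
          apply sum_first_le (by have := List.length_pos_iff.2 hs; omega)
          intro k hk1 hk2
          obtain ⟨j, rfl⟩ := Nat.exists_eq_add_of_le hk1.le
          have := sint M hSC hA h hα hB ha hR (k := j) (by omega) (by omega)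
          omega
        omega
    rw [Finset.range_eq_Ico]
    linarith
  · intro hi
    have hs := hs0 hi
    subst hi
    rw [hlen, Finset.range_eq_Ico, ← Finset.sum_Ico_consecutive _ (Nat.zero_le α.length)
      (by omega : α.length ≤ α.length + 0 + s.length + 0)] at h6
    have f3 : ∑ k ∈ Finset.Ico α.length (α.length + 0 + s.length + 0),
        ((4 : ℤ) - (W k).length) ≤ (4 : ℤ) - (W α.length).length := by
      apply sum_first_le (by have := List.length_pos_iff.2 hs; omega)
      intro k hk1 hk2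
      obtain ⟨j, rfl⟩ := Nat.exists_eq_add_of_le hk1.le
      have := sint M hSC hA h hα hB ha hR (k := j) (by omega) (by omega)
      simp only [Nat.add_zero] at this
      omega
    rw [Finset.range_eq_Ico]
    linarith

/-- the letter before the position 0 -/
theorem last_letter {α : List (XE A B g)} {v v' : XV A B g} {i : ℕ} {γ γ' s : List (XE A B g)}
    {n n' : XV A B g} {a : ℕ → XE A B g} {W : ℕ → List (XE A B g)} {I : List (List (XE A B g))}
    (hT : Tgt T) (h : Pg hg hgeo hι T v v' i γ γ' s n n') (hi : 1 ≤ i)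
    (hB : Bd (XX hg hgeo hι) (wrd hg hgeo hι α γ γ' s).length a W I)
    (ha : ∀ k (hk : k < (wrd hg hgeo hι α γ γ' s).length), a k = (wrd hg hgeo hι α γ γ' s)[k])
    (h0 : (W 0).length = 2) :
    ∃ f, Proj hg hgeo hι T v f ∧ (XX hg hgeo hι).Cor f (a 0) := by
  obtain ⟨f, γt, rfl⟩ : ∃ f γt, γ = f :: γt := by
    cases γ with
    | nil =>
      have := h.l
      simp at this
      omega
    | cons f γt => exact ⟨f, γt, rfl⟩
  have hN : 0 < (wrd hg hgeo hι α (f :: γt) γ' s).length := by
    rw [wrd_len, h.l]; omega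
  obtain ⟨N', hN'⟩ : ∃ N', (wrd hg hgeo hι α (f :: γt) γ' s).length = N' + 1 :=
    ⟨_, (Nat.succ_pred_eq_of_pos hN).symm⟩
  have h1 : W (N' + 1) = W 0 := by
    have := hB.perW 0
    rwa [zero_add, hN'] at this
  have h2 : a (N' + 1) = a 0 := by
    have := hB.per 0
    rwa [zero_add, hN'] at this
  have h3 := corner_one hB N' (by rw [h1, h0])
  have h4 : a N' = xinv f := by
    rw [ha N' (by omega)]
    have : ∀ (w : List (XE A B g)) (hw : N' < w.length), w.length = N' + 1 →
        w = (α ++ (γ' ++ (s ++ (XX hg hgeo hι).rv γt))) ++ [xinv f] → w[N'] = xinv f := by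
      intro w hw hl hww
      subst hww
      rw [List.length_append] at hl
      rw [List.getElem_append_right (by simp only [List.length_cons, List.length_nil] at hl; omega)]
      simp
    refine this _ _ hN' ?_
    unfold wrd
    rw [rv_cons]
    simp
    rfl
  refine ⟨f, ⟨h.p.1, ?_⟩, ?_⟩
  · have h5 := lev hT h.p (by rw [h.l]; exact h.d) (k := 1) (by rw [h.l]; exact hi)
    have h6 : pt (XX hg hgeo hι) v (f :: γt) 1 = (XX hg hgeo hι).tgt f := by simp [pt]
    rw [h6] at h5
    exact h5
  · rw [h4, h2] at h3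
    have h5 : (XX hg hgeo hι).inv (xinv f) = f := (XX hg hgeo hι).inv_inv f
    rwa [h5] at h3

/-- the first letter of the leg γ' -/
theorem first_letter {α : List (XE A B g)} {v v' : XV A B g} {i : ℕ} {γ γ' s : List (XE A B g)}
    {n n' : XV A B g} {a : ℕ → XE A B g}
    (hT : Tgt T) (h : Pg hg hgeo hι T v v' i γ γ' s n n') (hi : 1 ≤ i)
    (ha : ∀ k (hk : k < (wrd hg hgeo hι α γ γ' s).length), a k = (wrd hg hgeo hι α γ γ' s)[k]) :
    Proj hg hgeo hι T v' (a α.length) := by
  obtain ⟨f, γt, rfl⟩ : ∃ f γt, γ' = f :: γt := by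
    cases γ' with
    | nil =>
      have := h.l'
      simp at this
      omega
    | cons f γt => exact ⟨f, γt, rfl⟩
  have hN : α.length < (wrd hg hgeo hι α γ (f :: γt) s).length := by
    rw [wrd_len, h.l, h.l']; omega
  have h4 : a α.length = f := by
    rw [ha _ hN]
    unfold wrd
    rw [List.getElem_append_right (le_refl _)]
    simp
  rw [h4]
  refine ⟨h.p'.1, ?_⟩
  have h5 := lev hT h.p' (by rw [h.l']; exact h.d') (k := 1) (by rw [h.l']; exact hi)
  have h6 : pt (XX hg hgeo hι) v' (f :: γt) 1 = (XX hg hgeo hι).tgt f := by simp [pt]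
  rw [h6] at h5
  exact h5

theorem adj_ (M : Mods) (hSC : (XX hg hgeo hι).SC) (hA : ∀ x ∈ A, ∀ y ∈ A, x * y = y * x) :
    AdjStmt hg hgeo hι := by
  constructor
  · intro e e' h1 h2
    exact adj_gen M hSC (hsysX hA) h1 h2
  · intro c e h1 h2
    by_contra hne
    have h3 := H89.two_gon (hg := hg) (hgeo := hgeo) (hι := hι) hA M hSC (Ne.symm hne) h1 h2
      (On_src e) (On_tgt e)
    exact no_loop hSC e h3

theorem proj_ (M : Mods) (hSC : (XX hg hgeo hι).SC) (hA : ∀ x ∈ A, ∀ y ∈ A, x * y = y * x) :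
    ProjStmt hg hgeo hι := by
  intro T hT x e e' he he'
  by_cases hee : e = e'
  · exact Or.inl hee
  right
  have hs : xsrc e = xsrc e' := he.1.trans he'.1.symm
  have hne : (XX hg hgeo hι).tgt e ≠ (XX hg hgeo hι).tgt e' := by
    intro h
    exact hee ((adj_ M hSC hA).1 e e' hs h)
  have hvv : dT hg hgeo hι T ((XX hg hgeo hι).tgt e) = dT hg hgeo hι T ((XX hg hgeo hι).tgt e') := by
    have h1 := he.2
    have h2 := he'.2
    omega
  have hα : (XX hg hgeo hι).IsP ((XX hg hgeo hι).tgt e) [(XX hg hgeo hι).inv e, e']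
      ((XX hg hgeo hι).tgt e') := by
    refine ⟨rfl, ?_, rfl⟩
    rw [tgt_inv]
    exact hs.symm
  have hpt : pt (XX hg hgeo hι) ((XX hg hgeo hι).tgt e) [(XX hg hgeo hι).inv e, e'] 1 = x := by
    simp only [pt]
    rw [tgt_inv]
    exact he.1
  obtain ⟨i, γ, γ', s, n, n', a, W, I, h, hB, ha, hi0, hi1, hi2⟩ := core M hSC hA hT hα (by simp)
    (by simp) (by
      intro k hk1 hk2
      have : k = 1 := by
        simp only [List.length_cons, List.length_nil] at hk2
        omega
      subst this
      rw [hpt]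
      have := he.2
      omega) (by simp) hvv hne
  have hlen : 2 ≤ (wrd hg hgeo hι [(XX hg hgeo hι).inv e, e'] γ γ' s).length := by
    rw [wrd_len]; simp only [List.length_cons, List.length_nil]; omega
  have a0 : a 0 = (XX hg hgeo hι).inv e := by
    rw [ha 0 (by omega)]; rfl
  have a1 : a 1 = e' := by
    rw [ha 1 (by omega)]; rfl
  have key : (W 1).length = 2 := by
    have t0 := two_le' hB 0
    have t1 := two_le' hB 1
    have t2 := two_le' hB 2
    rcases Nat.eq_zero_or_pos i with h0 | h0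
    · have h1 := hi2 h0
      simp only [List.length_cons, List.length_nil, Nat.zero_add, Nat.reduceAdd,
        Finset.sum_range_succ, Finset.sum_range_zero] at h1
      omega
    · have h1 := hi1 h0
      simp only [List.length_cons, List.length_nil, Nat.zero_add, Nat.reduceAdd,
        Finset.sum_range_succ, Finset.sum_range_zero] at h1
      have c0 : (W 0).length ≠ 2 := by
        intro hc
        obtain ⟨f, hf, hcor⟩ := last_letter hT h.pg h0 hB ha hc
        rw [a0] at hcor
        obtain ⟨c, hc⟩ := hcor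
        have e1 := Tri.mid' hc
        have e2 := Tri.tgt' hc
        rw [tgt_inv] at e1
        have e3 := (dT_step (hg := hg) (hgeo := hgeo) (hι := hι) hT c).1
        have e4 : xsrc c = x := by
          have : xsrc c = (XX hg hgeo hι).src e := e1
          rw [this]; exact he.1
        rw [e4, e2] at e3
        have h5 := hf.2
        have h6 := he.2
        omega
      have c2 : (W 2).length ≠ 2 := by
        intro hc
        have h3 := corner_one hB 1 hc
        have h4 := first_letter (α := [(XX hg hgeo hι).inv e, e']) hT h.pg h0 ha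
        simp only [List.length_cons, List.length_nil, Nat.zero_add, Nat.reduceAdd] at h4 h3
        rw [a1] at h3
        obtain ⟨c, hc⟩ := h3
        have e1 := Tri.mid' hc
        have e2 := Tri.tgt' hc
        rw [tgt_inv] at e2
        have e3 := (dT_step (hg := hg) (hgeo := hgeo) (hι := hι) hT c).2
        have e4 : (XX hg hgeo hι).tgt c = x := by
          rw [e2]; exact he'.1
        have e5 : xsrc c = (XX hg hgeo hι).tgt (a (1 + 1)) := e1
        rw [e4, e5] at e3
        have h5 := h4.2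
        have h6 := he'.2
        have h7 : dT hg hgeo hι T ((XX hg hgeo hι).tgt (a (1 + 1))) =
          dT hg hgeo hι T ((XX hg hgeo hι).tgt (a 2)) := rfl
        omega
      omega
  have h3 := corner_one hB 0 key
  rw [a0] at h3
  have h4 : a (0 + 1) = e' := a1
  rw [h4, (XX hg hgeo hι).inv_inv] at h3
  exact h3

theorem proj2_ (M : Mods) (hSC : (XX hg hgeo hι).SC) (hA : ∀ x ∈ A, ∀ y ∈ A, x * y = y * x) :
    Proj2Stmt hg hgeo hι := by
  intro T hT x e e' e'' he he' he'' hne
  by_contra hcon
  push Not at hcon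
  have h1 := (proj_ M hSC hA T hT x e e' he he').resolve_left hne
  have h2 := (proj_ M hSC hA T hT x e' e'' he' he'').resolve_left (fun h => hcon.2 h.symm)
  have h3 := (proj_ M hSC hA T hT x e'' e he'' he).resolve_left hcon.1
  have h4 := (H49.oddFour _ _ (XX hg hgeo hι) (hsysX hA)).1 [e, e', e''] (by
    simp only [List.take_succ_cons, List.take_zero, List.cons_append, List.nil_append,
      List.isChain_cons_cons]
    exact ⟨h1, h2, h3, List.isChain_singleton _⟩)
  exact h4.2.1 rfl

theorem edge_ (M : Mods) (hSC : (XX hg hgeo hι).SC) (hA : ∀ x ∈ A, ∀ y ∈ A, x * y = y * x) :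
    EdgeStmt hg hgeo hι := by
  intro T hT m hvv h1
  have hne : xsrc m ≠ (XX hg hgeo hι).tgt m := no_loop hSC m
  have hα : (XX hg hgeo hι).IsP (xsrc m) [m] ((XX hg hgeo hι).tgt m) := ⟨rfl, rfl⟩
  obtain ⟨i, γ, γ', s, n, n', a, W, I, h, hB, ha, hi0, hi1, hi2⟩ := core M hSC hA hT hα (by simp)
    (by simp) (by
      intro k hk1 hk2
      simp only [List.length_cons, List.length_nil] at hk2
      omega) (fun _ => h1) hvv hne
  have hi : 1 ≤ i := by
    rcases Nat.eq_zero_or_pos i with h0 | h0
    · have := hi0 h0; omega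
    · exact h0
  have hN : 1 ≤ (wrd hg hgeo hι [m] γ γ' s).length := by
    rw [wrd_len]; simp only [List.length_cons, List.length_nil]; omega
  have a0 : a 0 = m := by
    rw [ha 0 (by omega)]; rfl
  have t0 := two_le' hB 0
  have t1 := two_le' hB 1
  have h2 := hi1 hi
  simp only [List.length_cons, List.length_nil, Nat.zero_add,
    Finset.sum_range_succ, Finset.sum_range_zero] at h2
  obtain ⟨f, hf, hcor⟩ := last_letter hT h.pg hi hB ha (by omega)
  rw [a0] at hcor
  obtain ⟨c, hc⟩ := hcor
  -- Tri f m c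
  have ht : (XX hg hgeo hι).Tri m f ((XX hg hgeo hι).inv c) := (XX hg hgeo hι).tri_swap hc
  refine ⟨f, (XX hg hgeo hι).inv c, ht, hf, ?_, ?_⟩
  · have e0 : xinv ((XX hg hgeo hι).inv c) = c := (XX hg hgeo hι).inv_inv c
    rw [e0]
    refine ⟨Tri.mid' hc, ?_⟩
    rw [Tri.tgt' hc, ← hvv]
    exact hf.2
  · intro k hk hmk
    by_contra hkf
    have h3 := (proj_ M hSC hA T hT _ k f hk hf).resolve_left hkf
    have h5 : (XX hg hgeo hι).Cor f m := ⟨c, hc⟩
    have h4 := (H49.oddFour _ _ (XX hg hgeo hι) (hsysX hA)).1 [m, k, f] (by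
      simp only [List.take_succ_cons, List.take_zero, List.cons_append, List.nil_append,
        List.isChain_cons_cons]
      exact ⟨hmk, h3, h5, List.isChain_singleton _⟩)
    exact h4.2.1 rfl

end Pool.Agent.ABA.B.H83
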