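import Pool.Agent.Helper83_ABA.Geo3

/-!
# NSEG and STRIP (MP_d857f1_al, part B, module GEO)
-/

set_option autoImplicit false

namespace Pool.Agent.ABA.B.H83

open Knd Pool.Agent.ABA Pool.Agent.ABA.B Pool.Agent.ABA.B.TG Pool.Agent.ABA.B.H17

variable {G : Type} [Group G] {A B : Subgroup G} {g : G}
variable {hg : ¬ IsABA A B g} {hgeo : Geo A B} {hι : Function.Injective (Pι A B g)}
variable {T : XV A B g → Prop}

/-- inner vertices of a side in a plane which minimizes `mu` -/
theorem flat_mu (M : Mods) (hSC : (XX hg hgeo hι).SC) (hA : ∀ x ∈ A, ∀ y ∈ A, x * y = y * x)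
    {c0 : Car A B g} (hc0 : IsPl c0) {x y : XV A B g} {w l s r : List (XE A B g)}
    {a : ℕ → XE A B g} {W : ℕ → List (XE A B g)} {I : List (List (XE A B g))}
    (hw0 : w = l ++ (s ++ r)) (hcl : (XX hg hgeo hι).Cl w)
    (hB : Bd (XX hg hgeo hι) w.length a W I)
    (ha : ∀ k (hk : k < w.length), a k = w[k])
    (hR : AreaRed (XX hg hgeo hι) w W) (hside : SideP hg hgeo hι c0 x y s)
    (hmin : ∀ s', SideP hg hgeo hι c0 x y s' →
      H89.mu hg hgeo hι w ≤ H89.mu hg hgeo hι (l ++ (s' ++ r)))
    {k : ℕ} (hk0 : 0 < k) (hk : k < s.length) : 6 ≤ (W (l.length + k)).length := by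
  obtain ⟨s1, b, c, s2, hs, hs1⟩ := split2 (l := s) (k := k - 1) (by omega)
  have hw : w = (l ++ s1) ++ b :: c :: (s2 ++ r) := by
    rw [hw0, hs]; simp
  have hlen : (l ++ s1).length + 1 = l.length + k := by
    simp only [List.length_append]
    rw [hs1]; omega
  have hN : w.length = (l ++ s1).length + 2 + (s2 ++ r).length := by
    rw [hw, List.length_append, List.length_cons, List.length_cons]; omega
  have wb : ∀ hh, w[(l ++ s1).length]'hh = b := by
    intro hh
    have : ∀ (w : List (XE A B g)) (hh : (l ++ s1).length < w.length),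
        w = (l ++ s1) ++ b :: c :: (s2 ++ r) → w[(l ++ s1).length]'hh = b := by
      intro w hh hw
      subst hw
      rw [List.getElem_append_right (le_refl _)]
      simp
    exact this _ hh hw
  have wc : ∀ hh, w[(l ++ s1).length + 1]'hh = c := by
    intro hh
    have : ∀ (w : List (XE A B g)) (hh : (l ++ s1).length + 1 < w.length),
        w = (l ++ s1) ++ b :: c :: (s2 ++ r) → w[(l ++ s1).length + 1]'hh = c := by
      intro w hh hw
      subst hw
      rw [List.getElem_append_right (Nat.le_succ _)]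
      simp
    exact this _ hh hw
  have cb : car b = c0 := hside.2 b (by rw [hs]; simp)
  have cc : car c = c0 := hside.2 c (by rw [hs]; simp)
  obtain ⟨q0, hq0⟩ := hc0
  obtain ⟨mb, qb, hb⟩ := H89.plane_letter (by rw [cb, hq0])
  obtain ⟨mc, qc, hc⟩ := H89.plane_letter (by rw [cc, hq0])
  have push : ∀ (t u : List (XE A B g)) (e f1 f2 : XE A B g), s = t ++ e :: u →
      (XX hg hgeo hι).Tri e f1 f2 → car f1 = car e → car f2 = car e →
      (XX hg hgeo hι).ar (w.take (l.length + t.length) ++ f1 :: f2 ::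
        w.drop (l.length + t.length + 1)) + 1 ≤ (XX hg hgeo hι).ar w → False := by
    intro t u e f1 f2 hst hT h1 h2 h3
    have hs2 : SideP hg hgeo hι c0 x y (t ++ f1 :: f2 :: u) := by
      rw [hst] at hside
      exact hside.push hT h1 h2
    have h4 := hmin _ hs2
    have e0 : w = (l ++ t) ++ e :: (u ++ r) := by
      rw [hw0, hst]; simp
    have e1 : (l ++ t).length = l.length + t.length := by
      simp only [List.length_append]
    have e2 : w.take (l.length + t.length) = l ++ t := by
      rw [e0, ← e1, List.take_left]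
    have e3 : w.drop (l.length + t.length + 1) = u ++ r := by
      rw [e0, ← e1, List.drop_append]
      simp
    have e4 : l ++ ((t ++ f1 :: f2 :: u) ++ r) = (l ++ t) ++ f1 :: f2 :: (u ++ r) := by
      simp
    rw [e2, e3, ← e4] at h3
    unfold H89.mu at h4
    have e5 : w.length = l.length + s.length + r.length := by
      rw [hw0]; simp only [List.length_append]; omega
    rw [e5, hst] at h4
    simp only [List.length_append, List.length_cons] at h4
    omega
  obtain ⟨f1, f2, l1, r1, hT, hW1, hW2⟩ := hB.edg (l ++ s1).length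
  obtain ⟨f1', f2', l', r', hT', hW1', hW2'⟩ := hB.edg ((l ++ s1).length + 1)
  have ab : a (l ++ s1).length = b := by
    rw [ha _ (by omega)]; exact wb _
  have ac : a ((l ++ s1).length + 1) = c := by
    rw [ha _ (by omega)]; exact wc _
  rw [ab] at hT hW1 hW2
  rw [ac] at hT' hW1' hW2'
  have hf2 : car f2 ≠ c0 := by
    intro h1
    have h2 : car f1 = car b := H89.tri_car' hb hT (by rw [h1, cb])
    refine push s1 (c :: s2) b f1 f2 hs hT h2 (by rw [h1, cb]) ?_
    have h3 := hR (l ++ s1).length (by omega) f1 f2 l1 (by rw [wb]; exact hT)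
      (by rw [wb]; exact hW1)
    have e1 : (l ++ s1).length = l.length + s1.length := by
      simp only [List.length_append]
    rw [e1] at h3
    exact h3
  have hf1' : car f1' ≠ c0 := by
    intro h1
    have h2 : car f2' = car c := H89.tri_car hc hT' (by rw [h1, cc])
    refine push (s1 ++ [b]) s2 c f1' f2' (by rw [hs]; simp) hT' (by rw [h1, cc]) h2 ?_
    have h3 := hR ((l ++ s1).length + 1) (by omega) f1' f2' l' (by rw [wc]; exact hT')
      (by rw [wc]; exact hW1')
    have e1 : (l ++ s1).length + 1 = l.length + (s1 ++ [b]).length := by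
      simp only [List.length_append, List.length_cons, List.length_nil]
      omega
    rw [e1] at h3
    exact h3
  have hne : xinv b ≠ c := by
    intro h1
    have hs2 : SideP hg hgeo hι c0 x y (s1 ++ s2) := by
      rw [hs, ← h1] at hside
      exact hside.back
    have h4 := hmin _ hs2
    have h5 := (M.area _ _ _ hSC).2.2.2.2.2.1 (l ++ s1) (s2 ++ r) b (by
      rw [hw, ← h1] at hcl
      exact hcl)
    have e4 : l ++ ((s1 ++ s2) ++ r) = (l ++ s1) ++ (s2 ++ r) := by simp
    have e5 : (l ++ s1) ++ b :: (XX hg hgeo hι).inv b :: (s2 ++ r) = w := by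
      rw [hw, ← h1]; rfl
    rw [← e4, e5] at h5
    unfold H89.mu at h4
    have e6 : w.length = l.length + s.length + r.length := by
      rw [hw0]; simp only [List.length_append]; omega
    rw [e6, hs] at h4
    simp only [List.length_append, List.length_cons] at h4
    omega
  have hw6 := H49.tw_ G A B g hg hgeo hι hA (W ((l ++ s1).length + 1)) (xinv b) c
    ⟨hB.chain _, by rw [hW2]; rfl, by rw [hW1']; simp⟩
    ⟨xinv b, xinv f2, r1, hW2, by rw [car_inv, car_inv, cb]; exact hf2⟩
    ⟨l', f1', c, hW1', by rw [cc]; exact hf1'⟩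
    (by rw [hb, xinv_eA, kndE_eA, kndD_isH]) (by rw [car_inv, cb, cc]) hne
  rw [hlen] at hw6
  exact hw6.1

/-- A polygon over a path `α` in a plane above the level of `v`. -/
theorem pg_pf2 (hT : Tgt T) {α : List (XE A B g)}
    {v v' : XV A B g} {i : ℕ} {γ γ' s : List (XE A B g)} {n n' : XV A B g} {cα : Car A B g}
    (h : Pg hg hgeo hι T v v' i γ γ' s n n') (hα : SideP hg hgeo hι cα v v' α)
    (hα3 : ∀ k, k ≤ α.length → dT hg hgeo hι T v ≤
      dT hg hgeo hι T (pt (XX hg hgeo hι) v α k))
    (hvv : dT hg hgeo hι T v = dT hg hgeo hι T v') (hi : 1 ≤ i)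
    (hno : NoMeet hg hgeo hι T v v' i)
    (hmin : ∀ s', Pg hg hgeo hι T v v' i γ γ' s' n n' →
      H89.mu hg hgeo hι (wrd hg hgeo hι α γ γ' s) ≤ H89.mu hg hgeo hι (wrd hg hgeo hι α γ γ' s'))
    (hminα : ∀ α', SideP hg hgeo hι cα v v' α' →
      H89.mu hg hgeo hι (wrd hg hgeo hι α γ γ' s) ≤ H89.mu hg hgeo hι (wrd hg hgeo hι α' γ γ' s)) :
    (XX hg hgeo hι).PF (wrd hg hgeo hι α γ γ' s) := by
  intro l p r hw hp0 hlr hcl
  have hpath := h.path hα.1
  have hlen : l.length + p.length + r.length = α.length + i + s.length + i := by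
    have h1 := congrArg List.length hw
    rw [wrd_len, h.l, h.l'] at h1
    simp only [List.length_append] at h1
    omega
  have hp1 : 1 ≤ p.length := List.length_pos_iff.2 hp0
  have hlr1 : 1 ≤ (l ++ r).length := List.length_pos_iff.2 hlr
  rw [List.length_append] at hlr1
  have hco := pt_block (S := XX hg hgeo hι) (by rw [← hw]; exact hpath) hp0 hcl
  rw [← hw] at hco
  -- levels
  have L2 : ∀ k ≤ i, dT hg hgeo hι T (pt (XX hg hgeo hι) v (wrd hg hgeo hι α γ γ' s)
      (α.length + k)) + k = dT hg hgeo hι T v := by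
    intro k hk
    rw [h.pt2 hα.1 k hk, hvv]
    exact lev hT h.p' (by rw [h.l']; exact h.d') (by rw [h.l']; exact hk)
  have L3 : ∀ k ≤ s.length, dT hg hgeo hι T (pt (XX hg hgeo hι) v (wrd hg hgeo hι α γ γ' s)
      (α.length + i + k)) + i = dT hg hgeo hι T v := by
    intro k hk
    rw [h.pt3 hα.1 k hk, h.lev_s hT hk, hvv]
    exact h.d'
  have L4 : ∀ k ≤ i, dT hg hgeo hι T (pt (XX hg hgeo hι) v (wrd hg hgeo hι α γ γ' s)
      (α.length + i + s.length + k)) + (i - k) = dT hg hgeo hι T v := by
    intro k hk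
    rw [h.pt4 hα.1 k hk]
    exact lev hT h.p (by rw [h.l]; exact h.d) (by rw [h.l]; omega)
  -- cutting a closed block of the side
  have cut : α.length + i ≤ l.length → l.length + p.length ≤ α.length + i + s.length →
      (XX hg hgeo hι).ar (wrd hg hgeo hι α γ γ' s) < (XX hg hgeo hι).ar p +
        (XX hg hgeo hι).ar (l ++ r) := by
    intro h1 h2
    have e1 : (α ++ γ') ++ (s ++ (XX hg hgeo hι).rv γ) = l ++ (p ++ r) := by
      rw [← List.append_assoc l, ← hw]
      unfold wrd
      simp
    obtain ⟨s1, hs1, hs1'⟩ := split_le e1 (by rw [List.length_append, h.l']; exact h1)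
    -- s ++ rv γ = s1 ++ (p ++ r)
    have e2 : (s1 ++ p) ++ r = s ++ (XX hg hgeo hι).rv γ := by
      rw [hs1', List.append_assoc]
    obtain ⟨s3, hs3, hs3'⟩ := split_le e2 (by
      rw [hs1, List.length_append, List.length_append, h.l'] at h2
      rw [List.length_append]
      omega)
    have hPg : Pg hg hgeo hι T v v' i γ γ' (s1 ++ s3) n n' := by
      refine ⟨h.p, h.p', h.l, h.l', h.d, h.d', ?_⟩
      rcases h.e with ⟨h3, h4⟩ | ⟨c, hc, hTc, h3⟩
      · exfalso
        rw [hs3] at h3
        simp only [List.append_eq_nil_iff] at h3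
        exact hp0 h3.1.2
      · right
        refine ⟨c, hc, hTc, ?_⟩
        rw [hs3] at h3
        exact h3.cut hp0 hcl
    have h5 := hmin _ hPg
    have e3 : wrd hg hgeo hι α γ γ' (s1 ++ s3) = l ++ r := by
      unfold wrd
      rw [hs1, hs3']
      simp
    rw [e3] at h5
    unfold H89.mu at h5
    have h6 : (wrd hg hgeo hι α γ γ' s).length = l.length + p.length + r.length := by
      rw [hw]; simp only [List.length_append]
    rw [h6, List.length_append] at h5
    omega
  -- cutting a closed block of α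
  have cutα : l.length + p.length ≤ α.length →
      (XX hg hgeo hι).ar (wrd hg hgeo hι α γ γ' s) < (XX hg hgeo hι).ar p +
        (XX hg hgeo hι).ar (l ++ r) := by
    intro h2
    have e2 : (l ++ p) ++ r = α ++ (γ' ++ (s ++ (XX hg hgeo hι).rv γ)) := by
      rw [← hw]; rfl
    obtain ⟨s3, hs3, hs3'⟩ := split_le e2 (by rw [List.length_append]; exact h2)
    have hα2 : SideP hg hgeo hι cα v v' (l ++ s3) := by
      have := hα
      rw [hs3] at this
      exact this.cut hp0 hcl
    have h5 := hminα _ hα2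
    have e3 : wrd hg hgeo hι (l ++ s3) γ γ' s = l ++ r := by
      unfold wrd
      rw [hs3']
      simp
    rw [e3] at h5
    unfold H89.mu at h5
    have h6 : (wrd hg hgeo hι α γ γ' s).length = l.length + p.length + r.length := by
      rw [hw]; simp only [List.length_append]
    rw [h6, List.length_append] at h5
    omega
  -- the regions of the two points
  rcases Nat.lt_or_ge l.length α.length with hl1 | hl1
  · rcases Nat.lt_or_ge α.length (l.length + p.length) with hl2 | hl2
    · have h3 := hα3 l.length hl1.le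
      rw [Pg.pt1 _ hl1.le] at hco
      obtain ⟨k, hk⟩ := Nat.exists_eq_add_of_le hl2.le
      rw [hco, hk] at h3
      rcases Nat.lt_or_ge k i with h4 | h4
      · exfalso
        have h5 := L2 k h4.le
        omega
      · obtain ⟨k', rfl⟩ := Nat.exists_eq_add_of_le h4
        rw [← Nat.add_assoc] at h3
        rcases Nat.lt_or_ge s.length k' with h6 | h6
        · obtain ⟨k2, rfl⟩ := Nat.exists_eq_add_of_le h6.le
          have h5 := L4 k2 (by omega)
          rw [← Nat.add_assoc] at h3
          -- the second point is v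
          have hk2 : k2 = i := by omega
          subst hk2
          have hr : r.length = 0 := by omega
          have hr0 : r = [] := List.eq_nil_of_length_eq_zero hr
          subst hr0
          rw [List.length_nil, Nat.add_zero] at hlr1
          rw [List.append_nil]
          have hpv : pt (XX hg hgeo hι) v α l.length = v := by
            rw [hco, hk, ← Nat.add_assoc, ← Nat.add_assoc, h.pt4 hα.1 k2 (le_refl _),
              Nat.sub_self, pt_zero]
          have e2 : l ++ (p ++ []) = α ++ (γ' ++ (s ++ (XX hg hgeo hι).rv γ)) := by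
            rw [← List.append_assoc, ← hw]; rfl
          obtain ⟨s3, hs3, hs3'⟩ := split_le e2 hl1.le
          obtain ⟨y, h7, h8⟩ : ∃ y, SideP hg hgeo hι cα v y l ∧ SideP hg hgeo hι cα y v' s3 := by
            have := hα
            rw [hs3] at this
            exact this.split
          have hy : y = v := by
            rw [← hpv, hs3, pt_left (le_refl _), pt_len h7.1]
          rw [hy] at h8
          have h9 := hminα _ h8
          have e3 : wrd hg hgeo hι s3 γ γ' s = p := by
            unfold wrd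
            rw [← hs3', List.append_nil]
          rw [e3] at h9
          unfold H89.mu at h9
          have h6 : (wrd hg hgeo hι α γ γ' s).length = l.length + p.length := by
            rw [hw]; simp only [List.length_append, List.length_nil, Nat.add_zero]
          rw [h6] at h9
          omega
        · exfalso
          have h5 := L3 k' h6
          omega
    · exact cutα hl2
  · obtain ⟨k, hk⟩ := Nat.exists_eq_add_of_le hl1
    rcases Nat.lt_or_ge k i with h1 | h1
    · -- the first point is on γ'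
      exfalso
      have h2 := L2 k h1.le
      rw [← hk] at h2
      obtain ⟨m, hm⟩ := Nat.exists_eq_add_of_le (show α.length ≤ l.length + p.length by omega)
      rw [hco] at h2
      rw [hm] at h2
      rcases Nat.lt_or_ge m i with h4 | h4
      · have h5 := L2 m h4.le
        omega
      · obtain ⟨k', rfl⟩ := Nat.exists_eq_add_of_le h4
        rw [← Nat.add_assoc] at h2
        rcases Nat.lt_or_ge s.length k' with h6 | h6
        · obtain ⟨k2, rfl⟩ := Nat.exists_eq_add_of_le h6.le
          rw [← Nat.add_assoc] at h2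
          have h5 := L4 k2 (by omega)
          have hik : i - k2 = k := by omega
          -- common vertex
          have e1 : pt (XX hg hgeo hι) v' γ' k = pt (XX hg hgeo hι) v γ k := by
            rw [← h.pt2 hα.1 k h1.le, ← hk, hco, hm, ← Nat.add_assoc, ← Nat.add_assoc,
              h.pt4 hα.1 k2 (by omega), hik]
          obtain ⟨g1, -⟩ := isP_take h.p (k := k) (by rw [h.l]; exact h1.le)
          obtain ⟨g2, -⟩ := isP_take h.p' (k := k) (by rw [h.l']; exact h1.le)
          rw [e1] at g2
          refine hno k _ _ _ h1 g1 g2 (by rw [List.length_take, h.l]; omega)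
            (by rw [List.length_take, h.l']; omega) ?_
          exact lev hT h.p (by rw [h.l]; exact h.d) (by rw [h.l]; exact h1.le)
        · have h5 := L3 k' h6
          omega
    · obtain ⟨k', rfl⟩ := Nat.exists_eq_add_of_le h1
      rcases Nat.lt_or_ge s.length k' with h6 | h6
      · -- the first point is on γ
        exfalso
        obtain ⟨k2, rfl⟩ := Nat.exists_eq_add_of_le h6.le
        have h5 := L4 k2 (by omega)
        have h7 := L4 (k2 + p.length) (by omega)
        rw [show α.length + i + s.length + k2 = l.length by omega, hco] at h5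
        rw [show α.length + i + s.length + (k2 + p.length) = l.length + p.length by omega] at h7
        omega
      · -- the first point is on the side
        rcases Nat.lt_or_ge (α.length + i + s.length) (l.length + p.length) with h7 | h7
        · exfalso
          obtain ⟨k2, hk2⟩ := Nat.exists_eq_add_of_le h7.le
          have h5 := L4 k2 (by omega)
          rw [← hk2, ← hco] at h5
          have h8 := L3 k' h6
          rw [show α.length + i + k' = l.length by omega] at h8
          omega
        · exact cut (by omega) h7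

/-- The total of a minimal polygon, for a general path `α`. -/
theorem core2 (M : Mods) (hSC : (XX hg hgeo hι).SC) (hA : ∀ x ∈ A, ∀ y ∈ A, x * y = y * x)
    (hT : Tgt T) {α : List (XE A B g)} {v v' : XV A B g}
    {i : ℕ} {γ γ' s : List (XE A B g)} {n n' : XV A B g}
    (h : PgMin hg hgeo hι T α v v' i γ γ' s n n')
    (hα : (XX hg hgeo hι).IsP v α v') (hα1 : 1 ≤ α.length) (hi : 1 ≤ i)
    (hpf : (XX hg hgeo hι).PF (wrd hg hgeo hι α γ γ' s)) :
    ∃ (a : ℕ → XE A B g) (W : ℕ → List (XE A B g)) (I : List (List (XE A B g))),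
      Bd (XX hg hgeo hι) (wrd hg hgeo hι α γ γ' s).length a W I ∧
      (∀ k (hk : k < (wrd hg hgeo hι α γ γ' s).length), a k = (wrd hg hgeo hι α γ γ' s)[k]) ∧
      AreaRed (XX hg hgeo hι) (wrd hg hgeo hι α γ γ' s) W ∧
      (4 : ℤ) ≤ ∑ k ∈ Finset.range α.length, ((4 : ℤ) - (W k).length) +
        ((4 : ℤ) - (W α.length).length) := by
  have hlen : (wrd hg hgeo hι α γ γ' s).length = α.length + i + s.length + i := by
    rw [wrd_len, h.pg.l, h.pg.l']
  have hN3 : 3 ≤ (wrd hg hgeo hι α γ γ' s).length := by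
    rw [hlen]; omega
  obtain ⟨a, W, I, hB, ha, hR, hM⟩ := bdyM M hSC (wrd hg hgeo hι α γ γ' s) ⟨_, h.pg.path hα⟩ hpf
    (by intro h0; rw [h0] at hN3; simp at hN3)
    (by intro e h0; rw [h0] at hN3; simp at hN3)
  have h6 := six_sum hB (hsysX hA)
  refine ⟨a, W, I, hB, ha, hR, ?_⟩
  rw [hlen, Finset.range_eq_Ico, ← Finset.sum_Ico_consecutive _ (Nat.zero_le α.length)
    (by omega : α.length ≤ α.length + i + s.length + i),
    ← Finset.sum_Ico_consecutive _ (by omega : α.length ≤ α.length + i)
    (by omega : α.length + i ≤ α.length + i + s.length + i),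
    ← Finset.sum_Ico_consecutive _ (by omega : α.length + i ≤ α.length + i + s.length)
    (by omega : α.length + i + s.length ≤ α.length + i + s.length + i)] at h6
  have b2 : ∑ k ∈ Finset.Ico α.length (α.length + i), ((4 : ℤ) - (W k).length) ≤
      (4 : ℤ) - (W α.length).length := by
    apply sum_first_le (by omega)
    intro k hk1 hk2
    obtain ⟨j, rfl⟩ := Nat.exists_eq_add_of_le hk1.le
    have := leg1 M hSC hT h hα hα1 hB ha hM (k := j) (by omega) (by omega)
    omega
  have b4 : ∑ k ∈ Finset.Ico (α.length + i + s.length) (α.length + i + s.length + i),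
      ((4 : ℤ) - (W k).length) ≤ (4 : ℤ) - (W (α.length + i + s.length)).length := by
    apply sum_first_le (by omega)
    intro k hk1 hk2
    obtain ⟨j, rfl⟩ := Nat.exists_eq_add_of_le hk1.le
    have := leg2 M hSC hT h hα hα1 hB ha hM (k := j) (by omega) (by omega)
    omega
  have b3 : ∑ k ∈ Finset.Ico (α.length + i) (α.length + i + s.length),
      ((4 : ℤ) - (W k).length) + ((4 : ℤ) - (W (α.length + i + s.length)).length) ≤ 2 := by
    by_cases hs : s = []
    · subst hs
      have := two_le' hB (α.length + i + ([] : List (XE A B g)).length)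
      simp only [List.length_nil, Nat.add_zero, Finset.Ico_self, Finset.sum_empty] at this ⊢
      omega
    · have f1 := foot1 M hSC hT h hα hα1 hB ha hM hi hs
      have f2 := foot2 M hSC hT h hα hα1 hB ha hM hi hs
      have f3 : ∑ k ∈ Finset.Ico (α.length + i) (α.length + i + s.length),
          ((4 : ℤ) - (W k).length) ≤ (4 : ℤ) - (W (α.length + i)).length := by
        apply sum_first_le (by have := List.length_pos_iff.2 hs; omega)
        intro k hk1 hk2
        obtain ⟨j, rfl⟩ := Nat.exists_eq_add_of_le hk1.le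
        have := sint M hSC hA h hα hB ha hR (k := j) (by omega) (by omega)
        omega
      omega
  rw [Finset.range_eq_Ico]
  linarith

theorem nseg_ (M : Mods) (hSC : (XX hg hgeo hι).SC) (hA : ∀ x ∈ A, ∀ y ∈ A, x * y = y * x) :
    NsegStmt hg hgeo hι := by
  classical
  intro c c' hc hc' hn x x' hx hx' hne hd hd'
  have hT : Tgt (On c') := Tgt.pl c' hc'
  have hdx : dT hg hgeo hι (On c') x = dCC hg hgeo hι c c' := hd
  have hdx' : dT hg hgeo hι (On c') x' = dCC hg hgeo hι c c' := hd'
  have hvv : dT hg hgeo hι (On c') x = dT hg hgeo hι (On c') x' := by rw [hdx, hdx']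
  have hlow : ∀ y, On c y → dCC hg hgeo hι c c' ≤ dT hg hgeo hι (On c') y := by
    intro y hy
    exact dCC_le_dVC hy
  -- the letter
  obtain ⟨m, hm1, hm2, hm3⟩ : ∃ m, xsrc m = x ∧ (XX hg hgeo hι).tgt m = x' ∧ car m = c := by
    obtain ⟨i, hex, hno, hi1, hi0⟩ := exists_pg (hg := hg) (hgeo := hgeo) (hι := hι) hT hvv hne
    have hi : 1 ≤ i := by
      rcases Nat.eq_zero_or_pos i with h0 | h0
      · have := hi0 h0; omega
      · exact h0
    obtain ⟨α0, hα0⟩ := car_conn hg hgeo hι hx hx'
    have hexm : ∃ m, ∃ α γ γ' s n n', SideP hg hgeo hι c x x' α ∧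
        Pg hg hgeo hι (On c') x x' i γ γ' s n n' ∧
        H89.mu hg hgeo hι (wrd hg hgeo hι α γ γ' s) = m := by
      obtain ⟨γ, γ', s, n, n', h⟩ := hex
      exact ⟨_, α0, γ, γ', s, n, n', hα0, h, rfl⟩
    obtain ⟨α, γ, γ', s, n, n', hα, h1, h2⟩ := Nat.find_spec hexm
    have hmin : ∀ α' γ2 γ2' s2 n2 n2', SideP hg hgeo hι c x x' α' →
        Pg hg hgeo hι (On c') x x' i γ2 γ2' s2 n2 n2' →
        H89.mu hg hgeo hι (wrd hg hgeo hι α γ γ' s) ≤
          H89.mu hg hgeo hι (wrd hg hgeo hι α' γ2 γ2' s2) := by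
      intro α' γ2 γ2' s2 n2 n2' h3 h4
      rw [h2]
      exact Nat.find_min' hexm ⟨α', γ2, γ2', s2, n2, n2', h3, h4, rfl⟩
    have hP : PgMin hg hgeo hι (On c') α x x' i γ γ' s n n' :=
      ⟨h1, fun γ2 γ2' s2 n2 n2' h3 => hmin _ _ _ _ _ _ hα h3⟩
    have hα1 : 1 ≤ α.length := by
      rcases Nat.eq_zero_or_pos α.length with h0 | h0
      · exfalso
        have h3 := List.eq_nil_of_length_eq_zero h0
        rw [h3] at hα
        exact hne hα.nil_eq
      · exact h0
    have hon : ∀ k, k ≤ α.length → On c (pt (XX hg hgeo hι) x α k) := by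
      intro k hk
      obtain ⟨h3, h4⟩ := isP_take hα.1 hk
      have h5 : SideP hg hgeo hι c x (pt (XX hg hgeo hι) x α k) (α.take k) :=
        ⟨h3, fun e he => hα.2 e (List.mem_of_mem_take he)⟩
      exact h5.on hx
    have hpf := pg_pf2 hT h1 hα (by
      intro k hk
      rw [hdx]
      exact hlow _ (hon k hk)) hvv hi hno (fun s' hs' => hmin _ _ _ _ _ _ hα hs')
      (fun α' hα' => hmin _ _ _ _ _ _ hα' h1)
    obtain ⟨a, W, I, hB, ha, hR, h4⟩ := core2 M hSC hA hT hP hα.1 hα1 hi hpf
    have hin : ∀ k, 0 < k → k < α.length → 6 ≤ (W k).length := by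
      intro k hk0 hk
      have := flat_mu M hSC hA hc (l := []) (s := α) (r := γ' ++ (s ++ (XX hg hgeo hι).rv γ))
        (w := wrd hg hgeo hι α γ γ' s) rfl ⟨_, h1.path hα.1⟩ hB ha hR hα
        (fun s' hs' => hmin _ _ _ _ _ _ hs' h1) hk0 hk
      simpa using this
    have t0 := two_le' hB 0
    have t1 := two_le' hB α.length
    have h5 : ∑ k ∈ Finset.range α.length, ((4 : ℤ) - (W k).length) ≤
        2 - 2 * ((α.length : ℤ) - 1) := by
      obtain ⟨k, hk⟩ : ∃ k, α.length = k + 1 := ⟨α.length - 1, by omega⟩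
      rw [hk, Finset.sum_range_succ']
      have h6 : ∑ j ∈ Finset.range k, ((4 : ℤ) - (W (j + 1)).length) ≤
          ∑ j ∈ Finset.range k, (-2 : ℤ) := by
        apply Finset.sum_le_sum
        intro j hj
        rw [Finset.mem_range] at hj
        have := hin (j + 1) (by omega) (by omega)
        omega
      rw [Finset.sum_const, Finset.card_range, nsmul_eq_mul] at h6
      push_cast
      omega
    have h6 : α.length = 1 := by omega
    obtain ⟨m, rfl⟩ := List.length_eq_one_iff.1 h6
    exact ⟨m, hα.1.1, hα.1.2, hα.2 m (by simp)⟩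
  have hE := edge_ (hg := hg) (hgeo := hgeo) (hι := hι) M hSC hA (On c') hT m
    (by rw [hm1, hm2]; exact hvv) (by rw [hm1, hdx]; exact hn)
  obtain ⟨f, f', hf1, hf2, hf3, -⟩ := hE
  rw [hm1] at hf2
  rw [hm2] at hf3
  refine ⟨m, f, f', hm1, hm2, hm3, hf1, hf2, hf3, ?_, ?_⟩
  · intro h1
    have h2 := hf2.2
    have h3 := hlow ((XX hg hgeo hι).tgt f) (by rw [← h1]; exact On_tgt f)
    omega
  · intro h1
    have h2 := hf3.2
    rw [hdx'] at h2
    have h3 := hlow ((XX hg hgeo hι).tgt (xinv f')) (by
      rw [← h1]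
      have : (XX hg hgeo hι).tgt (xinv f') = xsrc f' := tgt_inv (S := XX hg hgeo hι) f'
      rw [this]; exact On_src f')
    omega

/-! ## strips -/

theorem Cor.src {e h : XE A B g} (hc : (XX hg hgeo hι).Cor e h) :
    (XX hg hgeo hι).src h = (XX hg hgeo hι).src e := by
  obtain ⟨c, hc⟩ := hc
  exact Tri.src' hc

theorem tgt_last {V E : Type} {S : TG V E} : ∀ {δ : List E} {x y : V} {e : E},
    S.IsP x (e :: δ) y → S.src (S.inv ((e :: δ).getLast (List.cons_ne_nil e δ))) = y
  | [], _, _, _, h => h.2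
  | b :: δ, x, y, e, h => by
    rw [List.getLast_cons (List.cons_ne_nil b δ)]
    exact tgt_last h.2

theorem strip_aux (M : Mods) (hSC : (XX hg hgeo hι).SC) (hA : ∀ x ∈ A, ∀ y ∈ A, x * y = y * x)
    (hT : Tgt T) (y : XV A B g) : ∀ (δ : List (XE A B g)) (x : XV A B g) (e h : XE A B g),
    (XX hg hgeo hι).IsP x (e :: δ) y → dT hg hgeo hι T y + (δ.length + 1) = dT hg hgeo hι T x →
    (XX hg hgeo hι).Cor (xinv e) h →
    dT hg hgeo hι T ((XX hg hgeo hι).tgt h) = dT hg hgeo hι T ((XX hg hgeo hι).tgt e) →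
    (∀ l a b r n, e :: δ = l ++ a :: b :: r →
      ¬ ((XX hg hgeo hι).Cor (xinv a) n ∧ (XX hg hgeo hι).Cor n b)) →
    ∃ h, (XX hg hgeo hι).Cor (xinv ((e :: δ).getLast (List.cons_ne_nil e δ))) h ∧
      dT hg hgeo hι T ((XX hg hgeo hι).tgt h) = dT hg hgeo hι T y := by
  intro δ
  induction δ with
  | nil =>
    intro x e h hp hd hc hl hno
    refine ⟨h, hc, ?_⟩
    have h1 : (XX hg hgeo hι).tgt e = y := hp.2
    rw [hl, h1]
  | cons b δ ih =>
    intro x e h hp hd hc hl hno
    have hsh : xsrc h = (XX hg hgeo hι).tgt e := Cor.src hc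
    have hlev := lev hT hp (by simp only [List.length_cons] at hd ⊢; omega) (k := 1) (by simp)
    have hpt : pt (XX hg hgeo hι) x (e :: b :: δ) 1 = (XX hg hgeo hι).tgt e := by simp [pt]
    rw [hpt] at hlev
    have hd1 : dT hg hgeo hι T y + (δ.length + 1) =
        dT hg hgeo hι T ((XX hg hgeo hι).tgt e) := by
      simp only [List.length_cons] at hd
      omega
    obtain ⟨f, f', hf1, hf2, hf3, -⟩ := edge_ (hg := hg) (hgeo := hgeo) (hι := hι) M hSC hA T hT h
      (by rw [hsh, hl]) (by rw [hsh]; omega)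
    rw [hsh] at hf2
    have hb : Proj hg hgeo hι T ((XX hg hgeo hι).tgt e) b := by
      refine ⟨hp.2.1, ?_⟩
      have h2 := lev hT hp.2 hd1 (k := 1) (by simp)
      have h3 : pt (XX hg hgeo hι) ((XX hg hgeo hι).tgt e) (b :: δ) 1 =
        (XX hg hgeo hι).tgt b := by simp [pt]
      rw [h3] at h2
      exact h2
    rcases proj_ (hg := hg) (hgeo := hgeo) (hι := hι) M hSC hA T hT _ f b hf2 hb with h3 | h3
    · exfalso
      refine hno [] e b δ h rfl ⟨hc, ?_⟩
      rw [← h3]
      exact ⟨f', hf1⟩
    · obtain ⟨c, hc'⟩ := h3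
      -- f = b c
      have e1 : xsrc c = (XX hg hgeo hι).tgt b := Tri.mid' hc'
      have e2 : (XX hg hgeo hι).tgt c = (XX hg hgeo hι).tgt f := Tri.tgt' hc'
      obtain ⟨h4, h5⟩ := ih ((XX hg hgeo hι).tgt e) b c hp.2 hd1
        ⟨_, (XX hg hgeo hι).tri_rot hc'⟩ (by
          rw [e2]
          have h6 := hf2.2
          have h7 := hb.2
          omega) (by
          intro l a b' r n h6
          exact hno (e :: l) a b' r n (by rw [h6]; rfl))
      refine ⟨h4, ?_, h5.2⟩
      rw [List.getLast_cons (List.cons_ne_nil b δ)]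
      exact h5.1

theorem strip_ (M : Mods) (hSC : (XX hg hgeo hι).SC) (hA : ∀ x ∈ A, ∀ y ∈ A, x * y = y * x) :
    StripStmt hg hgeo hι := by
  intro T hT x y e e' δ hp hd he' hne hno
  have he : Proj hg hgeo hι T x e := by
    refine ⟨hp.1, ?_⟩
    have h2 := lev hT hp hd (k := 1) (by simp)
    have h3 : pt (XX hg hgeo hι) x (e :: δ) 1 = (XX hg hgeo hι).tgt e := by simp [pt]
    rw [h3] at h2
    exact h2
  obtain ⟨c, hc⟩ := (proj_ (hg := hg) (hgeo := hgeo) (hι := hι) M hSC hA T hT _ e' e he'
    he).resolve_left hne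
  have e2 : (XX hg hgeo hι).tgt c = (XX hg hgeo hι).tgt e' := Tri.tgt' hc
  refine strip_aux M hSC hA hT y δ x e c hp hd ⟨_, (XX hg hgeo hι).tri_rot hc⟩ ?_ hno
  rw [e2]
  have h6 := he.2
  have h7 := he'.2
  omega

theorem stripPl_ (M : Mods) (hSC : (XX hg hgeo hι).SC) (hA : ∀ x ∈ A, ∀ y ∈ A, x * y = y * x) :
    StripPlStmt hg hgeo hι := by
  intro c hc x y e e' δ hp hy hd he' hne hno
  have h0 : dT hg hgeo hι (On c) y = 0 := dT_self hy
  obtain ⟨h, h1, h2⟩ := strip_ (hg := hg) (hgeo := hgeo) (hι := hι) M hSC hA (On c)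
    (Tgt.pl c hc) x y e e' δ hp (by rw [h0, Nat.zero_add, hd]; rfl) he' hne hno
  refine ⟨h, h1, ?_⟩
  rw [h0] at h2
  refine (adj_ (hg := hg) (hgeo := hgeo) (hι := hι) M hSC hA).2 c h ?_ (dT_zero (Tgt.pl c hc) h2)
  have h3 : xsrc h = y := (Cor.src h1).trans (tgt_last hp)
  rw [h3]
  exact hy

theorem flip_ (M : Mods) (hSC : (XX hg hgeo hι).SC) (hA : ∀ x ∈ A, ∀ y ∈ A, x * y = y * x) :
    FlipStmt hg hgeo hι := by
  intro x y e e' δ hp hd hs he' hne
  by_contra hcon
  push Not at hcon
  have h0 : dT hg hgeo hι (fun v => v = y) y = 0 := dT_self rfl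
  obtain ⟨h, h1, h2⟩ := strip_ (hg := hg) (hgeo := hgeo) (hι := hι) M hSC hA (fun v => v = y)
    (Tgt.vtx y) x y e e' δ hp (by rw [h0, Nat.zero_add, dT_vtx]; exact hd)
    ⟨hs, by rw [dT_vtx, dT_vtx]; exact he'⟩ hne
    (fun l a b r n h3 h4 => hcon l a b r n h3 h4.1 h4.2)
  rw [h0] at h2
  have h3 := dT_zero (Tgt.vtx y) h2
  exact no_loop hSC h (by
    have h6 : (XX hg hgeo hι).src h = y := (Cor.src h1).trans (tgt_last hp)
    have h7 : (XX hg hgeo hι).tgt h = y := h3
    rw [h6, h7])

end Pool.Agent.ABA.B.H83
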