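import Pool.Agent.Helper70_ABA.Trip

/-!
# Geodesics towards a vertex or a plane of the triangle graph of `P` (MP_d857f1_al, part B,
module GEO): definitions and statements
-/

set_option autoImplicit false

namespace Pool.Agent.ABA.B.H83

open Pool.Agent.ABA Pool.Agent.ABA.B Pool.Agent.ABA.B.TG Pool.Agent.ABA.B.H17

variable {G : Type} [Group G] {A B : Subgroup G} {g : G}

/-- targets: one vertex, or the vertices of a plane -/
inductive Tgt : (XV A B g → Prop) → Prop
  | vtx (q : XV A B g) : Tgt (fun y => y = q)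
  | pl (c : Car A B g) : IsPl c → Tgt (On c)

section

variable (hg : ¬ IsABA A B g) (hgeo : Geo A B) (hι : Function.Injective (Pι A B g))

/-- distance to a target -/
noncomputable def dT (T : XV A B g → Prop) (x : XV A B g) : ℕ :=
  sInf {n | ∃ y, T y ∧ dst (XX hg hgeo hι) x y = n}

/-- letters at `x` which lead closer to the target -/
def Proj (T : XV A B g → Prop) (x : XV A B g) (e : XE A B g) : Prop :=
  xsrc e = x ∧ dT hg hgeo hι T ((XX hg hgeo hι).tgt e) + 1 = dT hg hgeo hι T x

theorem dT_On (c : Car A B g) (x : XV A B g) : dT hg hgeo hι (On c) x = dVC hg hgeo hι x c := rfl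

theorem dT_vtx (q x : XV A B g) :
    dT hg hgeo hι (fun y => y = q) x = dst (XX hg hgeo hι) x q := by
  unfold dT
  have h : {n | ∃ y, y = q ∧ dst (XX hg hgeo hι) x y = n} = {dst (XX hg hgeo hι) x q} := by
    ext n
    constructor
    · rintro ⟨y, rfl, h⟩; exact h.symm
    · intro h; exact ⟨q, rfl, h.symm⟩
  rw [h]
  exact csInf_singleton _

/-- (ADJ) letters with the same end points are equal; a letter between two vertices of a carrier
lies in the carrier -/
def AdjStmt : Prop :=
  (∀ e e' : XE A B g, xsrc e = xsrc e' → (XX hg hgeo hι).tgt e = (XX hg hgeo hι).tgt e' → e = e') ∧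
  (∀ (c : Car A B g) (e : XE A B g), On c (xsrc e) → On c ((XX hg hgeo hι).tgt e) → car e = c)

/-- (PROJ) -/
def ProjStmt : Prop := ∀ T : XV A B g → Prop, Tgt T → ∀ (x : XV A B g) (e e' : XE A B g),
  Proj hg hgeo hι T x e → Proj hg hgeo hι T x e' → e = e' ∨ (XX hg hgeo hι).Cor e e'

/-- (PROJ) at most two elements -/
def Proj2Stmt : Prop := ∀ T : XV A B g → Prop, Tgt T → ∀ (x : XV A B g) (e e' e'' : XE A B g),
  Proj hg hgeo hι T x e → Proj hg hgeo hι T x e' → Proj hg hgeo hι T x e'' → e ≠ e' →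
    e'' = e ∨ e'' = e'

/-- (EDGE) the two end points of the letter `m` have the same distance `≥ 1` to the target: a unique
apex -/
def EdgeStmt : Prop := ∀ T : XV A B g → Prop, Tgt T → ∀ m : XE A B g,
  dT hg hgeo hι T (xsrc m) = dT hg hgeo hι T ((XX hg hgeo hι).tgt m) →
  1 ≤ dT hg hgeo hι T (xsrc m) →
  ∃ f f', (XX hg hgeo hι).Tri m f f' ∧ Proj hg hgeo hι T (xsrc m) f ∧
    Proj hg hgeo hι T ((XX hg hgeo hι).tgt m) (xinv f') ∧
    ∀ h, Proj hg hgeo hι T (xsrc m) h → (XX hg hgeo hι).Cor m h → h = f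

/-- (NSEG) two different closest vertices of a plane `c` to a plane `c'` without common vertex are
joined by a letter of `c`, whose apex gives T-corners -/
def NsegStmt : Prop := ∀ c c' : Car A B g, IsPl c → IsPl c' → 1 ≤ dCC hg hgeo hι c c' →
  ∀ x x' : XV A B g, On c x → On c x' → x ≠ x' → dVC hg hgeo hι x c' = dCC hg hgeo hι c c' →
    dVC hg hgeo hι x' c' = dCC hg hgeo hι c c' →
    ∃ m f f', xsrc m = x ∧ (XX hg hgeo hι).tgt m = x' ∧ car m = c ∧
      (XX hg hgeo hι).Tri m f f' ∧ Proj hg hgeo hι (On c') x f ∧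
      Proj hg hgeo hι (On c') x' (xinv f') ∧ car f ≠ c ∧ car f' ≠ c

/-- (STRIP) along a geodesic `e :: δ` towards the target, with a second element `e'` of `Proj` at
its start and without walks `[inv a, n, b]` at its inner vertices, there is at the end a letter `h` of
constant distance which is adjacent to the inverse of the last letter -/
def StripStmt : Prop := ∀ T : XV A B g → Prop, Tgt T → ∀ (x y : XV A B g) (e e' : XE A B g)
  (δ : List (XE A B g)), (XX hg hgeo hι).IsP x (e :: δ) y →
  dT hg hgeo hι T y + (δ.length + 1) = dT hg hgeo hι T x →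
  Proj hg hgeo hι T x e' → e' ≠ e →
  (∀ l a b r n, e :: δ = l ++ a :: b :: r →
    ¬ ((XX hg hgeo hι).Cor (xinv a) n ∧ (XX hg hgeo hι).Cor n b)) →
  ∃ h, (XX hg hgeo hι).Cor (xinv ((e :: δ).getLast (List.cons_ne_nil e δ))) h ∧
    dT hg hgeo hι T ((XX hg hgeo hι).tgt h) = dT hg hgeo hι T y

/-- (STRIP) for a geodesic which ends in a plane: the last letter has a T-corner with the plane -/
def StripPlStmt : Prop := ∀ c : Car A B g, IsPl c → ∀ (x y : XV A B g) (e e' : XE A B g)
  (δ : List (XE A B g)), (XX hg hgeo hι).IsP x (e :: δ) y → On c y →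
  δ.length + 1 = dVC hg hgeo hι x c →
  Proj hg hgeo hι (On c) x e' → e' ≠ e →
  (∀ l a b r n, e :: δ = l ++ a :: b :: r →
    ¬ ((XX hg hgeo hι).Cor (xinv a) n ∧ (XX hg hgeo hι).Cor n b)) →
  ∃ h, (XX hg hgeo hι).Cor (xinv ((e :: δ).getLast (List.cons_ne_nil e δ))) h ∧ car h = c

/-- (STRIP, FLIP) for a geodesic between two vertices: a second first letter gives a walk
`[inv a, n, b]` with two corners at some inner vertex -/
def FlipStmt : Prop := ∀ (x y : XV A B g) (e e' : XE A B g) (δ : List (XE A B g)),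
  (XX hg hgeo hι).IsP x (e :: δ) y → δ.length + 1 = dst (XX hg hgeo hι) x y →
  xsrc e' = x → dst (XX hg hgeo hι) ((XX hg hgeo hι).tgt e') y + 1 = dst (XX hg hgeo hι) x y →
  e' ≠ e → ∃ l a b r n, e :: δ = l ++ a :: b :: r ∧ (XX hg hgeo hι).Cor (xinv a) n ∧
    (XX hg hgeo hι).Cor n b

end

end Pool.Agent.ABA.B.H83
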