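import Pool.Agent.Helper89_ABA.Pres

namespace Pool.Agent.ABA

/-- INJ: a nontrivial element of G stays nontrivial in G' for all large exponents. -/
def InjStmt : Prop :=
  ∀ (R : Set (Wd ℤ)) (g : Wd ℤ), R.Finite →
    (∀ r ∈ R, (r.map Prod.snd).sum = 0) →
    Geo (αP ℤ R true).range (αP ℤ R false).range →
    ¬ IsABA (αP ℤ R true).range (αP ℤ R false).range (ev (αP ℤ R) g) →
    LF R → ∀ w : Wd ℤ, ev (αP ℤ R) w ≠ 1 → ∃ x₀ : ℤ, ∀ x y z : ℤ, x₀ ≤ x → 4 * x ≤ z →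
      x ≤ |y| → x + y + z = (g.map Prod.snd).sum → ev (αP ℤ (Rnew R g id x y z)) w ≠ 1

end Pool.Agent.ABA
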