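import Pool.Agent.Helper83_ABA.Faces

open Equiv Equiv.Perm H17ABA

namespace Pool.Agent.ABA

section lines

variable {Ω L : Type} [Fintype Ω] [AddCommGroup L]

/-- Sum over a class of a setoid. -/
noncomputable def clsSum (r : Setoid Ω) (f : Ω → L) (w : Ω) : L := by
  classical
  exact ∑ v ∈ Finset.univ.filter (fun v => r w v), f v

theorem cycSum_eq (π : Perm Ω) (f : Ω → L) (w : Ω) : cycSum π f w = clsSum (cs π) f w := by
  classical
  unfold cycSum clsSum
  refine Finset.sum_congr ?_ (fun _ _ => rfl)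
  ext v
  simp only [Finset.mem_filter, Finset.mem_univ, true_and]
  exact Iff.rfl

theorem clsSum_congr_rel {r : Setoid Ω} {f : Ω → L} {w v : Ω} (h : r w v) :
    clsSum r f w = clsSum r f v := by
  classical
  unfold clsSum
  congr 1
  ext x
  simp only [Finset.mem_filter, Finset.mem_univ, true_and]
  exact ⟨fun h1 => r.trans' (r.symm' h) h1, fun h1 => r.trans' h h1⟩

theorem clsSum_sup_pr {r : Setoid Ω} {f : Ω → L} {u v : Ω} (huv : ¬ r u v) :
    clsSum (r ⊔ pr u v) f u = clsSum r f u + clsSum r f v := by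
  classical
  unfold clsSum
  rw [← Finset.sum_union]
  · congr 1
    ext x
    simp only [Finset.mem_filter, Finset.mem_univ, true_and, Finset.mem_union]
    rw [sup_pr_iff]
    constructor
    · rintro (h | ⟨_, h⟩ | ⟨h, _⟩)
      · exact Or.inl h
      · exact Or.inr (r.symm' h)
      · exact absurd h huv
    · rintro (h | h)
      · exact Or.inl h
      · exact Or.inr (Or.inl ⟨r.refl' _, r.symm' h⟩)
  · rw [Finset.disjoint_left]
    intro x h1 h2
    simp only [Finset.mem_filter, Finset.mem_univ, true_and] at h1 h2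
    exact huv (r.trans' h1 (r.symm' h2))

theorem clsSum_sup_pr_of_not {r : Setoid Ω} {f : Ω → L} {u v w : Ω} (hu : ¬ r w u)
    (hv : ¬ r w v) : clsSum (r ⊔ pr u v) f w = clsSum r f w := by
  classical
  unfold clsSum
  congr 1
  ext x
  simp only [Finset.mem_filter, Finset.mem_univ, true_and]
  rw [sup_pr_iff]
  constructor
  · rintro (h | ⟨h, _⟩ | ⟨h, _⟩)
    · exact h
    · exact absurd h hu
    · exact absurd h hv
  · exact Or.inl

theorem cs_swap_mul [DecidableEq Ω] (l : Perm Ω) (u v : Ω) :
    cs (swap u v * l) = cs (l⁻¹ * swap u v) := by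
  have : l⁻¹ * swap u v = (swap u v * l)⁻¹ := by rw [mul_inv_rev, swap_inv]
  rw [this, cs_inv]

theorem cs_split [DecidableEq Ω] {l : Perm Ω} {u v : Ω} (h : SameCycle l u v) :
    cs l = cs (swap u v * l) ⊔ pr u v := by
  rw [cs_swap_mul, cs_mul_swap_sup, cs_inv, sup_pr_of_rel (r := cs l) h]

theorem split_not [DecidableEq Ω] {l : Perm Ω} {u v : Ω} (huv : u ≠ v) (h : SameCycle l u v) :
    ¬ SameCycle (swap u v * l) u v := by
  intro hh
  have h1 : SameCycle (l⁻¹ * swap u v) u v := by
    have : (cs (swap u v * l)) u v := hh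
    rw [cs_swap_mul] at this
    exact this
  exact split_not_same l⁻¹ huv (sameCycle_inv.2 h) h1

theorem cs_merge [DecidableEq Ω] {l : Perm Ω} {u v : Ω} (h : ¬ SameCycle l u v) :
    cs (swap u v * l) = cs l ⊔ pr u v := by
  have h1 : SameCycle (swap u v * l) u v := by
    have := merge_same l⁻¹ (x := u) (y := v) (fun hh => h (sameCycle_inv.1 hh))
    have h2 : (cs (l⁻¹ * swap u v)) u v := this
    rw [← cs_swap_mul] at h2
    exact h2
  have h3 := cs_split (l := swap u v * l) h1
  rw [← mul_assoc, swap_mul_self, one_mul] at h3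
  have h4 : cs (swap u v * l) = cs (swap u v * l) ⊔ pr u v := by
    rw [sup_pr_of_rel (r := cs (swap u v * l)) h1]
  have h5 := cs_mul_swap_sup l⁻¹ u v
  rw [← cs_swap_mul, cs_inv] at h5
  rw [h4, h5]

end lines

end Pool.Agent.ABA
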