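import Pool.Agent.Helper83_ABA.Lines

open Equiv Equiv.Perm H17ABA

namespace Pool.Agent.ABA

namespace FC

variable {L : Type} [AddCommGroup L] {Ω : Type} [Fintype Ω] [DecidableEq Ω]
  {fs gs : List (List Ω)}

/-- reorder the faces -/
def ofPerm (D : FC L Ω fs) (h : fs.Perm gs) : FC L Ω gs where
  l := D.l
  lab := D.lab
  nodup := (List.Perm.flatten h).nodup_iff.1 D.nodup
  dead := fun w hw => D.dead w (fun hh => hw ((List.Perm.flatten h).mem_iff.1 hh))
  ty_l := D.ty_l
  sum_l := D.sum_l
  planar := by rw [← facePerm_perm h D.nodup]; exact D.planar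

/-- rotate the first face -/
def rot {d e : List Ω} (D : FC L Ω (d :: fs)) (h : d ~r e) : FC L Ω (e :: fs) where
  l := D.l
  lab := D.lab
  nodup := by
    have h1 : (d :: fs).flatten.Perm (e :: fs).flatten := by
      simp only [List.flatten_cons]
      exact h.perm.append_right _
    exact h1.nodup_iff.1 D.nodup
  dead := fun w hw => D.dead w (fun hh => hw (by
    simp only [List.flatten_cons, List.mem_append] at hh ⊢
    rcases hh with hh | hh
    · exact Or.inl (h.perm.mem_iff.1 hh)
    · exact Or.inr hh))
  ty_l := D.ty_l
  sum_l := D.sum_l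
  planar := by rw [← facePerm_rot h D.nodup]; exact D.planar

def dropNil (D : FC L Ω ([] :: fs)) : FC L Ω fs where
  l := D.l
  lab := D.lab
  nodup := by simpa using D.nodup
  dead := fun w hw => D.dead w (by simpa using hw)
  ty_l := D.ty_l
  sum_l := D.sum_l
  planar := by rw [← facePerm_nil_cons]; exact D.planar

def addNil (D : FC L Ω fs) : FC L Ω ([] :: fs) where
  l := D.l
  lab := D.lab
  nodup := by simpa using D.nodup
  dead := fun w hw => D.dead w (by simpa using hw)
  ty_l := D.ty_l
  sum_l := D.sum_l
  planar := by rw [facePerm_nil_cons]; exact D.planar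

/-- cut a face into two -/
def faceSplit {x y : Ω} {xs ys : List Ω} (D : FC L Ω ((x :: xs ++ y :: ys) :: fs)) :
    FC L Ω ((x :: xs) :: (y :: ys) :: fs) where
  l := D.l
  lab := D.lab
  nodup := by
    have := D.nodup
    simpa [List.append_assoc] using this
  dead := fun w hw => D.dead w (by simpa [List.append_assoc, not_or, and_assoc] using hw)
  ty_l := D.ty_l
  sum_l := D.sum_l
  planar := by
    have h1 := facePerm_append D.nodup
    have h2 : facePerm ((x :: xs) :: (y :: ys) :: fs) =
        swap x y * facePerm ((x :: xs ++ y :: ys) :: fs) := by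
      rw [h1, ← mul_assoc, swap_mul_self, one_mul]
    rw [h2]
    refine pl_split_s D.planar ?_
    exact sameCycle_face D.nodup List.mem_cons_self (by simp) (by simp)

/-- merge the first two faces at an adjacency on a line -/
def faceMerge {w w' x : Ω} {xs ys : List Ω} (D : FC L Ω ((x :: xs) :: (w' :: ys) :: fs))
    (hw : (x :: xs).getLast (by simp) = w) (hl : D.l w = w') :
    FC L Ω ((x :: xs ++ w' :: ys) :: fs) where
  l := D.l
  lab := D.lab
  nodup := by
    have := D.nodup
    simpa [List.append_assoc] using this
  dead := fun w hw => D.dead w (by simpa [List.append_assoc, not_or, and_assoc] using hw)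
  ty_l := D.ty_l
  sum_l := D.sum_l
  planar := by
    have hn : ((x :: xs ++ w' :: ys) :: fs).flatten.Nodup := by
      have := D.nodup
      simpa [List.append_assoc] using this
    rw [facePerm_append hn]
    have hm : w ∈ x :: xs := hw ▸ List.getLast_mem _
    refine pl_merge_s D.planar ?_ ?_
    · intro hh
      have h1 := face_closed D.nodup (List.mem_cons_self) (x := x) (y := w') (by simp) hh
      have := D.nodup
      rw [List.flatten_cons, List.nodup_append] at this
      exact this.2.2 w' h1 w' (by simp) rfl
    · have hfw : facePerm ((x :: xs) :: (w' :: ys) :: fs) w = x := by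
        rw [facePerm_apply_of_mem D.nodup List.mem_cons_self hm]
        have hx : (x :: xs).Nodup := by
          have := D.nodup
          rw [List.flatten_cons, List.nodup_append] at this
          exact this.1
        subst hw
        exact List.formPerm_apply_getLast x xs
      have h1 : SameCycle (facePerm ((x :: xs) :: (w' :: ys) :: fs) * D.l⁻¹) (D.l w)
          (facePerm ((x :: xs) :: (w' :: ys) :: fs) w) := curve_key _ _ _
      rw [hl, hfw] at h1
      exact h1.symm

theorem ty_same (D : FC L Ω fs) {u v : Ω} (h : SameCycle D.l u v) :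
    (D.lab u).1 = (D.lab v).1 := by
  have h1 : cs D.l ≤ Setoid.ker (fun w => (D.lab w).1) := by
    rw [cs_le_iff]
    intro a
    exact (D.ty_l a).symm
  exact h1 h

theorem same_dead (D : FC L Ω fs) {u v : Ω} (h : SameCycle D.l u v) (hu : u ∉ fs.flatten) :
    u = v := by
  obtain ⟨n, hn⟩ := h
  rw [← hn]
  exact (Perm.zpow_apply_eq_self_of_apply_eq_self (D.dead u hu) n).symm

/-- split a line -/
def lineSplit (D : FC L Ω fs) {u v : Ω} (h : SameCycle D.l u v)
    (hs : cycSum (swap u v * D.l) (fun w => (D.lab w).2) u = 0) : FC L Ω fs where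
  l := swap u v * D.l
  lab := D.lab
  nodup := D.nodup
  dead := by
    intro w hw
    rw [Perm.mul_apply, D.dead w hw]
    by_cases h1 : w = u
    · subst h1
      rw [← same_dead D h hw]; simp
    · by_cases h2 : w = v
      · subst h2
        rw [← same_dead D h.symm hw]; simp
      · exact swap_apply_of_ne_of_ne h1 h2
  ty_l := by
    intro w
    rw [Perm.mul_apply]
    by_cases h1 : D.l w = u
    · rw [h1, swap_apply_left, ← D.ty_same h, ← h1, D.ty_l]
    · by_cases h2 : D.l w = v
      · rw [h2, swap_apply_right, D.ty_same h, ← h2, D.ty_l]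
      · rw [swap_apply_of_ne_of_ne h1 h2, D.ty_l]
  sum_l := by
    by_cases huv : u = v
    · subst huv
      intro w
      rw [swap_self]
      exact D.sum_l w
    · have hc := cs_split h
      have hn : ¬ (cs (swap u v * D.l)) u v := split_not huv h
      rw [cycSum_eq] at hs
      have hv : clsSum (cs (swap u v * D.l)) (fun w => (D.lab w).2) v = 0 := by
        have h1 := D.sum_l u
        rw [cycSum_eq, hc, clsSum_sup_pr hn, hs, zero_add] at h1
        exact h1
      intro w
      rw [cycSum_eq]
      by_cases h1 : (cs (swap u v * D.l)) w u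
      · rw [clsSum_congr_rel h1]; exact hs
      · by_cases h2 : (cs (swap u v * D.l)) w v
        · rw [clsSum_congr_rel h2]; exact hv
        · have h3 := D.sum_l w
          rw [cycSum_eq, hc, clsSum_sup_pr_of_not h1 h2] at h3
          exact h3
  planar := pl_split_l D.planar h

/-- merge two lines through a region -/
def lineMerge (D : FC L Ω fs) {u v : Ω} (h : ¬ SameCycle D.l u v)
    (hf : SameCycle (facePerm fs * D.l⁻¹) u v) (ht : (D.lab u).1 = (D.lab v).1)
    (hu : u ∈ fs.flatten) (hv : v ∈ fs.flatten) : FC L Ω fs where
  l := swap u v * D.l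
  lab := D.lab
  nodup := D.nodup
  dead := by
    intro w hw
    rw [Perm.mul_apply, D.dead w hw]
    exact swap_apply_of_ne_of_ne (fun hh => hw (hh ▸ hu)) (fun hh => hw (hh ▸ hv))
  ty_l := by
    intro w
    rw [Perm.mul_apply]
    by_cases h1 : D.l w = u
    · rw [h1, swap_apply_left, ← ht, ← h1, D.ty_l]
    · by_cases h2 : D.l w = v
      · rw [h2, swap_apply_right, ht, ← h2, D.ty_l]
      · rw [swap_apply_of_ne_of_ne h1 h2, D.ty_l]
  sum_l := by
    intro w
    have hn : ¬ (cs D.l) u v := h
    have hu0 := D.sum_l u
    have hv0 := D.sum_l v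
    have hw0 := D.sum_l w
    rw [cycSum_eq] at hu0 hv0 hw0
    have hsum : clsSum (cs D.l ⊔ pr u v) (fun w => (D.lab w).2) u = 0 := by
      rw [clsSum_sup_pr hn, hu0, hv0, add_zero]
    rw [cycSum_eq, cs_merge h]
    by_cases h1 : (cs D.l) w u
    · rw [clsSum_congr_rel (r := cs D.l ⊔ pr u v) (v := u)
        ((le_sup_left : cs D.l ≤ cs D.l ⊔ pr u v) h1)]
      exact hsum
    · by_cases h2 : (cs D.l) w v
      · have h3 : (cs D.l ⊔ pr u v) w u := by
          rw [sup_pr_iff]
          exact Or.inr (Or.inr ⟨h2, (cs D.l).refl' _⟩)
        rw [clsSum_congr_rel h3]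
        exact hsum
      · rw [clsSum_sup_pr_of_not h1 h2]
        exact hw0
  planar := pl_merge_l D.planar h hf

/-- delete a zero syllable -/
def deleteHead {w : Ω} {d : List Ω} (D : FC L Ω ((w :: d) :: fs)) (h0 : (D.lab w).2 = 0) :
    FC L Ω (d :: fs) where
  l := swap w (D.l w) * D.l
  lab := D.lab
  nodup := by
    have := D.nodup
    simp only [List.flatten_cons, List.cons_append, List.nodup_cons] at this ⊢
    exact this.2
  dead := by
    intro x hx
    by_cases hxw : x = w
    · subst hxw
      simp
    · have hx' : x ∉ ((w :: d) :: fs).flatten := by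
        simp only [List.flatten_cons, List.mem_append, not_or, List.mem_cons] at hx ⊢
        exact ⟨⟨hxw, hx.1⟩, hx.2⟩
      rw [Perm.mul_apply, D.dead x hx']
      refine swap_apply_of_ne_of_ne hxw ?_
      intro hh
      have : D.l x = D.l w := by rw [D.dead x hx']; exact hh
      exact hxw (D.l.injective this)
  ty_l := by
    have h := cs_apply D.l w
    intro x
    rw [Perm.mul_apply]
    by_cases h1 : D.l x = w
    · rw [h1, swap_apply_left, D.ty_l]
      have := D.ty_l x
      rw [h1] at this
      exact this
    · by_cases h2 : D.l x = D.l w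
      · rw [h2, swap_apply_right, D.l.injective h2]
      · rw [swap_apply_of_ne_of_ne h1 h2, D.ty_l]
  sum_l := by
    have hs : cycSum (swap w (D.l w) * D.l) (fun w => (D.lab w).2) w = 0 := by
      rw [cycSum_eq]
      classical
      unfold clsSum
      have : (Finset.univ.filter (fun v => (cs (swap w (D.l w) * D.l)) w v)) = {w} := by
        ext v
        simp only [Finset.mem_filter, Finset.mem_univ, true_and, Finset.mem_singleton]
        constructor
        · rintro ⟨n, hn⟩
          rw [← hn]
          exact Perm.zpow_apply_eq_self_of_apply_eq_self (by simp) n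
        · rintro rfl
          exact (cs _).refl' _
      rw [this, Finset.sum_singleton, h0]
    exact (D.lineSplit (cs_apply D.l w) hs).sum_l
  planar := by
    have h1 : Planar (facePerm ((w :: d) :: fs)) (swap w (D.l w) * D.l)⁻¹ :=
      pl_split_l D.planar (cs_apply D.l w)
    cases d with
    | nil =>
      rw [facePerm_nil_cons]
      rw [facePerm_single_cons] at h1
      exact h1
    | cons y ys =>
      have h2 : facePerm ((y :: ys) :: fs) = swap w y * facePerm ((w :: y :: ys) :: fs) := by
        rw [facePerm_delete, ← mul_assoc, swap_mul_self, one_mul]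
      rw [h2]
      refine pl_split_s h1 ?_
      exact sameCycle_face D.nodup List.mem_cons_self (by simp) (by simp)

theorem clsSum_transfer {r : Setoid Ω} {f g : Ω → L} {w w' : Ω} (hr : r w w') (hne : w ≠ w')
    (hfg : ∀ x, x ≠ w → x ≠ w' → g x = f x) (hs : g w + g w' = f w + f w') (x : Ω) :
    clsSum r g x = clsSum r f x := by
  classical
  unfold clsSum
  by_cases hx : r x w
  · have h1 : w ∈ Finset.univ.filter (fun v => r x v) := by simp [hx]
    have h2 : w' ∈ (Finset.univ.filter (fun v => r x v)).erase w := by
      simp [hne.symm, r.trans' hx hr]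
    rw [← Finset.add_sum_erase _ _ h1, ← Finset.add_sum_erase _ _ h2,
      ← Finset.add_sum_erase _ f h1, ← Finset.add_sum_erase _ f h2, ← add_assoc, ← add_assoc, hs]
    congr 1
    refine Finset.sum_congr rfl (fun v hv => ?_)
    simp only [Finset.mem_erase] at hv
    exact hfg v hv.2.1 hv.1
  · refine Finset.sum_congr rfl (fun v hv => ?_)
    simp only [Finset.mem_filter, Finset.mem_univ, true_and] at hv
    refine hfg v ?_ ?_
    · rintro rfl
      exact hx hv
    · rintro rfl
      exact hx (r.trans' hv (r.symm' hr))

/-- transfer the value of w' to w (same line) -/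
def transfer (D : FC L Ω fs) {w w' : Ω} (h : SameCycle D.l w w') (hne : w ≠ w') :
    FC L Ω fs where
  l := D.l
  lab := Function.update (Function.update D.lab w ((D.lab w).1, (D.lab w).2 + (D.lab w').2)) w'
    ((D.lab w').1, 0)
  nodup := D.nodup
  dead := D.dead
  ty_l := by
    have key : ∀ x, (Function.update (Function.update D.lab w ((D.lab w).1,
        (D.lab w).2 + (D.lab w').2)) w' ((D.lab w').1, 0) x).1 = (D.lab x).1 := by
      intro x
      by_cases h1 : x = w'
      · subst h1; simp
      · rw [Function.update_of_ne h1]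
        by_cases h2 : x = w
        · subst h2; simp
        · rw [Function.update_of_ne h2]
    intro x
    rw [key, key, D.ty_l]
  sum_l := by
    intro x
    rw [cycSum_eq]
    have := clsSum_transfer (L := L) (r := cs D.l) (f := fun v => (D.lab v).2)
      (g := fun v => (Function.update (Function.update D.lab w ((D.lab w).1,
        (D.lab w).2 + (D.lab w').2)) w' ((D.lab w').1, 0) v).2) (w := w) (w' := w') h hne
      (by
        intro v h1 h2
        rw [Function.update_of_ne h2, Function.update_of_ne h1])
      (by
        rw [Function.update_of_ne hne, Function.update_self, Function.update_self, add_zero]) x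
    rw [this]
    have h3 := D.sum_l x
    rw [cycSum_eq] at h3
    exact h3
  planar := D.planar

/-- fold two adjacent syllables of the same type -/
theorem fold {w w' : Ω} {d : List Ω} (D : FC L Ω ((w :: w' :: d) :: fs))
    (ht : (D.lab w).1 = (D.lab w').1) :
    ∃ D' : FC L Ω ((w :: d) :: fs), D'.lab w = ((D.lab w).1, (D.lab w).2 + (D.lab w').2) ∧
      ∀ x, x ≠ w → x ≠ w' → D'.lab x = D.lab x := by
  have hne : w ≠ w' := by
    have := D.nodup
    intro hh
    subst hh
    simp at this
  have hσ : facePerm ((w :: w' :: d) :: fs) w = w' := by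
    rw [facePerm_apply_of_mem D.nodup List.mem_cons_self (by simp)]
    have hx : (w :: w' :: d).Nodup := by
      have := D.nodup
      rw [List.flatten_cons, List.nodup_append] at this
      exact this.1
    exact List.formPerm_apply_head w w' d hx
  obtain ⟨D1, hD1, hl1⟩ : ∃ D1 : FC L Ω ((w :: w' :: d) :: fs), D1.lab = D.lab ∧
      SameCycle D1.l w w' := by
    by_cases hs : SameCycle D.l w w'
    · exact ⟨D, rfl, hs⟩
    · have h1 : ¬ SameCycle D.l (D.l w) w' := fun hh =>
        hs (SameCycle.trans (cs_apply D.l w) hh)
      have h2 : SameCycle (facePerm ((w :: w' :: d) :: fs) * D.l⁻¹) (D.l w) w' := by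
        have := curve_key (facePerm ((w :: w' :: d) :: fs)) D.l w
        rw [hσ] at this
        exact this
      have h3 : D.l w ∈ ((w :: w' :: d) :: fs).flatten := by
        by_contra hh
        have := D.dead _ hh
        have h4 : D.l w = w := D.l.injective this
        rw [h4] at hh
        simp at hh
      refine ⟨D.lineMerge h1 h2 (by rw [D.ty_l, ht]) h3 (by simp), rfl, ?_⟩
      have : (swap (D.l w) w' * D.l) w = w' := by
        rw [Perm.mul_apply, swap_apply_left]
      exact ⟨1, by rw [zpow_one]; exact this⟩
  let D2 := D1.transfer hl1 hne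
  let D3 := D2.rot (e := w' :: (d ++ [w])) (by
    refine ⟨1, ?_⟩
    simp)
  have h0 : (D3.lab w').2 = 0 := by
    change (Function.update (Function.update D1.lab w ((D1.lab w).1,
      (D1.lab w).2 + (D1.lab w').2)) w' ((D1.lab w').1, 0) w').2 = 0
    rw [Function.update_self]
  let D4 := D3.deleteHead h0
  let D5 := D4.rot (e := w :: d) (by
    refine ⟨d.length, ?_⟩
    rw [List.rotate_append_length_eq]
    rfl)
  refine ⟨D5, ?_, ?_⟩
  · change Function.update _ w' _ w = _
    rw [Function.update_of_ne hne, Function.update_self, hD1]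
  · intro x h1 h2
    change Function.update _ w' _ x = _
    rw [Function.update_of_ne h2, Function.update_of_ne h1, hD1]

end FC

end Pool.Agent.ABA
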