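import Pool.Agent.Helper52_ABA.Lib
import Pool.Agent.Helper17_ABA.PDef
import Pool.Agent.Helper89_ABA.Defs

/-! # The triangle graph of the group P (MP_d857f1_al, part B)

Vertices: cosets of G. Edges: directions U, V, W = V U⁻¹ and their inverses with cosets of A,
directions C, C⁻¹ with cosets of B. -/

namespace Pool.Agent.ABA

open Monoid

/-- directions of the flats, in the cyclic order of the link -/
inductive Dr
  | U | V | W | U' | V' | W'
  deriving DecidableEq, Fintype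

namespace Dr

/-- next direction in the hexagon -/
def nxt : Dr → Dr
  | U => V | V => W | W => U' | U' => V' | V' => W' | W' => U

/-- opposite direction -/
def inv : Dr → Dr
  | U => U' | V => V' | W => W' | U' => U | V' => V | W' => W

def δ : Dr → ℤ
  | U => 1 | V => 2 | W => 1 | U' => -1 | V' => -2 | W' => -1

@[simp] theorem inv_inv (m : Dr) : m.inv.inv = m := by cases m <;> rfl
theorem nxt3 (m : Dr) : m.nxt.nxt.nxt = m.inv := by cases m <;> rfl
theorem inv_nxt (m : Dr) : m.inv.nxt = m.nxt.inv := by cases m <;> rfl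
theorem nxt_inj {m m' : Dr} (h : m.nxt = m'.nxt) : m = m' := by cases m <;> cases m' <;> simp_all [nxt]

end Dr

section

variable {G : Type} [Group G] (A B : Subgroup G) (g : G)

/-- the translation of a direction -/
def trn : Dr → PP A B g
  | .U => Pu A B g | .V => Pv A B g | .W => Pv A B g * (Pu A B g)⁻¹
  | .U' => (Pu A B g)⁻¹ | .V' => (Pv A B g)⁻¹ | .W' => Pu A B g * (Pv A B g)⁻¹

/-- translations in the direction of c -/
def trc : Bool → PP A B g
  | true => Pc A B g | false => (Pc A B g)⁻¹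

theorem trn_inv (m : Dr) : trn A B g m.inv = (trn A B g m)⁻¹ := by
  cases m <;> simp [trn, Dr.inv]

theorem trc_inv (s : Bool) : trc A B g (!s) = (trc A B g s)⁻¹ := by
  cases s <;> simp [trc]

theorem P_uv' : Commute (Pu A B g) (Pv A B g) := P_uv A B g

/-- t_{nxt m} = t_m t_{nxt nxt m} -/
theorem trn_nxt (m : Dr) : trn A B g m.nxt = trn A B g m * trn A B g m.nxt.nxt := by
  have h := P_uv' A B g
  have h1 : Pu A B g * ((Pv A B g) * (Pu A B g)⁻¹) = Pv A B g := by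
    rw [← mul_assoc, h.eq, mul_inv_cancel_right]
  have h2 : (Pv A B g) * ((Pu A B g) * (Pv A B g)⁻¹) = Pu A B g := by
    rw [← mul_assoc, ← h.eq, mul_inv_cancel_right]
  have h3 : Commute (Pu A B g)⁻¹ (Pv A B g)⁻¹ := h.inv_inv
  cases m
  · exact h1.symm
  · rfl
  · simp [trn, Dr.nxt, h3.eq]
    rw [mul_assoc, h3.eq, mul_inv_cancel_left]
  · change (Pv A B g)⁻¹ = (Pu A B g)⁻¹ * (Pu A B g * (Pv A B g)⁻¹)
    group
  · change Pu A B g * (Pv A B g)⁻¹ = (Pv A B g)⁻¹ * Pu A B g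
    exact (h.inv_right).eq
  · change Pu A B g = Pu A B g * (Pv A B g)⁻¹ * Pv A B g
    group

theorem trn_comm (m : Dr) {a : G} (ha : a ∈ A) :
    trn A B g m * Pι A B g a = Pι A B g a * trn A B g m := by
  have hu : Commute (Pu A B g) (Pι A B g a) := P_ua A B g ha
  have hv : Commute (Pv A B g) (Pι A B g a) := P_va A B g ha
  cases m
  · exact hu.eq
  · exact hv.eq
  · exact (hv.mul_left hu.inv_left).eq
  · exact hu.inv_left.eq
  · exact hv.inv_left.eq
  · exact (hu.mul_left hv.inv_left).eq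

theorem trc_comm (s : Bool) {b : G} (hb : b ∈ B) :
    trc A B g s * Pι A B g b = Pι A B g b * trc A B g s := by
  have hc : Commute (Pc A B g) (Pι A B g b) := P_cb A B g hb
  cases s
  · exact hc.inv_left.eq
  · exact hc.eq

/-- vertices -/
abbrev XV : Type := PP A B g ⧸ (Pι A B g).range

/-- edges -/
abbrev XE : Type := (Dr × (PP A B g ⧸ A.map (Pι A B g))) ⊕ (Bool × (PP A B g ⧸ B.map (Pι A B g)))

variable {A B g}

/-- the vertex p G -/
def vx (p : PP A B g) : XV A B g := QuotientGroup.mk p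

/-- the edge from p G in the direction m -/
def eA (m : Dr) (p : PP A B g) : XE A B g := Sum.inl (m, QuotientGroup.mk p)

/-- the edge from p G in the direction c -/
def eC (s : Bool) (p : PP A B g) : XE A B g := Sum.inr (s, QuotientGroup.mk p)

theorem vx_eq {p q : PP A B g} : vx p = vx q ↔ ∃ h : G, q = p * Pι A B g h := by
  rw [vx, vx, QuotientGroup.eq]
  constructor
  · rintro ⟨h, hh⟩
    exact ⟨h, by rw [hh, mul_inv_cancel_left]⟩
  · rintro ⟨h, rfl⟩
    exact ⟨h, by rw [inv_mul_cancel_left]⟩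

theorem eA_eq {m m' : Dr} {p q : PP A B g} :
    eA m p = eA m' q ↔ m = m' ∧ ∃ a ∈ A, q = p * Pι A B g a := by
  constructor
  · intro h
    have h1 := Sum.inl.inj h
    rw [Prod.mk.injEq] at h1
    obtain ⟨h1, h2⟩ := h1
    rw [QuotientGroup.eq] at h2
    obtain ⟨a, ha, hh⟩ := h2
    exact ⟨h1, a, ha, by rw [hh, mul_inv_cancel_left]⟩
  · rintro ⟨rfl, a, ha, rfl⟩
    rw [eA, eA]
    congr 2
    rw [QuotientGroup.eq]
    exact ⟨a, ha, by rw [inv_mul_cancel_left]⟩

theorem eC_eq {m m' : Bool} {p q : PP A B g} :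
    eC m p = eC m' q ↔ m = m' ∧ ∃ b ∈ B, q = p * Pι A B g b := by
  constructor
  · intro h
    have h1 := Sum.inr.inj h
    rw [Prod.mk.injEq] at h1
    obtain ⟨h1, h2⟩ := h1
    rw [QuotientGroup.eq] at h2
    obtain ⟨a, ha, hh⟩ := h2
    exact ⟨h1, a, ha, by rw [hh, mul_inv_cancel_left]⟩
  · rintro ⟨rfl, a, ha, rfl⟩
    rw [eC, eC]
    congr 2
    rw [QuotientGroup.eq]
    exact ⟨a, ha, by rw [inv_mul_cancel_left]⟩

theorem eA_ne_eC {m : Dr} {s : Bool} {p q : PP A B g} : eA m p ≠ eC s q := fun h => by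
  cases h

/-- induction over edges -/
theorem XE.ind {P : XE A B g → Prop} (hA : ∀ m p, P (eA m p)) (hC : ∀ s p, P (eC s p)) :
    ∀ e, P e := by
  rintro (⟨m, q⟩ | ⟨s, q⟩)
  · induction q using QuotientGroup.induction_on with
    | H p => exact hA m p
  · induction q using QuotientGroup.induction_on with
    | H p => exact hC s p

/-- starting point -/
def xsrc : XE A B g → XV A B g
  | Sum.inl (_, q) => Quotient.map' (s₂ := QuotientGroup.leftRel (Pι A B g).range) id (by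
      intro p p' h
      rw [QuotientGroup.leftRel_apply] at h ⊢
      obtain ⟨a, _, ha⟩ := h
      exact ⟨a, ha⟩) q
  | Sum.inr (_, q) => Quotient.map' (s₂ := QuotientGroup.leftRel (Pι A B g).range) id (by
      intro p p' h
      rw [QuotientGroup.leftRel_apply] at h ⊢
      obtain ⟨a, _, ha⟩ := h
      exact ⟨a, ha⟩) q

@[simp] theorem xsrc_eA (m : Dr) (p : PP A B g) : xsrc (eA m p) = vx p := rfl
@[simp] theorem xsrc_eC (s : Bool) (p : PP A B g) : xsrc (eC s p) = vx p := rfl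

/-- inverse edge -/
def xinv : XE A B g → XE A B g
  | Sum.inl (m, q) => Sum.inl (m.inv, Quotient.map' (fun p => p * trn A B g m) (by
      intro p p' h
      rw [QuotientGroup.leftRel_apply] at h ⊢
      obtain ⟨a, ha, hh⟩ := h
      refine ⟨a, ha, ?_⟩
      rw [mul_inv_rev, mul_assoc, ← mul_assoc p⁻¹, ← hh, ← trn_comm A B g m ha,
        inv_mul_cancel_left]) q)
  | Sum.inr (s, q) => Sum.inr (!s, Quotient.map' (fun p => p * trc A B g s) (by
      intro p p' h
      rw [QuotientGroup.leftRel_apply] at h ⊢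
      obtain ⟨a, ha, hh⟩ := h
      refine ⟨a, ha, ?_⟩
      rw [mul_inv_rev, mul_assoc, ← mul_assoc p⁻¹, ← hh, ← trc_comm A B g s ha,
        inv_mul_cancel_left]) q)

@[simp] theorem xinv_eA (m : Dr) (p : PP A B g) : xinv (eA m p) = eA m.inv (p * trn A B g m) := rfl
@[simp] theorem xinv_eC (s : Bool) (p : PP A B g) : xinv (eC s p) = eC (!s) (p * trc A B g s) := rfl

/-- the triangles -/
inductive XT : XE A B g → XE A B g → XE A B g → Prop
  | f1 (m : Dr) (p : PP A B g) : XT (eA m.nxt p) (eA m p) (eA m.nxt.nxt (p * trn A B g m))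
  | f2 (m : Dr) (p : PP A B g) : XT (eA m p) (eA m.nxt p) (eA m.nxt.nxt.inv (p * trn A B g m.nxt))
  | o1 (p : PP A B g) : XT (eA .V' (p * Pι A B g g)) (eA .U p) (eC true (p * Pu A B g))
  | o2 (p : PP A B g) : XT (eA .U p) (eA .V' (p * Pι A B g g)) (eC false (p * Pu A B g * Pc A B g))
  | p1 (q : PP A B g) : XT (eC true q) (eA .U' q) (eA .V' (q * (Pu A B g)⁻¹ * Pι A B g g))
  | p2 (q : PP A B g) : XT (eA .U' q) (eC true q) (eA .V (q * Pc A B g))
  | q1 (r : PP A B g) : XT (eA .V r) (eC false r) (eA .U' (r * (Pc A B g)⁻¹))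
  | q2 (r : PP A B g) : XT (eC false r) (eA .V r) (eA .U (r * Pv A B g * (Pι A B g g)⁻¹))

/-- potential -/
def xδ : XE A B g → ℤ
  | Sum.inl (m, _) => m.δ
  | Sum.inr (s, _) => if s then -3 else 3

@[simp] theorem xδ_eA (m : Dr) (p : PP A B g) : xδ (eA m p) = m.δ := rfl
@[simp] theorem xδ_eC (s : Bool) (p : PP A B g) : xδ (eC s p) = if s then -3 else 3 := rfl

theorem P_g1 : (Pu A B g)⁻¹ * Pι A B g g = Pc A B g * Pv A B g := by
  rw [P_g, mul_assoc, inv_mul_cancel_left]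

theorem P_g2 : Pι A B g g * (Pv A B g)⁻¹ = Pu A B g * Pc A B g := by
  rw [P_g, mul_inv_cancel_right]

theorem P_g3 : Pv A B g * (Pι A B g g)⁻¹ = (Pc A B g)⁻¹ * (Pu A B g)⁻¹ := by
  rw [P_g]; group

theorem eA_eq_eC {m : Dr} {s : Bool} {p q : PP A B g} : (eA m p = eC s q) ↔ False :=
  ⟨fun h => eA_ne_eC h, False.elim⟩

theorem eC_eq_eA {m : Dr} {s : Bool} {p q : PP A B g} : (eC s q = eA m p) ↔ False :=
  ⟨fun h => eA_ne_eC h.symm, False.elim⟩

theorem XT.elim' {e e' f : XE A B g} (h : XT e e' f) :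
    (∃ m p, e = eA m.nxt p ∧ e' = eA m p ∧ f = eA m.nxt.nxt (p * trn A B g m)) ∨
    (∃ m p, e = eA m p ∧ e' = eA m.nxt p ∧ f = eA m.nxt.nxt.inv (p * trn A B g m.nxt)) ∨
    (∃ p, e = eA .V' (p * Pι A B g g) ∧ e' = eA .U p ∧ f = eC true (p * Pu A B g)) ∨
    (∃ p, e = eA .U p ∧ e' = eA .V' (p * Pι A B g g) ∧ f = eC false (p * Pu A B g * Pc A B g)) ∨
    (∃ p, e = eC true p ∧ e' = eA .U' p ∧ f = eA .V' (p * (Pu A B g)⁻¹ * Pι A B g g)) ∨
    (∃ p, e = eA .U' p ∧ e' = eC true p ∧ f = eA .V (p * Pc A B g)) ∨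
    (∃ p, e = eA .V p ∧ e' = eC false p ∧ f = eA .U' (p * (Pc A B g)⁻¹)) ∨
    (∃ p, e = eC false p ∧ e' = eA .V p ∧ f = eA .U (p * Pv A B g * (Pι A B g g)⁻¹)) := by
  cases h with
  | f1 m p => exact Or.inl ⟨m, p, rfl, rfl, rfl⟩
  | f2 m p => exact Or.inr (Or.inl ⟨m, p, rfl, rfl, rfl⟩)
  | o1 p => exact Or.inr (Or.inr (Or.inl ⟨p, rfl, rfl, rfl⟩))
  | o2 p => exact Or.inr (Or.inr (Or.inr (Or.inl ⟨p, rfl, rfl, rfl⟩)))
  | p1 p => exact Or.inr (Or.inr (Or.inr (Or.inr (Or.inl ⟨p, rfl, rfl, rfl⟩))))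
  | p2 p => exact Or.inr (Or.inr (Or.inr (Or.inr (Or.inr (Or.inl ⟨p, rfl, rfl, rfl⟩)))))
  | q1 p => exact Or.inr (Or.inr (Or.inr (Or.inr (Or.inr (Or.inr (Or.inl ⟨p, rfl, rfl, rfl⟩))))))
  | q2 p => exact Or.inr (Or.inr (Or.inr (Or.inr (Or.inr (Or.inr (Or.inr ⟨p, rfl, rfl, rfl⟩))))))

theorem not_mem_A (hg : ¬ IsABA A B g) : g ∉ A := fun h =>
  hg ⟨g, h, 1, B.one_mem, 1, A.one_mem, by simp⟩

/-- O-corner: the triangle is determined -/
theorem o_uniq (hg : ¬ IsABA A B g) (hgeo : Geo A B) (hι : Function.Injective (Pι A B g))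
    {p q : PP A B g} (h1 : ∃ a ∈ A, q = p * Pι A B g a)
    (h2 : ∃ a ∈ A, q * Pι A B g g = p * Pι A B g g * Pι A B g a) : p = q := by
  obtain ⟨a, ha, rfl⟩ := h1
  obtain ⟨a', ha', h2⟩ := h2
  have h3 : a * g = g * a' := by
    apply hι
    rw [map_mul, map_mul]
    rw [mul_assoc, mul_assoc] at h2
    exact mul_left_cancel h2
  have h4 : g * a' * g⁻¹ = a := by rw [← h3, mul_inv_cancel_right]
  by_cases h5 : a' = 1
  · rw [h5, mul_one, mul_inv_cancel] at h4
    rw [← h4, map_one, mul_one]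
  · exact absurd (hgeo.aa g a' ha' (by rw [h4]; exact ha) h5) (not_mem_A hg)

/-- P- and Q-corners -/
theorem ab_uniq (hgeo : Geo A B) (hι : Function.Injective (Pι A B g))
    {p q : PP A B g} (h1 : ∃ a ∈ A, q = p * Pι A B g a) (h2 : ∃ b ∈ B, q = p * Pι A B g b) :
    p = q := by
  obtain ⟨a, ha, rfl⟩ := h1
  obtain ⟨b, hb, h2⟩ := h2
  have h3 : a = b := hι (mul_left_cancel h2)
  have h4 : a = 1 := hgeo.ab a ha (h3 ▸ hb)
  rw [h4, map_one, mul_one]

theorem XT_uniq (hg : ¬ IsABA A B g) (hgeo : Geo A B) (hι : Function.Injective (Pι A B g))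
    {e e' f f' : XE A B g} (h1 : XT e e' f) (h2 : XT e e' f') : f = f' := by
  rcases h1.elim' with ⟨m, p, rfl, rfl, rfl⟩ | ⟨m, p, rfl, rfl, rfl⟩ | ⟨p, rfl, rfl, rfl⟩ |
    ⟨p, rfl, rfl, rfl⟩ | ⟨p, rfl, rfl, rfl⟩ | ⟨p, rfl, rfl, rfl⟩ | ⟨p, rfl, rfl, rfl⟩ |
    ⟨p, rfl, rfl, rfl⟩ <;>
  rcases h2.elim' with ⟨m', q, h3, h4, rfl⟩ | ⟨m', q, h3, h4, rfl⟩ | ⟨q, h3, h4, rfl⟩ |
    ⟨q, h3, h4, rfl⟩ | ⟨q, h3, h4, rfl⟩ | ⟨q, h3, h4, rfl⟩ | ⟨q, h3, h4, rfl⟩ |
    ⟨q, h3, h4, rfl⟩ <;>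
  try simp only [eA_eq, eC_eq, eA_eq_eC, eC_eq_eA] at h3 h4
  all_goals try (exfalso; clear h1 h2; obtain ⟨h3, -⟩ := h3; obtain ⟨h4, -⟩ := h4; revert h3 h4; decide +revert)
  · obtain ⟨rfl, a, ha, rfl⟩ := h4
    rw [eA_eq]
    refine ⟨rfl, a, ha, ?_⟩
    rw [mul_assoc, mul_assoc, trn_comm A B g m ha]
  · obtain ⟨rfl, a, ha, rfl⟩ := h3
    rw [eA_eq]
    refine ⟨rfl, a, ha, ?_⟩
    rw [mul_assoc, mul_assoc, trn_comm A B g _ ha]
  · rw [o_uniq hg hgeo hι h4.2 h3.2]
  · rw [o_uniq hg hgeo hι h3.2 h4.2]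
  · rw [ab_uniq hgeo hι h4.2 h3.2]
  · rw [ab_uniq hgeo hι h3.2 h4.2]
  · rw [ab_uniq hgeo hι h3.2 h4.2]
  · rw [ab_uniq hgeo hι h4.2 h3.2]

/-- the triangle graph of P -/
def XX (hg : ¬ IsABA A B g) (hgeo : Geo A B) (hι : Function.Injective (Pι A B g)) :
    _root_.Pool.Agent.ABA.B.TG (XV A B g) (XE A B g) where
  src := xsrc
  inv := xinv
  Tri := XT
  δ := xδ
  inv_inv := by
    refine XE.ind ?_ ?_
    · intro m p
      rw [xinv_eA, xinv_eA, trn_inv, mul_inv_cancel_right, Dr.inv_inv]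
    · intro s p
      rw [xinv_eC, xinv_eC, trc_inv, mul_inv_cancel_right, Bool.not_not]
  tri_src := by
    rintro e e' e'' (⟨m, p⟩ | ⟨m, p⟩ | p | p | p | p | p | p)
    · rfl
    · rfl
    · exact vx_eq.2 ⟨g, rfl⟩
    · exact (vx_eq.2 ⟨g, rfl⟩).symm
    · rfl
    · rfl
    · rfl
    · rfl
  tri_mid := by
    rintro e e' e'' (⟨m, p⟩ | ⟨m, p⟩ | p | p | p | p | p | p)
    · rfl
    · rfl
    · rfl
    · simp only [xsrc_eC, xinv_eA, xsrc_eA, trn]
      rw [mul_assoc p (Pι A B g g), P_g2, mul_assoc]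
    · simp only [xsrc_eA, xinv_eA, trn]
      exact (vx_eq.2 ⟨g, rfl⟩).symm
    · rfl
    · rfl
    · simp only [xsrc_eA, xinv_eA, trn]
      refine (vx_eq.2 ⟨g, ?_⟩)
      group
  tri_tgt := by
    rintro e e' e'' (⟨m, p⟩ | ⟨m, p⟩ | p | p | p | p | p | p)
    · simp only [xsrc_eA, xinv_eA]
      rw [mul_assoc, ← trn_nxt]
    · simp only [xsrc_eA, xinv_eA]
      rw [trn_nxt A B g m, trn_inv]
      group
    · simp only [xsrc_eA, xinv_eA, xsrc_eC, xinv_eC, trn, trc]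
      rw [mul_assoc p (Pι A B g g), P_g2, mul_assoc]
    · simp only [xsrc_eA, xinv_eA, xsrc_eC, xinv_eC, trn, trc]
      rw [mul_assoc, mul_inv_cancel, mul_one]
    · simp only [xsrc_eA, xinv_eA, xsrc_eC, xinv_eC, trn, trc]
      rw [mul_assoc p, P_g1]
      congr 1
      group
    · simp only [xsrc_eA, xinv_eA, xsrc_eC, xinv_eC, trn, trc]
      rw [mul_assoc p, ← P_g1, ← mul_assoc]
      exact (vx_eq.2 ⟨g, rfl⟩).symm
    · simp only [xsrc_eA, xinv_eA, xsrc_eC, xinv_eC, trn, trc]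
      rw [mul_assoc p, ← P_g3, ← mul_assoc]
      refine (vx_eq.2 ⟨g, ?_⟩)
      group
    · simp only [xsrc_eA, xinv_eA, xsrc_eC, xinv_eC, trn, trc]
      rw [mul_assoc p, P_g3]
      congr 1
      group
  tri_swap := by
    rintro e e' e'' (⟨m, p⟩ | ⟨m, p⟩ | p | p | p | p | p | p)
    · rw [xinv_eA, mul_assoc, ← trn_nxt]
      exact XT.f2 m p
    · rw [xinv_eA, Dr.inv_inv, trn_inv, trn_nxt A B g m]
      have := XT.f1 m p
      have e1 : p * (trn A B g m * trn A B g m.nxt.nxt) * (trn A B g m.nxt.nxt)⁻¹ =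
        p * trn A B g m := by group
      rw [e1]
      exact this
    · exact XT.o2 p
    · have := XT.o1 p
      rw [xinv_eC]
      simp only [trc, Bool.not_false]
      have e1 : p * Pu A B g * Pc A B g * (Pc A B g)⁻¹ = p * Pu A B g := by group
      rw [e1]
      exact this
    · have := XT.p2 p
      rw [xinv_eA]
      simp only [trn, Dr.inv]
      have e1 : p * (Pu A B g)⁻¹ * Pι A B g g * (Pv A B g)⁻¹ = p * Pc A B g := by
        rw [P_g]; group
      rw [e1]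
      exact this
    · have := XT.p1 p
      rw [xinv_eA]
      simp only [trn, Dr.inv]
      have e1 : p * Pc A B g * Pv A B g = p * (Pu A B g)⁻¹ * Pι A B g g := by
        rw [P_g]; group
      rw [e1]
      exact this
    · have := XT.q2 p
      rw [xinv_eA]
      simp only [trn, Dr.inv]
      have e1 : p * (Pc A B g)⁻¹ * (Pu A B g)⁻¹ = p * Pv A B g * (Pι A B g g)⁻¹ := by
        rw [P_g]; group
      rw [e1]
      exact this
    · have := XT.q1 p
      rw [xinv_eA]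
      simp only [trn, Dr.inv]
      have e1 : p * Pv A B g * (Pι A B g g)⁻¹ * Pu A B g = p * (Pc A B g)⁻¹ := by
        rw [P_g]; group
      rw [e1]
      exact this
  tri_rot := by
    rintro e e' e'' (⟨m, p⟩ | ⟨m, p⟩ | p | p | p | p | p | p)
    · rw [xinv_eA, xinv_eA]
      have := XT.f1 m.nxt.nxt (p * trn A B g m)
      rw [Dr.nxt3, mul_assoc, ← trn_nxt, Dr.inv_nxt] at this
      exact this
    · rw [xinv_eA, xinv_eA]
      have := XT.f2 m.inv.nxt (p * trn A B g m.nxt)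
      rw [show m.inv.nxt.nxt = m.nxt.nxt.inv by rw [Dr.inv_nxt, Dr.inv_nxt],
        show m.nxt.nxt.inv.nxt = m by rw [Dr.inv_nxt, Dr.nxt3, Dr.inv_inv], Dr.inv_nxt,
        mul_assoc] at this
      have e1 : trn A B g m.nxt * trn A B g m.nxt.nxt.inv = trn A B g m := by
        rw [trn_nxt A B g m, trn_inv]; group
      rw [e1] at this
      exact this
    · rw [xinv_eA, xinv_eA]
      have := XT.p2 (p * Pu A B g)
      simp only [trn, Dr.inv]
      have e1 : p * Pι A B g g * (Pv A B g)⁻¹ = p * Pu A B g * Pc A B g := by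
        rw [P_g]; group
      rw [e1]
      exact this
    · rw [xinv_eA, xinv_eA]
      have := XT.q1 (p * Pu A B g * Pc A B g)
      simp only [trn, Dr.inv]
      have e1 : p * Pι A B g g * (Pv A B g)⁻¹ = p * Pu A B g * Pc A B g := by
        rw [P_g]; group
      have e2 : p * Pu A B g * Pc A B g * (Pc A B g)⁻¹ = p * Pu A B g := by group
      rw [e2] at this
      rw [e1]
      exact this
    · rw [xinv_eA, xinv_eC]
      have := XT.o2 (p * (Pu A B g)⁻¹)
      simp only [trn, trc, Dr.inv, Bool.not_true]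
      have e1 : p * (Pu A B g)⁻¹ * Pu A B g * Pc A B g = p * Pc A B g := by group
      rw [e1] at this
      exact this
    · rw [xinv_eA, xinv_eC]
      have := XT.q2 (p * Pc A B g)
      simp only [trn, trc, Dr.inv, Bool.not_true]
      have e1 : p * Pc A B g * Pv A B g * (Pι A B g g)⁻¹ = p * (Pu A B g)⁻¹ := by
        rw [P_g]; group
      rw [e1] at this
      exact this
    · rw [xinv_eA, xinv_eC]
      have := XT.p1 (p * (Pc A B g)⁻¹)
      simp only [trn, trc, Dr.inv, Bool.not_false]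
      have e1 : p * (Pc A B g)⁻¹ * (Pu A B g)⁻¹ * Pι A B g g = p * Pv A B g := by
        rw [P_g]; group
      rw [e1] at this
      exact this
    · rw [xinv_eA, xinv_eC]
      have := XT.o1 (p * Pv A B g * (Pι A B g g)⁻¹)
      simp only [trn, trc, Dr.inv, Bool.not_false]
      have e1 : p * Pv A B g * (Pι A B g g)⁻¹ * Pι A B g g = p * Pv A B g := by group
      have e2 : p * Pv A B g * (Pι A B g g)⁻¹ * Pu A B g = p * (Pc A B g)⁻¹ := by
        rw [P_g]; group
      rw [e1, e2] at this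
      exact this
  tri_uniq := fun h1 h2 => XT_uniq hg hgeo hι h1 h2
  δ_inv := by
    refine XE.ind ?_ ?_
    · intro m p
      rw [xinv_eA]
      cases m <;> rfl
    · intro s p
      rw [xinv_eC]
      cases s <;> rfl
  δ_ne := by
    refine XE.ind ?_ ?_
    · intro m p
      rw [xδ_eA]
      cases m <;> decide
    · intro s p
      rw [xδ_eC]
      cases s <;> decide
  δ_tri := by
    rintro e e' e'' (⟨m, p⟩ | ⟨m, p⟩ | p | p | p | p | p | p)
    · cases m <;> rfl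
    · cases m <;> rfl
    all_goals rfl

end

end Pool.Agent.ABA
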