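import Pool.Agent.Helper83_ABA.PX
import Pool.Agent.Helper52_ABA.LStmts

/-! # The action of P on its triangle graph, and the corners -/

namespace Pool.Agent.ABA

open _root_.Pool.Agent.ABA.B

section

variable {G : Type} [Group G] {A B : Subgroup G} {g : G}

/-- action on the edges -/
def actE (p : PP A B g) : XE A B g → XE A B g
  | Sum.inl (m, q) => Sum.inl (m, p • q)
  | Sum.inr (s, q) => Sum.inr (s, p • q)

@[simp] theorem actE_eA (p q : PP A B g) (m : Dr) : actE p (eA m q) = eA m (p * q) := rfl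
@[simp] theorem actE_eC (p q : PP A B g) (s : Bool) : actE p (eC s q) = eC s (p * q) := rfl
@[simp] theorem actV_vx (p q : PP A B g) : p • (vx q : XV A B g) = vx (p * q) := rfl

theorem actE_one : actE (1 : PP A B g) = id := by
  funext e
  refine XE.ind (P := fun e => actE 1 e = id e) ?_ ?_ e
  · intro m p; simp
  · intro s p; simp

theorem actE_mul (p q : PP A B g) : actE (p * q) = actE p ∘ actE q := by
  funext e
  refine XE.ind (P := fun e => actE (p * q) e = (actE p ∘ actE q) e) ?_ ?_ e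
  · intro m r; simp [mul_assoc]
  · intro s r; simp [mul_assoc]

theorem actE_inj (p : PP A B g) : Function.Injective (actE p) := by
  intro e e' h
  have := congrArg (actE p⁻¹) h
  rw [← Function.comp_apply (f := actE p⁻¹), ← actE_mul, inv_mul_cancel, actE_one,
    ← Function.comp_apply (f := actE p⁻¹), ← actE_mul, inv_mul_cancel, actE_one] at this
  exact this

theorem xsrc_act (p : PP A B g) (e : XE A B g) : xsrc (actE p e) = p • xsrc e := by
  refine XE.ind (P := fun e => xsrc (actE p e) = p • xsrc e) ?_ ?_ e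
  · intro m q; simp
  · intro s q; simp

theorem xinv_act (p : PP A B g) (e : XE A B g) : xinv (actE p e) = actE p (xinv e) := by
  refine XE.ind (P := fun e => xinv (actE p e) = actE p (xinv e)) ?_ ?_ e
  · intro m q; simp [mul_assoc]
  · intro s q; simp [mul_assoc]

theorem xδ_act (p : PP A B g) (e : XE A B g) : xδ (actE p e) = xδ e := by
  refine XE.ind (P := fun e => xδ (actE p e) = xδ e) ?_ ?_ e
  · intro m q; simp
  · intro s q; simp

theorem XT_act (p : PP A B g) {e e' e'' : XE A B g} (h : XT e e' e'') :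
    XT (actE p e) (actE p e') (actE p e'') := by
  cases h with
  | f1 m q => have := XT.f1 m (p * q); simpa [mul_assoc] using this
  | f2 m q => have := XT.f2 m (p * q); simpa [mul_assoc] using this
  | o1 q => have := XT.o1 (p * q); simpa [mul_assoc] using this
  | o2 q => have := XT.o2 (p * q); simpa [mul_assoc] using this
  | p1 q => have := XT.p1 (p * q); simpa [mul_assoc] using this
  | p2 q => have := XT.p2 (p * q); simpa [mul_assoc] using this
  | q1 q => have := XT.q1 (p * q); simpa [mul_assoc] using this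
  | q2 q => have := XT.q2 (p * q); simpa [mul_assoc] using this

variable {hg : ¬ IsABA A B g} {hgeo : Geo A B} {hι : Function.Injective (Pι A B g)}

theorem D_act (p : PP A B g) {x : XV A B g} {w : List (XE A B g)} {n : ℕ}
    (h : (XX hg hgeo hι).D x w n) : (XX hg hgeo hι).D (p • x) (w.map (actE p)) n := by
  induction h with
  | nil x => exact TG.D.nil _
  | @br e b a m n _ _ ih1 ih2 =>
    have hs : p • (XX hg hgeo hι).src e = (XX hg hgeo hι).src (actE p e) := (xsrc_act p e).symm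
    have ht : p • (XX hg hgeo hι).tgt e = (XX hg hgeo hι).tgt (actE p e) := by
      change p • xsrc (xinv e) = xsrc (xinv (actE p e))
      rw [xinv_act, xsrc_act]
    have hi : actE p ((XX hg hgeo hι).inv e) = (XX hg hgeo hι).inv (actE p e) := (xinv_act p e).symm
    rw [hs] at ih2 ⊢
    rw [ht] at ih1
    have := TG.D.br ih1 ih2
    simpa [hi] using this
  | @tri e e' e'' a n ht _ ih =>
    have hs : p • (XX hg hgeo hι).src e = (XX hg hgeo hι).src (actE p e) := (xsrc_act p e).symm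
    rw [hs] at ih ⊢
    exact TG.D.tri (S := XX hg hgeo hι) (XT_act p ht) ih

theorem IsP_act (p : PP A B g) {x y : XV A B g} {w : List (XE A B g)}
    (h : (XX hg hgeo hι).IsP x w y) : (XX hg hgeo hι).IsP (p • x) (w.map (actE p)) (p • y) := by
  induction w generalizing x with
  | nil => exact congrArg (p • ·) h
  | cons e w ih =>
    refine ⟨?_, ?_⟩
    · change xsrc (actE p e) = p • x
      rw [xsrc_act]
      exact congrArg (p • ·) h.1
    · have := ih h.2
      change (XX hg hgeo hι).IsP (xsrc (xinv (actE p e))) _ _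
      rw [xinv_act, xsrc_act]
      exact this

theorem rv_act (p : PP A B g) (w : List (XE A B g)) :
    (XX hg hgeo hι).rv (w.map (actE p)) = ((XX hg hgeo hι).rv w).map (actE p) := by
  induction w with
  | nil => rfl
  | cons e w ih =>
    rw [List.map_cons, TG.rv_cons, TG.rv_cons, ih, List.map_append, List.map_cons, List.map_nil]
    congr 2
    exact xinv_act p e

/-- the corners -/
theorem cor_iff (e e' : XE A B g) : (XX hg hgeo hι).Cor e e' ↔
    (∃ m p, e = eA m.nxt p ∧ e' = eA m p) ∨ (∃ m p, e = eA m p ∧ e' = eA m.nxt p) ∨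
    (∃ p, e = eA .V' (p * Pι A B g g) ∧ e' = eA .U p) ∨
    (∃ p, e = eA .U p ∧ e' = eA .V' (p * Pι A B g g)) ∨
    (∃ p, e = eC true p ∧ e' = eA .U' p) ∨ (∃ p, e = eA .U' p ∧ e' = eC true p) ∨
    (∃ p, e = eA .V p ∧ e' = eC false p) ∨ (∃ p, e = eC false p ∧ e' = eA .V p) := by
  constructor
  · rintro ⟨f, h⟩
    have h : XT e e' f := h
    rcases h.elim' with ⟨m, p, h1, h2, -⟩ | ⟨m, p, h1, h2, -⟩ | ⟨p, h1, h2, -⟩ |
      ⟨p, h1, h2, -⟩ | ⟨p, h1, h2, -⟩ | ⟨p, h1, h2, -⟩ | ⟨p, h1, h2, -⟩ | ⟨p, h1, h2, -⟩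
    · exact Or.inl ⟨m, p, h1, h2⟩
    · exact Or.inr (Or.inl ⟨m, p, h1, h2⟩)
    · exact Or.inr (Or.inr (Or.inl ⟨p, h1, h2⟩))
    · exact Or.inr (Or.inr (Or.inr (Or.inl ⟨p, h1, h2⟩)))
    · exact Or.inr (Or.inr (Or.inr (Or.inr (Or.inl ⟨p, h1, h2⟩))))
    · exact Or.inr (Or.inr (Or.inr (Or.inr (Or.inr (Or.inl ⟨p, h1, h2⟩)))))
    · exact Or.inr (Or.inr (Or.inr (Or.inr (Or.inr (Or.inr (Or.inl ⟨p, h1, h2⟩))))))
    · exact Or.inr (Or.inr (Or.inr (Or.inr (Or.inr (Or.inr (Or.inr ⟨p, h1, h2⟩))))))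
  · rintro (⟨m, p, rfl, rfl⟩ | ⟨m, p, rfl, rfl⟩ | ⟨p, rfl, rfl⟩ | ⟨p, rfl, rfl⟩ | ⟨p, rfl, rfl⟩ |
      ⟨p, rfl, rfl⟩ | ⟨p, rfl, rfl⟩ | ⟨p, rfl, rfl⟩)
    · exact ⟨_, XT.f1 m p⟩
    · exact ⟨_, XT.f2 m p⟩
    · exact ⟨_, XT.o1 p⟩
    · exact ⟨_, XT.o2 p⟩
    · exact ⟨_, XT.p1 p⟩
    · exact ⟨_, XT.p2 p⟩
    · exact ⟨_, XT.q1 p⟩
    · exact ⟨_, XT.q2 p⟩

/-- the edges at the vertex p G -/
theorem edge_at {p : PP A B g} {e : XE A B g} (h : xsrc e = vx p) :
    (∃ m h, e = eA m (p * Pι A B g h)) ∨ ∃ s h, e = eC s (p * Pι A B g h) := by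
  revert h
  refine XE.ind (P := fun e => xsrc e = vx p → (∃ m h, e = eA m (p * Pι A B g h)) ∨
    ∃ s h, e = eC s (p * Pι A B g h)) ?_ ?_ e
  · intro m q h
    obtain ⟨x, rfl⟩ := vx_eq.1 h.symm
    exact Or.inl ⟨m, x, rfl⟩
  · intro s q h
    obtain ⟨x, rfl⟩ := vx_eq.1 h.symm
    exact Or.inr ⟨s, x, rfl⟩

end

end Pool.Agent.ABA
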