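import Pool.Agent.Helper83_ABA.Ops
import Pool.Agent.Helper17_ABA.Flat

open Equiv Equiv.Perm H17ABA

namespace Pool.Agent.ABA

/-- a finite set closed under a permutation is closed under the cycle relation -/
theorem closed_cycle {Ω : Type} [Finite Ω] (π : Perm Ω) (S : Set Ω) (hS : ∀ w ∈ S, π w ∈ S)
    {x y : Ω} (hx : x ∈ S) (h : SameCycle π x y) : y ∈ S := by
  have key : ∀ (n : ℕ) (z : Ω), z ∈ S → (π ^ n) z ∈ S := by
    intro n
    induction n with
    | zero => intro z hz; simpa using hz
    | succ n ih =>
      intro z hz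
      rw [pow_succ', Perm.mul_apply]
      exact hS _ (ih z hz)
  classical
  have : Fintype Ω := Fintype.ofFinite Ω
  obtain ⟨n, -, -, hn⟩ := h.exists_pow_eq
  rw [← hn]
  exact key n x hx

namespace FC

variable {L : Type} [AddCommGroup L] {Ω : Type} [Fintype Ω] [DecidableEq Ω]
  {fs gs es : List (List Ω)}

theorem live_l (D : FC L Ω fs) {w : Ω} (hw : w ∈ fs.flatten) : D.l w ∈ fs.flatten := by
  by_contra hh
  have := D.l.injective (D.dead _ hh)
  rw [this] at hh
  exact hh hw

open Classical in
/-- put the labels to zero on a closed set -/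
noncomputable def zero (D : FC L Ω fs) (S : Set Ω) (hS : ∀ w ∈ S, D.l w ∈ S) : FC L Ω fs where
  l := D.l
  lab := fun w => if w ∈ S then ((D.lab w).1, 0) else D.lab w
  nodup := D.nodup
  dead := D.dead
  ty_l := by
    intro w
    have key : ∀ x, (if x ∈ S then ((D.lab x).1, (0 : L)) else D.lab x).1 = (D.lab x).1 := by
      intro x
      split_ifs <;> rfl
    rw [key, key, D.ty_l]
  sum_l := by
    intro w
    unfold cycSum
    by_cases hw : w ∈ S
    · refine Finset.sum_eq_zero (fun v hv => ?_)
      simp only [Finset.mem_filter, Finset.mem_univ, true_and] at hv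
      have : v ∈ S := closed_cycle D.l S hS hw hv
      rw [if_pos this]
    · have h1 := D.sum_l w
      unfold cycSum at h1
      refine Eq.trans ?_ h1
      refine Finset.sum_congr rfl (fun v hv => ?_)
      simp only [Finset.mem_filter, Finset.mem_univ, true_and] at hv
      have : v ∉ S := fun hv' => hw (closed_cycle D.l S hS hv' hv.symm)
      simp only [if_neg this]
  planar := D.planar

theorem zero_mem (D : FC L Ω fs) (S : Set Ω) (hS : ∀ w ∈ S, D.l w ∈ S) {w : Ω} (hw : w ∈ S) :
    (D.zero S hS).lab w = ((D.lab w).1, 0) := if_pos hw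

theorem zero_not_mem (D : FC L Ω fs) (S : Set Ω) (hS : ∀ w ∈ S, D.l w ∈ S) {w : Ω} (hw : w ∉ S) :
    (D.zero S hS).lab w = D.lab w := if_neg hw

theorem ev_zeros (u : Wd L) (h : ∀ s ∈ u, s.2 = 0) : ev (αF L) u = 1 := by
  induction u with
  | nil => rfl
  | cons s u ih =>
    rw [ev_cons, h s (by simp), pw_zero, one_mul]
    exact ih (fun s hs => h s (by simp [hs]))

theorem junkMany (D : FC L Ω (es ++ gs)) (h : ∀ e ∈ es, ev (αF L) (e.map D.lab) = 1) :
    ∃ D' : FC L Ω gs, ∀ x ∈ gs.flatten, D'.lab x = D.lab x := by
  induction es with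
  | nil => exact ⟨D, fun _ _ => rfl⟩
  | cons e es ih =>
    obtain ⟨D1, h1⟩ := FC.junk (d := e) (fs := es ++ gs) D (h e (by simp))
    obtain ⟨D2, h2⟩ := ih D1 (fun e' he' => by
      have : e'.map D1.lab = e'.map D.lab :=
        List.map_congr_left (fun x hx => h1 x (List.mem_flatten.2 ⟨e', by simp [he'], hx⟩))
      rw [this]
      exact h e' (by simp [he']))
    refine ⟨D2, fun x hx => ?_⟩
    rw [h2 x hx, h1 x (by rw [List.flatten_append]; exact List.mem_append_right _ hx)]

/-- faces which are not connected with the others by lines can be removed -/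
theorem removeClosed (D : FC L Ω (es ++ gs)) (h : ∀ w ∈ es.flatten, D.l w ∈ es.flatten) :
    ∃ D' : FC L Ω gs, ∀ x ∈ gs.flatten, D'.lab x = D.lab x := by
  classical
  obtain ⟨D2, h2⟩ := (D.zero {w | w ∈ es.flatten} h).junkMany (fun e he => by
    apply ev_zeros
    intro s hs
    obtain ⟨x, hx, rfl⟩ := List.mem_map.1 hs
    rw [zero_mem _ _ _ (show x ∈ {w | w ∈ es.flatten} from List.mem_flatten.2 ⟨e, he, hx⟩)])
  refine ⟨D2, fun x hx => ?_⟩
  have hx' : x ∉ {w | w ∈ es.flatten} := by
    intro hx'
    have := D.nodup
    rw [List.flatten_append, List.nodup_append] at this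
    exact this.2.2 x hx' x hx rfl
  rw [h2 x hx, zero_not_mem _ _ _ hx']

/-- if a face is closed, one can keep it alone -/
theorem keepClosed {d : List Ω} (D : FC L Ω (d :: fs)) (h : ∀ w ∈ d, D.l w ∈ d) :
    ∃ D' : FC L Ω [d], ∀ x ∈ d, D'.lab x = D.lab x := by
  have hp : (d :: fs).Perm (fs ++ [d]) := (List.perm_append_singleton d fs).symm
  obtain ⟨D', hD'⟩ := (D.ofPerm hp).removeClosed (by
    intro w hw
    change D.l w ∈ fs.flatten
    have h1 : D.l w ∈ (d :: fs).flatten := D.live_l (by
      rw [List.flatten_cons]; exact List.mem_append_right _ hw)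
    rw [List.flatten_cons, List.mem_append] at h1
    rcases h1 with h1 | h1
    · exfalso
      have h2 : w ∈ d := closed_cycle D.l {x | x ∈ d} h h1 ((cs_apply D.l w).symm)
      have := D.nodup
      rw [List.flatten_cons, List.nodup_append] at this
      exact this.2.2 w h2 w hw rfl
    · exact h1)
  exact ⟨D', fun x hx => hD' x (by simpa using hx)⟩

/-- absorb a neighbouring face -/
theorem absorb {c1 c2 d1 d2 : List Ω} {w w' : Ω}
    (D : FC L Ω ((c1 ++ w :: c2) :: (d1 ++ w' :: d2) :: fs)) (hl : D.l w = w') :
    ∃ D' : FC L Ω ((c1 ++ w :: (w' :: (d2 ++ d1) ++ c2)) :: fs), D'.lab = D.lab ∧ D'.l = D.l := by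
  let D1 := D.rot (e := (c2 ++ c1) ++ [w]) (by
    refine ⟨(c1 ++ [w]).length, ?_⟩
    have : c1 ++ w :: c2 = (c1 ++ [w]) ++ c2 := by simp
    rw [this, List.rotate_append_length_eq, ← List.append_assoc])
  let D2 := (D1.ofPerm (List.Perm.swap _ _ _)).rot (e := w' :: (d2 ++ d1)) (by
    refine ⟨d1.length, ?_⟩
    rw [List.rotate_append_length_eq]
    rfl)
  let D3 := D2.ofPerm (List.Perm.swap _ _ _)
  obtain ⟨x, xs, hx⟩ : ∃ x xs, (c2 ++ c1) ++ [w] = x :: xs := by
    rcases h : (c2 ++ c1) ++ [w] with _ | ⟨x, xs⟩
    · simp at h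
    · exact ⟨x, xs, rfl⟩
  have key : ∀ (e : List Ω) (E : FC L Ω (e :: (w' :: (d2 ++ d1)) :: fs)) (he : e = x :: xs)
      (hlast : e.getLast (by rw [he]; simp) = w) (hEl : E.l w = w'),
      ∃ E' : FC L Ω ((e ++ w' :: (d2 ++ d1)) :: fs), E'.lab = E.lab ∧ E'.l = E.l := by
    intro e E he hlast hEl
    subst he
    exact ⟨E.faceMerge hlast hEl, rfl, rfl⟩
  obtain ⟨D4, h4, h4'⟩ := key _ D3 hx (by simp) hl
  refine ⟨D4.rot (e := c1 ++ w :: (w' :: (d2 ++ d1) ++ c2)) ?_, h4, h4'⟩
  refine ⟨c2.length, ?_⟩
  rw [List.append_assoc, List.append_assoc, List.rotate_append_length_eq]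
  simp

/-- a single face: a fixed point of the lines or of the curves -/
theorem single {d : List Ω} (D : FC L Ω [d]) (hd : d ≠ []) :
    ∃ w ∈ d, D.l w = w ∨ facePerm [d] w = D.l w := by
  by_contra hcon
  push Not at hcon
  have hσd : ∀ w, w ∉ d → facePerm [d] w = w := fun w hw =>
    facePerm_apply_not_mem (by simpa using hw)
  have hld : ∀ w, w ∉ d → D.l w = w := fun w hw => D.dead w (by simpa using hw)
  -- orbits
  have hle : cs D.l⁻¹ ≤ cs (facePerm [d]) := by
    rw [cs_inv, cs_le_iff]
    intro w
    by_cases hw : w ∈ d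
    · have h1 : D.l w ∈ [d].flatten := D.live_l (by simpa using hw)
      exact sameCycle_face D.nodup (List.mem_singleton_self d) hw (by simpa using h1)
    · rw [hld w hw]
  have horb : orb2 (facePerm [d]) D.l⁻¹ = cs (facePerm [d]) := sup_eq_left.2 hle
  have hpl : cyc (facePerm [d]) + cyc D.l⁻¹ + cyc (facePerm [d] * D.l⁻¹) =
      Nat.card Ω + 2 * nc (orb2 (facePerm [d]) D.l⁻¹) := D.planar
  rw [horb] at hpl
  have hnc : nc (cs (facePerm [d])) = cyc (facePerm [d]) := rfl
  have h1 := two_mul_cyc_le D.l⁻¹
  have h2 := two_mul_cyc_le (facePerm [d] * D.l⁻¹)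
  obtain ⟨w0, hw0⟩ := List.exists_mem_of_ne_nil d hd
  -- the head is not fixed by the faces
  have hw1 : facePerm [d] w0 ≠ w0 := by
    intro hh
    -- then d has only one element, so l w0 = w0
    have h3 : D.l w0 ∈ d := by
      have := D.live_l (w := w0) (by simpa using hw0)
      simpa using this
    have h4 : SameCycle (facePerm [d]) w0 (D.l w0) :=
      sameCycle_face D.nodup (List.mem_singleton_self d) hw0 h3
    exact (hcon w0 hw0).1 (h4.eq_of_left hh).symm
  have h3 := fix_lt_cyc (facePerm [d]) hw1
  have h4 : Nat.card {x : Ω // D.l⁻¹ x = x} ≤ Nat.card {x : Ω // facePerm [d] x = x} := by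
    refine Nat.card_le_card_of_injective (fun x => ⟨x.1, ?_⟩) ?_
    · apply hσd
      intro hx
      refine (hcon x.1 hx).1 ?_
      have := x.2
      rw [Perm.inv_eq_iff_eq] at this
      exact this.symm
    · intro x y hxy
      exact Subtype.ext (congrArg (fun z : {x : Ω // facePerm [d] x = x} => z.1) hxy)
  have h5 : Nat.card {x : Ω // (facePerm [d] * D.l⁻¹) x = x} ≤
      Nat.card {x : Ω // facePerm [d] x = x} := by
    refine Nat.card_le_card_of_injective (fun x => ⟨x.1, ?_⟩) ?_
    · apply hσd
      intro hx
      have h6 := x.2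
      rw [Perm.mul_apply] at h6
      have h7 : D.l⁻¹ x.1 ∈ d := by
        by_contra hh
        have h8 := hld _ hh
        rw [show D.l (D.l⁻¹ x.1) = x.1 by simp] at h8
        rw [← h8] at hh
        exact hh hx
      refine (hcon _ h7).2 ?_
      rw [h6, show D.l (D.l⁻¹ x.1) = x.1 by simp]
    · intro x y hxy
      exact Subtype.ext (congrArg (fun z : {x : Ω // facePerm [d] x = x} => z.1) hxy)
  omega

end FC

/-- Elementary derivations of a cyclic word (number of elementary loops counted). -/
inductive Red {L : Type} [AddCommGroup L] (R : Set (Wd L)) : Wd L → ℕ → Prop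
  | nil : Red R [] 0
  | ins (u v q : Wd L) (n : ℕ) : q ∈ R → Red R (u ++ (q ++ v)) n → Red R (u ++ v) (n + 1)
  | fold (u v : Wd L) (t : Bool) (x y : L) (n : ℕ) : Red R (u ++ (t, x + y) :: v) n →
      Red R (u ++ (t, x) :: (t, y) :: v) (n + 1)
  | zero (u v : Wd L) (t : Bool) (n : ℕ) : Red R (u ++ v) n → Red R (u ++ (t, 0) :: v) (n + 1)
  | rot (u v : Wd L) (n : ℕ) : Red R (v ++ u) n → Red R (u ++ v) n

variable {L : Type} [AddCommGroup L]

theorem FC.cyc_self {Ω : Type} [Fintype Ω] [DecidableEq Ω] {fs : List (List Ω)} (D : FC L Ω fs)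
    {w : Ω} (h : D.l w = w) : (D.lab w).2 = 0 := by
  have h1 := D.sum_l w
  unfold cycSum at h1
  classical
  rw [Finset.sum_eq_single w] at h1
  · exact h1
  · intro v hv hvw
    simp only [Finset.mem_filter, Finset.mem_univ, true_and] at hv
    exact absurd (hv.eq_of_left h).symm hvw
  · intro hv
    exfalso
    apply hv
    simp only [Finset.mem_filter, Finset.mem_univ, true_and]
    exact SameCycle.refl _ _

/-- SOUNDNESS with counting. -/
theorem FC.red (R : Set (Wd L)) (hR : ∀ q ∈ R, ∀ q', q ~r q' → q' ∈ R) {Ω : Type} [Fintype Ω]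
    [DecidableEq Ω] (N : ℕ) : ∀ (d : List Ω) (fs : List (List Ω)) (D : FC L Ω (d :: fs)),
    (∀ e ∈ fs, e.map D.lab ∈ R) → fs.length + (d :: fs).flatten.length ≤ N →
    ∃ n ≤ N, Red R (d.map D.lab) n := by
  induction N with
  | zero =>
    intro d fs D _ hN
    have hfs : fs = [] := List.length_eq_zero_iff.1 (by omega)
    subst hfs
    have hd : d = [] := by
      simp at hN
      exact hN
    subst hd
    exact ⟨0, le_rfl, Red.nil⟩
  | succ N ih =>
    intro d fs D hrel hN
    by_cases hw : ∃ w ∈ d, D.l w ∉ d
    · -- absorb a face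
      obtain ⟨w, hwd, hlw⟩ := hw
      obtain ⟨w', hww'⟩ : ∃ w', D.l w = w' := ⟨_, rfl⟩
      have h1 : D.l w ∈ (d :: fs).flatten := D.live_l (by
        rw [List.flatten_cons]; exact List.mem_append_left _ hwd)
      rw [List.flatten_cons, List.mem_append] at h1
      rw [hww'] at h1 hlw
      obtain ⟨e, he, hwe⟩ := List.mem_flatten.1 (h1.resolve_left hlw)
      obtain ⟨fs1, fs2, rfl⟩ := List.append_of_mem he
      obtain ⟨c1, c2, rfl⟩ := List.append_of_mem hwd
      obtain ⟨d1, d2, rfl⟩ := List.append_of_mem hwe
      have hp : ((c1 ++ w :: c2) :: (fs1 ++ (d1 ++ w' :: d2) :: fs2)).Perm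
          ((c1 ++ w :: c2) :: (d1 ++ w' :: d2) :: (fs1 ++ fs2)) :=
        (List.perm_middle).cons _
      obtain ⟨D', hlab, hl'⟩ := (D.ofPerm hp).absorb hww'
      have hlab' : D'.lab = D.lab := hlab
      obtain ⟨n, hn, hred⟩ := ih _ _ D' (by
        intro e' he'
        rw [hlab']
        refine hrel e' ?_
        rcases List.mem_append.1 he' with h | h
        · simp [h]
        · simp [h]) (by
        simp only [List.length_append, List.length_cons, List.flatten_cons,
          List.flatten_append] at hN ⊢
        omega)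
      refine ⟨n + 1, by omega, ?_⟩
      rw [hlab'] at hred
      have hq : (w' :: (d2 ++ d1)).map D.lab ∈ R := by
        refine hR _ (hrel _ he) _ ?_
        refine ⟨d1.length, ?_⟩
        rw [← List.map_rotate, List.rotate_append_length_eq]
        rfl
      have := Red.ins ((c1 ++ [w]).map D.lab) (c2.map D.lab) _ n hq (by
        have e1 : (c1 ++ w :: (w' :: (d2 ++ d1) ++ c2)).map D.lab =
          (c1 ++ [w]).map D.lab ++ ((w' :: (d2 ++ d1)).map D.lab ++ c2.map D.lab) := by
          simp
        rw [← e1]
        exact hred)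
      have e2 : (c1 ++ w :: c2).map D.lab = (c1 ++ [w]).map D.lab ++ c2.map D.lab := by simp
      rw [e2]
      exact this
    · push Not at hw
      by_cases hd : d = []
      · subst hd
        exact ⟨0, by omega, Red.nil⟩
      obtain ⟨D1, h1⟩ := D.keepClosed hw
      have hmap : d.map D.lab = d.map D1.lab := List.map_congr_left (fun x hx => (h1 x hx).symm)
      rw [hmap]
      have hlen : d.length ≤ N + 1 := by
        simp only [List.flatten_cons, List.length_append] at hN
        omega
      obtain ⟨w, hwd, hfix⟩ := D1.single hd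
      obtain ⟨c1, c2, rfl⟩ := List.append_of_mem hwd
      let D2 := D1.rot (e := w :: (c2 ++ c1)) (by
        refine ⟨c1.length, ?_⟩
        rw [List.rotate_append_length_eq]
        rfl)
      have hrot : (c1 ++ w :: c2).map D1.lab = c1.map D1.lab ++ (w :: c2).map D1.lab := by simp
      have hrot2 : (w :: (c2 ++ c1)).map D1.lab = (w :: c2).map D1.lab ++ c1.map D1.lab := by simp
      rcases hfix with hfix | hfix
      · -- zero label
        have h0 : (D1.lab w).2 = 0 := D1.cyc_self hfix
        let D3 := D2.deleteHead h0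
        obtain ⟨n, hn, hred⟩ := ih (c2 ++ c1) [] D3 (by simp) (by
          simp only [List.length_append, List.length_cons] at hlen
          simp
          omega)
        refine ⟨n + 1, by omega, ?_⟩
        rw [hrot]
        apply Red.rot
        rw [← hrot2, List.map_cons]
        have h3 : D1.lab w = ((D1.lab w).1, 0) := by
          ext
          · rfl
          · exact h0
        rw [h3]
        exact Red.zero [] _ _ n hred
      · -- fold
        have hlw : D1.l w ≠ w ∨ D1.l w = w := ne_or_eq _ _
        rcases hlw with hlw | hlw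
        · -- the next syllable
          have hnod : (w :: (c2 ++ c1)).Nodup := by
            have := D2.nodup
            simpa using this
          rcases hc : c2 ++ c1 with _ | ⟨w', c3⟩
          · exfalso
            have hc1 : c1 = [] := by
              rw [List.append_eq_nil_iff] at hc
              exact hc.2
            have hc2 : c2 = [] := by
              rw [List.append_eq_nil_iff] at hc
              exact hc.1
            subst hc1; subst hc2
            apply hlw
            rw [← hfix]
            simp [facePerm]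
          · have hσ : facePerm [c1 ++ w :: c2] w = w' := by
              have h3 : facePerm [c1 ++ w :: c2] = facePerm [w :: (c2 ++ c1)] := by
                refine facePerm_rot ?_ D1.nodup
                refine ⟨c1.length, ?_⟩
                rw [List.rotate_append_length_eq]
                rfl
              rw [h3, hc]
              rw [hc] at hnod
              have : facePerm [w :: w' :: c3] = (w :: w' :: c3).formPerm := by simp [facePerm]
              rw [this]
              exact List.formPerm_apply_head w w' c3 hnod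
            have ht : (D1.lab w).1 = (D1.lab w').1 := by
              rw [← hσ, hfix, D1.ty_l]
            let D3 : FC L Ω [w :: w' :: c3] := D2.rot (by rw [hc])
            obtain ⟨D4, h4, h4'⟩ := D3.fold ht
            obtain ⟨n, hn, hred⟩ := ih (w :: c3) [] D4 (by simp) (by
              have := congrArg List.length hc
              simp only [List.length_append, List.length_cons] at hlen this
              simp
              omega)
            refine ⟨n + 1, by omega, ?_⟩
            rw [hrot]
            apply Red.rot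
            rw [← hrot2, hc, List.map_cons, List.map_cons]
            have e1 : D1.lab w = ((D1.lab w).1, (D1.lab w).2) := rfl
            have e2 : D1.lab w' = ((D1.lab w).1, (D1.lab w').2) := by
              ext
              · exact ht.symm
              · rfl
            rw [e1, e2]
            refine Red.fold [] _ _ _ _ n ?_
            rw [hc] at hnod
            have e3 : c3.map D1.lab = c3.map D4.lab := by
              refine List.map_congr_left (fun x hx => (h4' x ?_ ?_).symm)
              · rintro rfl
                simp [hx] at hnod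
              · rintro rfl
                simp [hx] at hnod
            have e4 : D4.lab w = ((D1.lab w).1, (D1.lab w).2 + (D1.lab w').2) := h4
            rw [e3, ← e4]
            exact hred
        · have h0 : (D1.lab w).2 = 0 := D1.cyc_self hlw
          let D3 := D2.deleteHead h0
          obtain ⟨n, hn, hred⟩ := ih (c2 ++ c1) [] D3 (by simp) (by
            simp only [List.length_append, List.length_cons] at hlen
            simp
            omega)
          refine ⟨n + 1, by omega, ?_⟩
          rw [hrot]
          apply Red.rot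
          rw [← hrot2, List.map_cons]
          have h3 : D1.lab w = ((D1.lab w).1, 0) := by
            ext
            · rfl
            · exact h0
          rw [h3]
          exact Red.zero [] _ _ n hred

/-- a derivation evaluates to 1 -/
theorem Red.ev_one {Γ : Type} [Group Γ] (α : Bool → Multiplicative L →* Γ) {R : Set (Wd L)}
    (hR : ∀ q ∈ R, ev α q = 1) {w : Wd L} {n : ℕ} (h : Red R w n) : ev α w = 1 := by
  induction h with
  | nil => rfl
  | ins u v q n hq _ ih =>
    rw [ev_append, ev_append, hR q hq, one_mul] at ih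
    rw [ev_append]
    exact ih
  | fold u v t x y n _ ih =>
    rw [ev_append, ev_cons, pw_add] at ih
    rw [ev_append, ev_cons, ev_cons, ← mul_assoc (pw α _ _) (pw α _ _)]
    exact ih
  | zero u v t n _ ih =>
    rw [ev_append, ev_cons, pw_zero, one_mul, ← ev_append]
    exact ih
  | rot u v n _ ih => exact ev_rot α ih

/-- SOUNDNESS -/
theorem FC.sound {Γ : Type} [Group Γ] (α : Bool → Multiplicative L →* Γ) {Ω : Type} [Fintype Ω]
    [DecidableEq Ω] {d : List Ω} {fs : List (List Ω)} (D : FC L Ω (d :: fs))
    (h : ∀ e ∈ fs, ev α (e.map D.lab) = 1) : ev α (d.map D.lab) = 1 := by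
  obtain ⟨n, -, hred⟩ := FC.red {q | ev α q = 1} (fun q hq q' hqq' => ev_isRotated α hqq' hq) _
    d fs D h le_rfl
  exact hred.ev_one α (fun q hq => hq)

theorem Cert.sound {Γ : Type} [Group Γ] (α : Bool → Multiplicative L →* Γ) {w : Wd L}
    {F : List (Wd L)} (hC : Cert (w :: F)) (h : ∀ q ∈ F, ev α q = 1) : ev α w = 1 := by
  obtain ⟨Ω, i1, i2, fs, D, hF⟩ := hC
  obtain ⟨d, fs', rfl, hd, rfl⟩ := List.map_eq_cons_iff.1 hF.symm
  rw [← hd]
  exact D.sound α (fun e he => h _ (List.mem_map_of_mem he))

end Pool.Agent.ABA
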